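import Pool.Agent.K4H14.GC.ToReal2
import Pool.Agent.K4H14.GC.Det2

/-!
# From the points of a grid to all intervals, for bounded functions
-/

set_option autoImplicit false

namespace Pool.Agent.K4H49.GT

open Finset MeasureTheory ProbabilityTheory Filter
open Pool.Agent.K4H14.GC

/-- the moments of the sums of `f` over the intervals of the grid are those of the normal law -/
def MomC (B : ℝ) (K J : ℕ) (κ : ℝ) (f : ℕ → ℝ) (N : ℕ) : Prop :=
  ∀ k, 1 ≤ k → k ≤ K → ∀ R, (R = 2 ∨ R = 8) → ∀ j s : ℕ, j < 2 * J → (N : ℝ) ^ κ ≤ ((j * 2 ^ s : ℕ) : ℝ) →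
    ((j * 2 ^ s : ℕ) : ℝ) * (N : ℝ) ^ κ ≤ N →
    |∑ n ∈ Ioc N (R * N), W f (j * 2 ^ s) n ^ k - ((R * N - N : ℕ) : ℝ) * (gk k * sg (j * 2 ^ s) ^ k)| ≤
      B * (N : ℝ) ^ (1 - κ / 16) * Real.sqrt ((j * 2 ^ s : ℕ) : ℝ) ^ k

theorem W_abs2 {f : ℕ → ℝ} (hf : ∀ n, |f n| ≤ 2) (g n : ℕ) : |W f g n| ≤ 2 * g := by
  unfold W
  refine (abs_sum_le_sum_abs _ _).trans ?_
  calc ∑ m ∈ Ioc n (n + g), |f m| ≤ ∑ _m ∈ Ioc n (n + g), (2 : ℝ) := sum_le_sum fun m _ => hf m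
    _ = 2 * g := by
        rw [sum_const, Nat.card_Ioc, nsmul_eq_mul, Nat.add_sub_cancel_left]
        ring

theorem four_abs (C κ : ℝ) (hC : 0 ≤ C) (hκ : 0 < κ) : ∃ D : ℝ, 0 ≤ D ∧ ∃ N₀ : ℕ, 1 ≤ N₀ ∧ ∀ N : ℕ, N₀ ≤ N →
    ∀ f : ℕ → ℝ, (∀ n, |f n| ≤ 2) →
    (∀ r : ℕ, (N : ℝ) ^ κ ≤ 2 ^ r → (2 : ℝ) ^ r * (N : ℝ) ^ κ ≤ N →
      |∑ n ∈ Ioc N (8 * N), W f (2 ^ r) n ^ 4 - 7 * N * (3 * sg (2 ^ r) ^ 4)| ≤ C * N * (Real.sqrt 2 ^ r) ^ 4) →
    ∀ s : ℕ, (N : ℝ) ^ (4 * κ) ≤ 2 ^ s → (2 : ℝ) ^ s * (N : ℝ) ^ κ ≤ N → ∀ g A B : ℕ, g < 2 ^ s → N ≤ A → B + g ≤ 8 * N →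
      ∑ m ∈ Ioc A B, W f g m ^ 4 ≤ D * N * 4 ^ s := by
  obtain ⟨E, hE⟩ : ∃ E : ℝ, E = C + 22 := ⟨_, rfl⟩
  have hE1 : 1 ≤ E := by rw [hE]; linarith
  -- `s ≤ N^κ`
  have hlog : ∀ᶠ N : ℕ in Filter.atTop, 2 * Real.log N + 1 ≤ (N : ℝ) ^ κ := by
    have h1 : Filter.Tendsto (fun N : ℕ => (2 * Real.log N + 1) / (N : ℝ) ^ κ) Filter.atTop (nhds 0) := by
      have h2 : Filter.Tendsto (fun x : ℝ => Real.log x / x ^ κ) Filter.atTop (nhds 0) :=
        (isLittleO_log_rpow_atTop hκ).tendsto_div_nhds_zero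
      have h3 : Filter.Tendsto (fun x : ℝ => 1 / x ^ κ) Filter.atTop (nhds 0) := by
        have := tendsto_rpow_neg_atTop hκ
        refine this.congr' ?_
        filter_upwards [Filter.eventually_gt_atTop 0] with x hx
        rw [Real.rpow_neg hx.le, one_div]
      have h4 := ((h2.const_mul 2).add h3).comp tendsto_natCast_atTop_atTop
      rw [mul_zero, add_zero] at h4
      refine h4.congr fun N => ?_
      simp only [Function.comp_apply]
      ring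
    have h2 := h1.eventually (gt_mem_nhds (show (0 : ℝ) < 1 by norm_num))
    filter_upwards [h2, Filter.eventually_ge_atTop 1] with N h3 hN
    have hN0 : (0 : ℝ) < N := by exact_mod_cast hN
    have h4 : 0 < (N : ℝ) ^ κ := by positivity
    rw [div_lt_one h4] at h3
    exact h3.le
  obtain ⟨N₁, hN₁⟩ := Filter.eventually_atTop.1 hlog
  refine ⟨(4 * E) ^ 4, by positivity, max N₁ 2, le_max_of_le_right (by norm_num), ?_⟩
  intro N hN f hf hgood s hs1 hs2 g A B hg hA hB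
  have hN2 : 2 ≤ N := (le_max_right _ _).trans hN
  have hNr : (1 : ℝ) ≤ N := by exact_mod_cast (by omega : 1 ≤ N)
  have hN0 : (0 : ℝ) < N := by linarith
  have hsl := hN₁ N ((le_max_left _ _).trans hN)
  have hq0 : 0 ≤ (N : ℝ) ^ (1 / (4 : ℝ)) := by positivity
  have hq4 : ((N : ℝ) ^ (1 / (4 : ℝ))) ^ 4 = N := by
    rw [← Real.rpow_natCast, ← Real.rpow_mul hN0.le]
    norm_num
  have hκ1 : (1 : ℝ) ≤ (N : ℝ) ^ κ := Real.one_le_rpow hNr hκ.le
  -- every power of two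
  have hone : ∀ r ∈ range s, N4 f (2 ^ r) N (8 * N) ≤ E * (N : ℝ) ^ (1 / (4 : ℝ)) * (Real.sqrt 2 ^ r + (N : ℝ) ^ κ) := by
    intro r hr
    rw [mem_range] at hr
    have hx0 : 0 ≤ E * (N : ℝ) ^ (1 / (4 : ℝ)) * (Real.sqrt 2 ^ r + (N : ℝ) ^ κ) := by positivity
    have hrs : (2 : ℝ) ^ r ≤ 2 ^ s := pow_le_pow_right₀ (by norm_num) hr.le
    have h2r : (2 : ℝ) ^ r ≤ N := by
      calc (2 : ℝ) ^ r ≤ 2 ^ s := hrs
        _ ≤ 2 ^ s * (N : ℝ) ^ κ := le_mul_of_one_le_right (by positivity) hκ1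
        _ ≤ N := hs2
    apply N4_le f _ _ _ _ hx0
    by_cases hr1 : (N : ℝ) ^ κ ≤ 2 ^ r
    · have hr2 : (2 : ℝ) ^ r * (N : ℝ) ^ κ ≤ N := (mul_le_mul_of_nonneg_right hrs (by positivity)).trans hs2
      have h2 := hgood r hr1 hr2
      rw [abs_le] at h2
      have h4 : sg (2 ^ r) ^ 4 ≤ (Real.sqrt 2 ^ r) ^ 4 := by
        rw [← sqrt_pow_eq]
        exact pow_le_pow_left₀ (Real.sqrt_nonneg _) (sg_le _) 4
      have h8 : 7 * (N : ℝ) * (3 * sg (2 ^ r) ^ 4) ≤ 21 * N * (Real.sqrt 2 ^ r) ^ 4 := by nlinarith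
      have h9 : 0 ≤ (N : ℝ) * (Real.sqrt 2 ^ r) ^ 4 := by positivity
      calc ∑ m ∈ Ioc N (8 * N), W f (2 ^ r) m ^ 4 ≤ E * (N * (Real.sqrt 2 ^ r) ^ 4) := by
            rw [hE]
            linarith [h2.2]
        _ ≤ E ^ 4 * (N * (Real.sqrt 2 ^ r) ^ 4) := by
            apply mul_le_mul_of_nonneg_right _ (by positivity)
            exact le_self_pow₀ hE1 (by norm_num)
        _ = (E * (N : ℝ) ^ (1 / (4 : ℝ)) * Real.sqrt 2 ^ r) ^ 4 := by
            rw [mul_pow, mul_pow, hq4]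
            ring
        _ ≤ _ := by
            apply pow_le_pow_left₀ (by positivity)
            apply mul_le_mul_of_nonneg_left _ (by positivity)
            linarith
    · push Not at hr1
      calc ∑ m ∈ Ioc N (8 * N), W f (2 ^ r) m ^ 4 ≤ ∑ _m ∈ Ioc N (8 * N), (2 * (2 : ℝ) ^ r) ^ 4 := by
            apply sum_le_sum
            intro m hm
            have h1 := W_abs2 hf (2 ^ r) m
            push_cast at h1
            calc W f (2 ^ r) m ^ 4 = |W f (2 ^ r) m| ^ 4 := by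
                  have : |W f (2 ^ r) m| ^ 4 = (|W f (2 ^ r) m| ^ 2) ^ 2 := by ring
                  rw [this, sq_abs]
                  ring
              _ ≤ _ := pow_le_pow_left₀ (abs_nonneg _) h1 4
        _ = 112 * (N * ((2 : ℝ) ^ r) ^ 4) := by
            rw [sum_const, Nat.card_Ioc, nsmul_eq_mul, show 8 * N - N = 7 * N by omega]
            push_cast
            ring
        _ ≤ E ^ 4 * (N * ((N : ℝ) ^ κ) ^ 4) := by
            apply mul_le_mul _ _ (by positivity) (by positivity)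
            · have h22 : (22 : ℝ) ≤ E := by rw [hE]; linarith
              calc (112 : ℝ) ≤ 22 ^ 4 := by norm_num
                _ ≤ E ^ 4 := pow_le_pow_left₀ (by norm_num) h22 4
            · apply mul_le_mul_of_nonneg_left _ hN0.le
              exact pow_le_pow_left₀ (by positivity) hr1.le 4
        _ = (E * (N : ℝ) ^ (1 / (4 : ℝ)) * (N : ℝ) ^ κ) ^ 4 := by
            rw [mul_pow, mul_pow, hq4]
            ring
        _ ≤ _ := by
            apply pow_le_pow_left₀ (by positivity)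
            apply mul_le_mul_of_nonneg_left _ (by positivity)
            have : 0 ≤ Real.sqrt 2 ^ r := by positivity
            linarith
  have h1 := (chain f N (8 * N) s g A B hg hA hB).trans (sum_le_sum hone)
  rw [← mul_sum, sum_add_distrib, sum_const, card_range, nsmul_eq_mul] at h1
  have h2 : (s : ℝ) ≤ (N : ℝ) ^ κ := by
    have h3 : (2 : ℝ) ^ s ≤ N := (le_mul_of_one_le_right (by positivity) hκ1).trans hs2
    have h4 : (s : ℝ) * Real.log 2 ≤ Real.log N := by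
      rw [← Real.log_pow]
      exact Real.log_le_log (by positivity) h3
    have h5 : (1 / 2 : ℝ) ≤ Real.log 2 := by linarith [Real.log_two_gt_d9]
    have h6 : (0 : ℝ) ≤ s := Nat.cast_nonneg _
    nlinarith
  have h3 : (s : ℝ) * (N : ℝ) ^ κ ≤ Real.sqrt 2 ^ s := by
    calc (s : ℝ) * (N : ℝ) ^ κ ≤ (N : ℝ) ^ κ * (N : ℝ) ^ κ := mul_le_mul_of_nonneg_right h2 (by positivity)
      _ = (N : ℝ) ^ (2 * κ) := by
        rw [← Real.rpow_add hN0]
        congr 1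
        ring
      _ ≤ Real.sqrt 2 ^ s := by
        rw [← sqrt_pow_eq]
        apply Real.le_sqrt_of_sq_le
        rw [← Real.rpow_natCast, ← Real.rpow_mul hN0.le]
        push_cast
        refine le_trans (le_of_eq ?_) hs1
        congr 1
        ring
  have h4 : N4 f g A B ≤ E * (N : ℝ) ^ (1 / (4 : ℝ)) * (4 * Real.sqrt 2 ^ s) := by
    refine h1.trans ?_
    apply mul_le_mul_of_nonneg_left _ (by positivity)
    have := geom s
    linarith
  calc ∑ m ∈ Ioc A B, W f g m ^ 4 = N4 f g A B ^ 4 := (N4_pow f g A B).symm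
    _ ≤ (E * (N : ℝ) ^ (1 / (4 : ℝ)) * (4 * Real.sqrt 2 ^ s)) ^ 4 := pow_le_pow_left₀ (N4_nonneg _ _ _ _) h4 4
    _ = (4 * E) ^ 4 * N * (Real.sqrt 2 ^ s) ^ 4 := by
        rw [mul_pow, mul_pow, hq4]
        ring
    _ = (4 * E) ^ 4 * N * 4 ^ s := by
        congr 1
        rw [← pow_mul, mul_comm s 4, pow_mul]
        congr 1
        have : Real.sqrt 2 ^ 4 = (Real.sqrt 2 ^ 2) ^ 2 := by ring
        rw [this, Real.sq_sqrt (by norm_num)]
        norm_num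


theorem grid_dist_abs (B : ℝ) (hB : 0 ≤ B) (K : ℕ) (E : ℝ) (hE : 0 < E) (κ : ℝ) (hκ : 0 < κ) :
    ∃ N₀ : ℕ, 1 ≤ N₀ ∧ ∀ N : ℕ, N₀ ≤ N → ∀ h : ℕ, (N : ℝ) ^ κ ≤ h →
      ∀ f : ℕ → ℝ,
      (∀ k, 1 ≤ k → k ≤ K → |∑ n ∈ Ioc N (2 * N), W f h n ^ k - N * (gk k * sg h ^ k)| ≤
        B * (N : ℝ) ^ (1 - κ / 16) * Real.sqrt h ^ k) →
      ∀ k, 1 ≤ k → k ≤ K → |∑ n ∈ Ioc N (2 * N), (W f h n / sg h) ^ k - N * gk k| ≤ E * N := by
  obtain ⟨N₁, hN₁⟩ := eventually_pow_ge (κ / 16) (B * 2 ^ K / E) (by positivity)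
  refine ⟨max N₁ 1, le_max_right _ _, ?_⟩
  intro N hN h hNh f hB2 k hk1 hk2
  have hN1 : 1 ≤ N := (le_max_right _ _).trans hN
  have hNr : (1 : ℝ) ≤ N := by exact_mod_cast hN1
  have hN0 : (0 : ℝ) < N := by linarith
  have hs1 : (1 : ℝ) ≤ (N : ℝ) ^ κ := Real.one_le_rpow hNr hκ.le
  have hh0 : (0 : ℝ) < h := by linarith
  have h3 := hB2 k hk1 hk2
  have hsg0 : 0 < sg h := by
    have := sqrt_le_sg h
    have h3 : 0 < Real.sqrt h := Real.sqrt_pos.2 hh0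
    linarith
  have e2 : ∑ n ∈ Ioc N (2 * N), (W f h n / sg h) ^ k - N * gk k =
      (∑ n ∈ Ioc N (2 * N), W f h n ^ k - N * (gk k * sg h ^ k)) / sg h ^ k := by
    have : sg h ^ k ≠ 0 := by positivity
    rw [sub_div, sum_div]
    congr 1
    · apply sum_congr rfl
      intro n _
      rw [div_pow]
    · field_simp
  rw [e2, abs_div, abs_of_pos (by positivity : 0 < sg h ^ k), div_le_iff₀ (by positivity)]
  refine h3.trans ?_
  have h4 : Real.sqrt h ^ k ≤ 2 ^ K * sg h ^ k := by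
    calc Real.sqrt h ^ k ≤ (2 * sg h) ^ k := pow_le_pow_left₀ (Real.sqrt_nonneg _) (sqrt_le_sg h) k
      _ = 2 ^ k * sg h ^ k := mul_pow _ _ _
      _ ≤ 2 ^ K * sg h ^ k := by
        apply mul_le_mul_of_nonneg_right _ (by positivity)
        exact pow_le_pow_right₀ (by norm_num) hk2
  have h5 : B * 2 ^ K * (N : ℝ) ^ (1 - κ / 16) ≤ E * N := by
    have h6 := hN₁ N ((le_max_left _ _).trans hN)
    rw [div_le_iff₀ hE] at h6
    calc B * 2 ^ K * (N : ℝ) ^ (1 - κ / 16) ≤ ((N : ℝ) ^ (κ / 16) * E) * (N : ℝ) ^ (1 - κ / 16) :=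
          mul_le_mul_of_nonneg_right h6 (by positivity)
      _ = E * ((N : ℝ) ^ (κ / 16) * (N : ℝ) ^ (1 - κ / 16)) := by ring
      _ = E * N := by
          rw [← Real.rpow_add hN0, show κ / 16 + (1 - κ / 16) = (1 : ℝ) by ring, Real.rpow_one]
  calc B * (N : ℝ) ^ (1 - κ / 16) * Real.sqrt h ^ k ≤ B * (N : ℝ) ^ (1 - κ / 16) * (2 ^ K * sg h ^ k) :=
        mul_le_mul_of_nonneg_left h4 (by positivity)
    _ = (B * 2 ^ K * (N : ℝ) ^ (1 - κ / 16)) * sg h ^ k := by ring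
    _ ≤ E * N * sg h ^ k := mul_le_mul_of_nonneg_right h5 (by positivity)

theorem det_abs (Bf : ℕ → ℝ) (hBf : ∀ K, 0 ≤ Bf K) (τ ε : ℝ) (hτ : 0 < τ) (hε : 0 < ε) :
    ∃ K b : ℕ, 4 ≤ K ∧ ∃ κ : ℝ, 0 < κ ∧ κ * (2 * K) ≤ 1 ∧ κ ≤ ε / 16 ∧
    1 ≤ τ * 2 ^ b ∧ ∃ N₀ : ℕ, 1 ≤ N₀ ∧
    ∀ N : ℕ, N₀ ≤ N → ∀ f : ℕ → ℝ, (∀ n, |f n| ≤ 2) → MomC (Bf K) K (2 ^ b) κ f N → ∀ N' : ℕ, N ≤ N' → 2 ^ b * (N' - N) ≤ N →
      ∀ h' : ℕ, (N' : ℝ) ^ ε ≤ h' → (h' : ℝ) ≤ (N' : ℝ) ^ (1 - ε) → ∀ x : ℝ,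
      |(((Ioc N' (2 * N')).filter (fun n => W f h' n ≤ x * sg h')).card : ℝ) - N' * Ph x| ≤ 6 * τ * N' := by
  obtain ⟨K, hK4, E, hE, hdist⟩ := dist_of_moments τ hτ
  have hKr : (4 : ℝ) ≤ K := by exact_mod_cast hK4
  obtain ⟨κ, hκdef⟩ : ∃ κ : ℝ, κ = min (ε / 16) (1 / (2 * K)) := ⟨_, rfl⟩
  have hκ : 0 < κ := by rw [hκdef]; exact lt_min (by positivity) (by positivity)
  have hκε : κ ≤ ε / 16 := by rw [hκdef]; exact min_le_left _ _
  have hκK : κ * (2 * K) ≤ 1 := by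
    have : κ ≤ 1 / (2 * K) := by rw [hκdef]; exact min_le_right _ _
    rw [le_div_iff₀ (by positivity)] at this
    exact this
  obtain ⟨N₁, hN₁1, hgrid⟩ := grid_dist_abs (Bf K) (hBf K) K E hE κ hκ
  obtain ⟨D, hD, N₂, hN₂1, hfour⟩ := four_abs (Bf K) κ (hBf K) hκ
  obtain ⟨b, hb⟩ := pow_unbounded_of_one_lt (1 / τ + 16 * D / τ ^ 5 + 1) (show (1 : ℝ) < 2 by norm_num)
  have hJ0 : (0 : ℝ) < 2 ^ b := by positivity
  have hJ1 : (1 : ℝ) ≤ 2 ^ b := one_le_pow₀ (by norm_num)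
  have hJτ : 1 ≤ τ * 2 ^ b := by
    have h1 : 1 / τ ≤ 2 ^ b := by
      have : 0 ≤ 16 * D / τ ^ 5 := by positivity
      linarith
    rw [div_le_iff₀ hτ] at h1
    linarith
  have hJD : 16 * D / τ ^ 5 ≤ (2 ^ b) ^ 2 := by
    have h1 : 0 < 1 / τ := by positivity
    have h2 : 16 * D / τ ^ 5 ≤ 2 ^ b := by linarith
    refine h2.trans ?_
    rw [sq]
    exact le_mul_of_one_le_left hJ0.le hJ1
  obtain ⟨N₃, hN₃⟩ := eventually_pow_ge (ε / 2) (2 * 2 ^ b) (by positivity)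
  refine ⟨K, b, hK4, κ, hκ, hκK, hκε, hJτ, max (max N₁ N₂) N₃, le_trans hN₁1 (le_trans (le_max_left _ _) (le_max_left _ _)), ?_⟩
  intro N hN f hf hgood N' hNN' hN'J h' hh'1 hh'2 x
  have hN1 : N₁ ≤ N := le_trans (le_trans (le_max_left _ _) (le_max_left _ _)) hN
  have hN2 : N₂ ≤ N := le_trans (le_trans (le_max_right _ _) (le_max_left _ _)) hN
  have hN3 := hN₃ N (le_trans (le_max_right _ _) hN)
  have hNn1 : 1 ≤ N := hN₁1.trans hN1
  have hNr : (1 : ℝ) ≤ N := by exact_mod_cast hNn1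
  have hN0 : (0 : ℝ) < N := by linarith
  have hN'r : (N : ℝ) ≤ N' := by exact_mod_cast hNN'
  have hN'0 : (0 : ℝ) < N' := by linarith
  have hN'J' : (2 : ℝ) ^ b * (N' - N) ≤ N := by
    have h1 : ((2 ^ b * (N' - N) : ℕ) : ℝ) ≤ N := by exact_mod_cast hN'J
    rw [Nat.cast_mul, Nat.cast_sub hNN'] at h1
    push_cast at h1
    exact h1
  have hN'2 : (N' : ℝ) ≤ 2 * N := by
    have h1 : (N' - N : ℝ) ≤ 2 ^ b * (N' - N) := le_mul_of_one_le_left (by linarith) hJ1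
    linarith
  have hN'2' : N' ≤ 2 * N := by exact_mod_cast hN'2
  have hNε : (N : ℝ) ^ ε ≤ h' := (Real.rpow_le_rpow hN0.le hN'r hε.le).trans hh'1
  have hNhalf : (N : ℝ) ^ (ε / 2) ≤ (N : ℝ) ^ ε := Real.rpow_le_rpow_of_exponent_le hNr (by linarith)
  have hh'J : 2 ^ b ≤ h' := by
    have h1 : (2 : ℝ) ^ b ≤ h' := by linarith
    exact_mod_cast h1
  obtain ⟨j, s, g, e1, hg, hj1, hj2⟩ := digits b h' hh'J
  obtain ⟨h, hh⟩ : ∃ h, h = j * 2 ^ s := ⟨_, rfl⟩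
  rw [← hh] at e1
  have hjr1 : (2 : ℝ) ^ b ≤ j := by exact_mod_cast hj1
  have hgs : (g : ℝ) < 2 ^ s := by exact_mod_cast hg
  have hhr : (h : ℝ) = j * 2 ^ s := by rw [hh]; push_cast; ring
  have h2s0 : (0 : ℝ) < 2 ^ s := by positivity
  have hJs : (2 : ℝ) ^ b * 2 ^ s ≤ h := by rw [hhr]; exact mul_le_mul_of_nonneg_right hjr1 h2s0.le
  have hh0 : (0 : ℝ) < h := lt_of_lt_of_le (by positivity) hJs
  have e1r : (h' : ℝ) = h + g := by exact_mod_cast e1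
  have hg0 : (0 : ℝ) ≤ g := Nat.cast_nonneg _
  have hhh' : (h : ℝ) ≤ h' := by linarith
  have h2sh : (2 : ℝ) ^ s ≤ h := le_trans (le_mul_of_one_le_left h2s0.le hJ1) hJs
  have hhalf : (h' : ℝ) ≤ 2 * h := by linarith
  have hratio : (h' : ℝ) * 2 ^ b ≤ h * (2 ^ b + 1) := by
    rw [e1r]
    have h1 : (g : ℝ) * 2 ^ b ≤ 2 ^ s * 2 ^ b := mul_le_mul_of_nonneg_right hgs.le hJ0.le
    linarith
  -- the conditions
  have c1 : (N : ℝ) ^ κ ≤ h := by
    have h1 : (N : ℝ) ^ κ * 2 ≤ (N : ℝ) ^ ε := by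
      calc (N : ℝ) ^ κ * 2 ≤ (N : ℝ) ^ (ε / 2) * (N : ℝ) ^ (ε / 2) := by
            apply mul_le_mul
            · exact Real.rpow_le_rpow_of_exponent_le hNr (by linarith)
            · linarith
            · norm_num
            · positivity
        _ = (N : ℝ) ^ ε := by rw [← Real.rpow_add hN0]; congr 1; ring
    linarith
  have c2' : (h' : ℝ) * (N : ℝ) ^ κ ≤ N := by
    have h1 : (N' : ℝ) ^ (1 - ε) ≤ 2 * (N : ℝ) ^ (1 - ε) := by
      rcases le_total ε 1 with h2 | h2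
      · calc (N' : ℝ) ^ (1 - ε) ≤ (2 * N : ℝ) ^ (1 - ε) := Real.rpow_le_rpow hN'0.le hN'2 (by linarith)
          _ = 2 ^ (1 - ε) * (N : ℝ) ^ (1 - ε) := Real.mul_rpow (by norm_num) hN0.le
          _ ≤ 2 * (N : ℝ) ^ (1 - ε) := by
            apply mul_le_mul_of_nonneg_right _ (by positivity)
            calc (2 : ℝ) ^ (1 - ε) ≤ 2 ^ (1 : ℝ) := Real.rpow_le_rpow_of_exponent_le (by norm_num) (by linarith)
              _ = 2 := Real.rpow_one 2
      · calc (N' : ℝ) ^ (1 - ε) ≤ (N : ℝ) ^ (1 - ε) := Real.rpow_le_rpow_of_nonpos hN0 hN'r (by linarith)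
          _ ≤ 2 * (N : ℝ) ^ (1 - ε) := by
            have : 0 < (N : ℝ) ^ (1 - ε) := by positivity
            linarith
    have h2 : 2 * (N : ℝ) ^ κ ≤ (N : ℝ) ^ ε := by
      calc 2 * (N : ℝ) ^ κ ≤ (N : ℝ) ^ (ε / 2) * (N : ℝ) ^ (ε / 2) := by
            apply mul_le_mul
            · linarith
            · exact Real.rpow_le_rpow_of_exponent_le hNr (by linarith)
            · positivity
            · positivity
        _ = (N : ℝ) ^ ε := by rw [← Real.rpow_add hN0]; congr 1; ring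
    calc (h' : ℝ) * (N : ℝ) ^ κ ≤ (2 * (N : ℝ) ^ (1 - ε)) * (N : ℝ) ^ κ :=
          mul_le_mul_of_nonneg_right (hh'2.trans h1) (by positivity)
      _ = (N : ℝ) ^ (1 - ε) * (2 * (N : ℝ) ^ κ) := by ring
      _ ≤ (N : ℝ) ^ (1 - ε) * (N : ℝ) ^ ε := mul_le_mul_of_nonneg_left h2 (by positivity)
      _ = N := by rw [← Real.rpow_add hN0, show 1 - ε + ε = (1 : ℝ) by ring, Real.rpow_one]
  have c2 : (h : ℝ) * (N : ℝ) ^ κ ≤ N := (mul_le_mul_of_nonneg_right hhh' (by positivity)).trans c2'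
  have c3 : (N : ℝ) ^ (4 * κ) ≤ 2 ^ s := by
    have h1 : (h' : ℝ) ≤ 2 ^ s * (2 * 2 ^ b) := by
      have h2 : h' ≤ 2 ^ s * (2 * 2 ^ b) := by
        have h3 : j + 1 ≤ 2 * 2 ^ b := by rw [pow_succ] at hj2; omega
        calc h' = h + g := e1
          _ ≤ j * 2 ^ s + 2 ^ s := by rw [hh]; omega
          _ = 2 ^ s * (j + 1) := by ring
          _ ≤ _ := Nat.mul_le_mul_left _ h3
      exact_mod_cast h2
    have h2 : (N : ℝ) ^ (4 * κ) * (2 * 2 ^ b) ≤ 2 ^ s * (2 * 2 ^ b) := by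
      calc (N : ℝ) ^ (4 * κ) * (2 * 2 ^ b) ≤ (N : ℝ) ^ (ε / 2) * (N : ℝ) ^ (ε / 2) := by
            apply mul_le_mul
            · exact Real.rpow_le_rpow_of_exponent_le hNr (by linarith)
            · exact hN3
            · positivity
            · positivity
        _ = (N : ℝ) ^ ε := by rw [← Real.rpow_add hN0]; congr 1; ring
        _ ≤ _ := hNε.trans h1
    exact le_of_mul_le_mul_right h2 (by positivity)
  have c4 : (2 : ℝ) ^ s * (N : ℝ) ^ κ ≤ N := (mul_le_mul_of_nonneg_right h2sh (by positivity)).trans c2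
  have hκ1 : (1 : ℝ) ≤ (N : ℝ) ^ κ := Real.one_le_rpow hNr hκ.le
  have hh'N : (h' : ℝ) ≤ N := (le_mul_of_one_le_right (Nat.cast_nonneg _) hκ1).trans c2'
  have hh'N' : h' ≤ N := by exact_mod_cast hh'N
  have hpowle : (N : ℝ) ^ (1 - κ / 16) ≤ N := by
    nth_rewrite 2 [← Real.rpow_one (N : ℝ)]
    exact Real.rpow_le_rpow_of_exponent_le hNr (by linarith)
  -- distribution at the grid point
  have hd := hdist (Ioc N (2 * N)) (fun n => W f h n / sg h) (fun k hk1 hk2 => by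
    have h1 := hgrid N hN1 h c1 f (fun k hk1 hk2 => by
      have h2 := hgood k hk1 hk2 2 (Or.inl rfl) j s (by rw [pow_succ] at hj2; omega) (by rw [← hh]; exact c1) (by rw [← hh]; exact c2)
      rw [← hh, show 2 * N - N = N by omega] at h2
      exact h2) k hk1 hk2
    rw [Nat.card_Ioc, show 2 * N - N = N by omega]
    exact h1)
  rw [Nat.card_Ioc, show 2 * N - N = N by omega] at hd
  -- the fourth moment
  have h1J : 1 < 2 * 2 ^ b := by
    have : 0 < 2 ^ b := by positivity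
    omega
  have h4 := hfour N hN2 f hf (fun r hr1 hr2 => by
    have h2 := hgood 4 (by norm_num) hK4 8 (Or.inr rfl) 1 r h1J (by push_cast; linarith) (by push_cast; linarith)
    rw [one_mul] at h2
    have h3 : gk 4 = 3 := by
      unfold gk
      rw [if_pos (by decide)]
      norm_num [Nat.doubleFactorial]
    have h6 : ((8 * N - N : ℕ) : ℝ) = 7 * N := by
      rw [show 8 * N - N = 7 * N by omega]
      push_cast
      ring
    rw [sqrt_pow_eq, h3, h6] at h2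
    exact h2.trans (mul_le_mul_of_nonneg_right (mul_le_mul_of_nonneg_left hpowle (hBf K)) (by positivity))) s c3 c4 g (N' + h) (2 * N' + h) hg (by omega) (by omega)
  have hsg0 : 0 < sg h := by
    have := sqrt_le_sg h
    have h3 : 0 < Real.sqrt h := Real.sqrt_pos.2 hh0
    linarith
  have hu : 0 < τ * sg h := by positivity
  have hcmp := compare f N N' h g hNN' (x * sg h') (τ * sg h) _ hu h4
  rw [← e1] at hcmp
  -- the exceptional set
  have hF : D * N * 4 ^ s / (τ * sg h) ^ 4 ≤ τ * N := by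
    rw [div_le_iff₀ (by positivity)]
    have a1 : (4 : ℝ) ^ s * (2 ^ b) ^ 2 ≤ (h : ℝ) ^ 2 := by
      calc (4 : ℝ) ^ s * (2 ^ b) ^ 2 = (2 ^ b * 2 ^ s) ^ 2 := by
            rw [show (4 : ℝ) = 2 ^ 2 by norm_num, ← pow_mul, mul_pow, ← pow_mul 2 s 2, mul_comm 2 s]
            ring
        _ ≤ (h : ℝ) ^ 2 := pow_le_pow_left₀ (by positivity) hJs 2
    have a2 : (h : ℝ) ^ 2 ≤ 16 * sg h ^ 4 := by
      have h5 := sqrt_le_sg h
      calc (h : ℝ) ^ 2 = Real.sqrt h ^ 4 := by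
            rw [show Real.sqrt h ^ 4 = (Real.sqrt h ^ 2) ^ 2 by ring, Real.sq_sqrt hh0.le]
        _ ≤ (2 * sg h) ^ 4 := pow_le_pow_left₀ (Real.sqrt_nonneg _) h5 4
        _ = _ := by ring
    have a3 : 16 * D ≤ τ ^ 5 * (2 ^ b) ^ 2 := by
      rw [div_le_iff₀ (by positivity)] at hJD
      linarith
    have a4 : 16 * D * 4 ^ s ≤ τ ^ 5 * (16 * sg h ^ 4) := by
      calc 16 * D * 4 ^ s ≤ τ ^ 5 * (2 ^ b) ^ 2 * 4 ^ s := mul_le_mul_of_nonneg_right a3 (by positivity)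
        _ = τ ^ 5 * (4 ^ s * (2 ^ b) ^ 2) := by ring
        _ ≤ τ ^ 5 * (16 * sg h ^ 4) := mul_le_mul_of_nonneg_left (a1.trans a2) (by positivity)
    have a5 : D * 4 ^ s ≤ τ ^ 5 * sg h ^ 4 := by linarith
    calc D * N * 4 ^ s = N * (D * 4 ^ s) := by ring
      _ ≤ N * (τ ^ 5 * sg h ^ 4) := mul_le_mul_of_nonneg_left a5 hN0.le
      _ = τ * N * (τ * sg h) ^ 4 := by ring
  have hNN : (N' - N : ℝ) ≤ τ * N := by
    have h5 : (N' - N : ℝ) * (2 ^ b) ≤ τ * N * 2 ^ b := by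
      have h6 := mul_le_mul_of_nonneg_right hJτ hN0.le
      linarith
    exact le_of_mul_le_mul_right h5 hJ0
  -- the scale
  obtain ⟨l, hl⟩ : ∃ l : ℝ, l = sg h' / sg h := ⟨_, rfl⟩
  have hl1 : 1 ≤ l := by
    rw [hl, one_le_div hsg0]
    unfold sg
    apply Real.sqrt_le_sqrt
    exact mul_le_mul_of_nonneg_left hhh' (by positivity)
  have hl2 : l - 1 ≤ τ := by
    have h5 : l ^ 2 ≤ 1 + 1 / 2 ^ b := by
      rw [hl, div_pow, sg_sq, sg_sq, mul_div_mul_left _ _ (by positivity : (6 / Real.pi ^ 2 : ℝ) ≠ 0), div_le_iff₀ hh0]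
      have h6 : (h' : ℝ) ≤ h * (2 ^ b + 1) / 2 ^ b := by
        rw [le_div_iff₀ hJ0]; exact hratio
      refine h6.trans (le_of_eq ?_)
      field_simp
    have h6 : 1 / 2 ^ b ≤ τ := by
      rw [div_le_iff₀ hJ0]; exact hJτ
    have h7 : l ≤ l ^ 2 := le_self_pow₀ hl1 two_ne_zero
    linarith
  have hls : l * sg h = sg h' := by rw [hl]; field_simp
  have hsc := Ph_scale l x hl1
  rw [abs_le] at hsc
  have hPx0 := Ph_nonneg x
  have hPx1 := Ph_le_one x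
  obtain ⟨hup, hlow⟩ := hcmp
  have hd1 := hd (l * x + τ)
  have hd2 := hd (l * x - τ)
  rw [abs_le] at hd1 hd2
  have e2 : (Ioc N (2 * N)).filter (fun n => W f h n ≤ x * sg h' + τ * sg h) =
      (Ioc N (2 * N)).filter (fun n => W f h n / sg h ≤ l * x + τ) := by
    rw [filter_div _ _ (sg h) _ hsg0]
    congr 1
    funext n
    congr 1
    rw [← hls]
    field_simp
  have e3 : (Ioc N (2 * N)).filter (fun n => W f h n ≤ x * sg h' - τ * sg h) =
      (Ioc N (2 * N)).filter (fun n => W f h n / sg h ≤ l * x - τ) := by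
    rw [filter_div _ _ (sg h) _ hsg0]
    congr 1
    funext n
    congr 1
    rw [← hls]
    field_simp
  rw [e2] at hup
  rw [e3] at hlow
  have p1 : Ph (l * x + τ) ≤ Ph x + 2 * τ := by
    have := Ph_lip (show l * x ≤ l * x + τ by linarith)
    linarith
  have p2 : Ph x - 2 * τ ≤ Ph (l * x - τ) := by
    have := Ph_lip (show l * x - τ ≤ l * x by linarith)
    linarith
  have q1 : (N : ℝ) * Ph (l * x + τ) ≤ N * Ph x + 2 * τ * N := by
    have := mul_le_mul_of_nonneg_left p1 hN0.le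
    linarith
  have q2 : (N : ℝ) * Ph x - 2 * τ * N ≤ N * Ph (l * x - τ) := by
    have := mul_le_mul_of_nonneg_left p2 hN0.le
    linarith
  have q3 : (N : ℝ) * Ph x ≤ N' * Ph x := mul_le_mul_of_nonneg_right hN'r hPx0
  have q4 : (N' : ℝ) * Ph x ≤ N * Ph x + τ * N := by
    have h5 : (N' - N : ℝ) * Ph x ≤ (N' - N : ℝ) := mul_le_of_le_one_right (by linarith) hPx1
    linarith
  have q5 : τ * N ≤ τ * N' := mul_le_mul_of_nonneg_left hN'r hτ.le
  rw [abs_le]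
  constructor
  · linarith [hd2.1]
  · linarith [hd1.2]


end Pool.Agent.K4H49.GT
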