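import Pool.Agent.K4H49.GT.MomU

/-!
# Averages over a family of multiplicative functions
-/

set_option autoImplicit false

namespace Pool.Agent.K4H49.GT

open Finset MeasureTheory
open Pool.Agent.K4H14.GC

/-- a probability space of completely multiplicative functions, unimodular up to `M` and almost orthogonal up to `D` -/
structure Fam {Ω : Type} [MeasurableSpace Ω] (P : Measure Ω) (χ : Ω → ℕ → ℂ) (M D : ℕ) (δ : ℝ) : Prop where
  meas : ∀ n, Measurable (fun ω => χ ω n)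
  mul : ∀ ω a b, χ ω (a * b) = χ ω a * χ ω b
  one : ∀ ω, χ ω 1 = 1
  norm1 : ∀ ω n, 1 ≤ n → n ≤ M → ‖χ ω n‖ = 1
  bd : ∀ ω n, ‖χ ω n‖ ≤ 1
  orth : ∀ x y, 1 ≤ x → 1 ≤ y → x ≤ D → y ≤ D → x ≠ y → ‖∫ ω, χ ω x * starRingEnd ℂ (χ ω y) ∂P‖ ≤ δ

/-- unimodular on the squarefree numbers, zero on the other ones -/
def SFC (g : ℕ → ℂ) : Prop := ∀ n, (Squarefree n → ‖g n‖ = 1) ∧ (¬ Squarefree n → g n = 0)

/-- the twisted function -/
noncomputable def tc {Ω : Type} (g : ℕ → ℂ) (χ : Ω → ℕ → ℂ) (ω : Ω) (n : ℕ) : ℂ := g n * χ ω n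

theorem SFC_le {g : ℕ → ℂ} (hg : SFC g) (n : ℕ) : ‖g n‖ ≤ 1 := by
  by_cases hn : Squarefree n
  · exact ((hg n).1 hn).le
  · rw [(hg n).2 hn, norm_zero]
    exact zero_le_one

section

variable {Ω : Type} [MeasurableSpace Ω] {P : Measure Ω} {χ : Ω → ℕ → ℂ} {M D : ℕ} {δ : ℝ}

theorem tc_le (hF : Fam P χ M D δ) {g : ℕ → ℂ} (hg : SFC g) (ω : Ω) (n : ℕ) : ‖tc g χ ω n‖ ≤ 1 := by
  unfold tc
  rw [norm_mul]
  exact mul_le_one₀ (SFC_le hg n) (norm_nonneg _) (hF.bd ω n)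

theorem tc_crad (hF : Fam P χ M D δ) {g : ℕ → ℂ} (hg : SFC g) (ω : Ω) (Y : ℕ) (hY : Y ≤ M) : CRad (tc g χ ω) Y := by
  intro m hm1 hm2
  refine ⟨fun h => ?_, fun h => ?_⟩
  · unfold tc
    rw [norm_mul, (hg m).1 h, hF.norm1 ω m hm1 (hm2.trans hY), one_mul]
  · unfold tc
    rw [(hg m).2 h, zero_mul]

theorem Fam.prod (hF : Fam P χ M D δ) (ω : Ω) {ι : Type} (S : Finset ι) (t : ι → ℕ) :
    χ ω (∏ i ∈ S, t i) = ∏ i ∈ S, χ ω (t i) := by
  classical
  induction S using Finset.induction_on with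
  | empty => simp [hF.one]
  | insert x S hx ih => rw [prod_insert hx, prod_insert hx, hF.mul, ih]

theorem avg_sq [IsProbabilityMeasure P] (hF : Fam P χ M D δ) (hδ : 0 ≤ δ) {ι : Type} (S : Finset ι) (c : ι → ℝ) (hc : ∀ t, 0 ≤ c t)
    (a : ι → ℂ) (ha : ∀ t ∈ S, ‖a t‖ ≤ 1) (x y : ι → ℕ) (hx : ∀ t ∈ S, 1 ≤ x t) (hy : ∀ t ∈ S, 1 ≤ y t)
    (hD : ∀ t ∈ S, ∀ t' ∈ S, x t * y t' ≤ D) :
    Integrable (fun ω => ‖∑ t ∈ S, (c t : ℂ) * (a t * (χ ω (x t) * starRingEnd ℂ (χ ω (y t))))‖ ^ 2) P ∧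
    ∫ ω, ‖∑ t ∈ S, (c t : ℂ) * (a t * (χ ω (x t) * starRingEnd ℂ (χ ω (y t))))‖ ^ 2 ∂P ≤
      ∑ t ∈ S, ∑ t' ∈ S, c t * c t' * ((if x t * y t' = y t * x t' then 1 else 0) + δ) := by
  classical
  obtain ⟨Z, hZ⟩ : ∃ Z : Ω → ℂ, Z = fun ω => ∑ t ∈ S, (c t : ℂ) * (a t * (χ ω (x t) * starRingEnd ℂ (χ ω (y t)))) := ⟨_, rfl⟩
  have hconj : Measurable (fun z : ℂ => starRingEnd ℂ z) := Complex.continuous_conj.measurable
  have hm : Measurable Z := by
    rw [hZ]
    apply Finset.measurable_fun_sum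
    intro t _
    apply Measurable.const_mul
    apply Measurable.const_mul
    exact (hF.meas _).mul (hconj.comp (hF.meas _))
  have hZb : ∀ ω, ‖Z ω‖ ≤ ∑ t ∈ S, c t := by
    intro ω
    rw [hZ]
    refine (norm_sum_le _ _).trans (sum_le_sum fun t ht => ?_)
    rw [norm_mul, norm_mul, norm_mul, Complex.norm_real, Real.norm_eq_abs, abs_of_nonneg (hc t), RCLike.norm_conj]
    calc c t * (‖a t‖ * (‖χ ω (x t)‖ * ‖χ ω (y t)‖)) ≤ c t * (1 * (1 * 1)) := by
          apply mul_le_mul_of_nonneg_left _ (hc t)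
          apply mul_le_mul (ha t ht) _ (by positivity) (by norm_num)
          exact mul_le_mul (hF.bd _ _) (hF.bd _ _) (norm_nonneg _) (by norm_num)
      _ = c t := by ring
  have hint : Integrable (fun ω => ‖Z ω‖ ^ 2) P := by
    apply Integrable.of_bound (hm.norm.pow_const 2).aestronglyMeasurable ((∑ t ∈ S, c t) ^ 2)
    refine Filter.Eventually.of_forall fun ω => ?_
    rw [Real.norm_eq_abs, abs_of_nonneg (by positivity)]
    exact pow_le_pow_left₀ (norm_nonneg _) (hZb ω) 2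
  have hZ' : (fun ω => ‖∑ t ∈ S, (c t : ℂ) * (a t * (χ ω (x t) * starRingEnd ℂ (χ ω (y t))))‖ ^ 2) = fun ω => ‖Z ω‖ ^ 2 := by
    rw [hZ]
  rw [hZ']
  refine ⟨hint, ?_⟩
  have h1 : ∀ ω, ((‖Z ω‖ ^ 2 : ℝ) : ℂ) = ∑ t ∈ S, ∑ t' ∈ S, ((c t * c t' : ℝ) * (a t * starRingEnd ℂ (a t'))) *
      (χ ω (x t * y t') * starRingEnd ℂ (χ ω (y t * x t'))) := by
    intro ω
    rw [← Complex.normSq_eq_norm_sq, ← Complex.mul_conj, hZ]
    simp only
    rw [map_sum, sum_mul_sum]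
    apply sum_congr rfl
    intro t _
    apply sum_congr rfl
    intro t' _
    rw [hF.mul, hF.mul]
    simp only [map_mul, Complex.conj_conj, Complex.conj_ofReal]
    push_cast
    ring
  have hint2 : ∀ m n : ℕ, Integrable (fun ω => χ ω m * starRingEnd ℂ (χ ω n)) P := by
    intro m n
    apply Integrable.of_bound ((hF.meas m).mul (hconj.comp (hF.meas n))).aestronglyMeasurable 1
    refine Filter.Eventually.of_forall fun ω => ?_
    change ‖χ ω m * starRingEnd ℂ (χ ω n)‖ ≤ 1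
    rw [norm_mul, RCLike.norm_conj]
    exact mul_le_one₀ (hF.bd _ _) (norm_nonneg _) (hF.bd _ _)
  have h2 : ((∫ ω, ‖Z ω‖ ^ 2 ∂P : ℝ) : ℂ) = ∑ t ∈ S, ∑ t' ∈ S, ((c t * c t' : ℝ) * (a t * starRingEnd ℂ (a t'))) *
      ∫ ω, χ ω (x t * y t') * starRingEnd ℂ (χ ω (y t * x t')) ∂P := by
    rw [← integral_complex_ofReal]
    rw [integral_congr_ae (Filter.Eventually.of_forall h1)]
    rw [integral_finsetSum _ (fun t _ => integrable_finsetSum _ fun t' _ => (hint2 _ _).const_mul _)]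
    apply sum_congr rfl
    intro t _
    rw [integral_finsetSum _ (fun t' _ => (hint2 _ _).const_mul _)]
    apply sum_congr rfl
    intro t' _
    rw [integral_const_mul]
  have h3 : ∫ ω, ‖Z ω‖ ^ 2 ∂P ≤ ‖((∫ ω, ‖Z ω‖ ^ 2 ∂P : ℝ) : ℂ)‖ := by
    rw [Complex.norm_real]
    exact le_abs_self _
  refine h3.trans ?_
  rw [h2]
  refine (norm_sum_le _ _).trans (sum_le_sum fun t ht => (norm_sum_le _ _).trans (sum_le_sum fun t' ht' => ?_))
  rw [norm_mul, norm_mul, norm_mul, Complex.norm_real, Real.norm_eq_abs, abs_of_nonneg (mul_nonneg (hc t) (hc t')), RCLike.norm_conj]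
  have h4 : ‖∫ ω, χ ω (x t * y t') * starRingEnd ℂ (χ ω (y t * x t')) ∂P‖ ≤ (if x t * y t' = y t * x t' then 1 else 0) + δ := by
    split_ifs with heq
    · have h5 : ‖∫ ω, χ ω (x t * y t') * starRingEnd ℂ (χ ω (y t * x t')) ∂P‖ ≤ 1 := by
        have := norm_integral_le_of_norm_le_const (μ := P) (f := fun ω => χ ω (x t * y t') * starRingEnd ℂ (χ ω (y t * x t'))) (C := 1)
          (Filter.Eventually.of_forall fun ω => by
            rw [norm_mul, RCLike.norm_conj]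
            exact mul_le_one₀ (hF.bd _ _) (norm_nonneg _) (hF.bd _ _))
        simpa using this
      linarith
    · rw [zero_add]
      apply hF.orth _ _ _ _ (hD t ht t' ht') _ heq
      · exact Nat.mul_pos (hx t ht) (hy t' ht')
      · exact Nat.mul_pos (hy t ht) (hx t' ht')
      · rw [mul_comm]
        exact hD t' ht' t ht
  calc c t * c t' * (‖a t‖ * ‖a t'‖) * ‖∫ ω, χ ω (x t * y t') * starRingEnd ℂ (χ ω (y t * x t')) ∂P‖ ≤
      c t * c t' * 1 * ((if x t * y t' = y t * x t' then 1 else 0) + δ) := by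
        apply mul_le_mul _ h4 (norm_nonneg _) (by have := mul_nonneg (hc t) (hc t'); linarith)
        apply mul_le_mul_of_nonneg_left _ (mul_nonneg (hc t) (hc t'))
        exact mul_le_one₀ (ha t ht) (norm_nonneg _) (ha t' ht')
    _ = _ := by ring

theorem markov [IsProbabilityMeasure P] (Ψ : Ω → ℝ) (h0 : ∀ ω, 0 ≤ Ψ ω) (hint : Integrable Ψ P) (T V : ℝ) (hT : 0 < T)
    (hV : ∫ ω, Ψ ω ∂P ≤ V) : P.real {ω | ¬ Ψ ω ≤ T} ≤ V / T := by
  have h1 := mul_meas_ge_le_integral_of_nonneg (μ := P) (f := Ψ) (Filter.Eventually.of_forall h0) hint T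
  have h2 : P.real {ω | ¬ Ψ ω ≤ T} ≤ P.real {ω | T ≤ Ψ ω} := by
    apply measureReal_mono _ (measure_ne_top _ _)
    intro ω hω
    exact (not_le.1 hω).le
  rw [le_div_iff₀ hT]
  nlinarith

/-- the pairs of tuples with a square total product -/
theorem pairs_le_OT (N R h k : ℕ) (hk : 1 ≤ k) :
    open Classical in ∑ t ∈ OT N R h k, ∑ t' ∈ OT N R h k, (if IsSquare ((∏ i, t i) * ∏ i, t' i) then (cw N R h t : ℝ) * cw N R h t' else 0) ≤
      (h : ℝ) ^ 2 * (Bad N h (R * N + h) (Sum.elim (fun _ : Fin k => 0) (fun _ : Fin k => 1))).card := by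
  classical
  have h1 : ∀ t ∈ OT N R h k, ∀ t' ∈ OT N R h k,
      (if IsSquare ((∏ i, t i) * ∏ i, t' i) then (cw N R h t : ℝ) * cw N R h t' else 0) ≤
        (h : ℝ) ^ 2 * (if IsSquare ((∏ i, t i) * ∏ i, t' i) then 1 else 0) := by
    intro t _ t' _
    split_ifs
    · rw [mul_one, sq]
      have a : (cw N R h t : ℝ) ≤ h := by exact_mod_cast cw_le N R h hk t
      have b : (cw N R h t' : ℝ) ≤ h := by exact_mod_cast cw_le N R h hk t'
      exact mul_le_mul a b (Nat.cast_nonneg _) (Nat.cast_nonneg _)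
    · rw [mul_zero]
  have h2 : ∑ t ∈ OT N R h k, ∑ t' ∈ OT N R h k, (h : ℝ) ^ 2 * (if IsSquare ((∏ i, t i) * ∏ i, t' i) then (1 : ℝ) else 0) =
      (h : ℝ) ^ 2 * ((((OT N R h k) ×ˢ (OT N R h k)).filter (fun x => IsSquare ((∏ i, x.1 i) * ∏ i, x.2 i))).card : ℝ) := by
    rw [card_filter, sum_product]
    push_cast
    rw [mul_sum]
    apply sum_congr rfl
    intro t _
    rw [mul_sum]
  have h3 : (((OT N R h k) ×ˢ (OT N R h k)).filter (fun x => IsSquare ((∏ i, x.1 i) * ∏ i, x.2 i))).card ≤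
      (Bad N h (R * N + h) (Sum.elim (fun _ : Fin k => 0) (fun _ : Fin k => 1))).card := by
    apply card_le_card_of_injOn (fun x => Sum.elim x.1 x.2)
    · intro x hx
      rw [mem_coe, mem_filter, mem_product, mem_OT, mem_OT] at hx
      obtain ⟨⟨⟨a1, a2, a3, a4⟩, ⟨b1, b2, b3, b4⟩⟩, hsq⟩ := hx
      rw [mem_coe, mem_Bad]
      refine ⟨?_, ?_, ?_, ?_, ?_⟩
      · rintro (i | i)
        · exact a1 i
        · exact b1 i
      · rintro (i | i) (j | j) hij
        · exact a2 i j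
        · simp at hij
        · simp at hij
        · exact b2 i j
      · rintro (i | i)
        · exact a3 i
        · exact b3 i
      · rw [Fintype.prod_sum_type]
        exact hsq
      · unfold Prd at a4 b4
        push Not at a4 b4
        rintro (i | i)
        · obtain ⟨v, hv⟩ := a4
          rw [Nat.not_even_iff_odd] at hv
          refine ⟨v, ?_⟩
          have : univ.filter (fun j : Fin k ⊕ Fin k => Sum.elim (fun _ : Fin k => 0) (fun _ : Fin k => 1) j =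
              Sum.elim (fun _ : Fin k => 0) (fun _ : Fin k => 1) (Sum.inl i) ∧ Sum.elim x.1 x.2 j = v) =
              (univ.filter (fun j => x.1 j = v)).map Function.Embedding.inl := by
            ext j
            rcases j with j | j
            · simp
            · simp
          rw [this, card_map]
          exact hv
        · obtain ⟨v, hv⟩ := b4
          rw [Nat.not_even_iff_odd] at hv
          refine ⟨v, ?_⟩
          have : univ.filter (fun j : Fin k ⊕ Fin k => Sum.elim (fun _ : Fin k => 0) (fun _ : Fin k => 1) j =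
              Sum.elim (fun _ : Fin k => 0) (fun _ : Fin k => 1) (Sum.inr i) ∧ Sum.elim x.1 x.2 j = v) =
              (univ.filter (fun j => x.2 j = v)).map Function.Embedding.inr := by
            ext j
            rcases j with j | j
            · simp
            · simp
          rw [this, card_map]
          exact hv
    · intro x _ y _ hxy
      simp only at hxy
      apply Prod.ext
      · funext i
        exact congrFun hxy (Sum.inl i)
      · funext i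
        exact congrFun hxy (Sum.inr i)
  calc ∑ t ∈ OT N R h k, ∑ t' ∈ OT N R h k, (if IsSquare ((∏ i, t i) * ∏ i, t' i) then (cw N R h t : ℝ) * cw N R h t' else 0) ≤
      ∑ t ∈ OT N R h k, ∑ t' ∈ OT N R h k, (h : ℝ) ^ 2 * (if IsSquare ((∏ i, t i) * ∏ i, t' i) then (1 : ℝ) else 0) :=
        sum_le_sum fun t ht => sum_le_sum fun t' ht' => h1 t ht t' ht'
    _ = _ := h2
    _ ≤ _ := by
        apply mul_le_mul_of_nonneg_left _ (by positivity)
        exact_mod_cast h3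

/-- the second moment of the remaining part, in terms of the correlations -/
theorem pairs_bound_OT (k R : ℕ) (hk : 1 ≤ k) (hR : 1 ≤ R) (κ : ℝ) (hκ : 0 < κ) (hκk : κ * (2 * k) ≤ 1) :
    ∃ C : ℝ, 0 ≤ C ∧ ∀ N h : ℕ, 1 ≤ N → (N : ℝ) ^ κ ≤ h → (h : ℝ) * (N : ℝ) ^ κ ≤ N →
      open Classical in ∑ t ∈ OT N R h k, ∑ t' ∈ OT N R h k,
        (if IsSquare ((∏ i, t i) * ∏ i, t' i) then (cw N R h t : ℝ) * cw N R h t' else 0) ≤
        C * (N : ℝ) ^ (2 - κ / 4) * (Real.sqrt h ^ k) ^ 2 := by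
  classical
  have : Nonempty (Fin k ⊕ Fin k) := ⟨Sum.inl ⟨0, hk⟩⟩
  obtain ⟨C₂, hC₂, h2⟩ := bad_count (Fin k ⊕ Fin k) (R + 1) (by omega) κ hκ (by
    rw [Fintype.card_sum, Fintype.card_fin]
    refine le_trans (le_of_eq ?_) hκk
    push_cast
    ring)
  refine ⟨C₂, hC₂, ?_⟩
  intro N h hN hNh hhN
  have hNr : (1 : ℝ) ≤ N := by exact_mod_cast hN
  have hN0 : (0 : ℝ) < N := by linarith
  have hs1 : (1 : ℝ) ≤ (N : ℝ) ^ κ := Real.one_le_rpow hNr hκ.le
  have hh1 : (1 : ℝ) ≤ h := hs1.trans hNh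
  have hh1' : 1 ≤ h := by exact_mod_cast hh1
  have hh0 : (0 : ℝ) < h := by linarith
  have hhN' : h ≤ N := by
    have h2 : (h : ℝ) ≤ N := by nlinarith
    exact_mod_cast h2
  have h3 := pairs_le_OT N R h k hk
  refine le_trans (le_of_eq ?_) (h3.trans ?_)
  · congr!
  have h4 := h2 N h (R * N + h) (Sum.elim (fun _ : Fin k => 0) (fun _ : Fin k => 1)) hN hNh hhN (by omega) (by nlinarith)
  rw [Fintype.card_sum, Fintype.card_fin] at h4
  have h5 : (univ.image (Sum.elim (fun _ : Fin k => 0) (fun _ : Fin k => 1))).card ≤ 2 := by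
    have : univ.image (Sum.elim (fun _ : Fin k => 0) (fun _ : Fin k => 1)) ⊆ ({0, 1} : Finset ℕ) := by
      intro x hx
      obtain ⟨i, _, rfl⟩ := mem_image.1 hx
      rcases i with i | i <;> simp
    refine (card_le_card this).trans ?_
    simp
  have hNh1 : (1 : ℝ) ≤ N / h := by
    rw [one_le_div hh0]
    exact_mod_cast hhN'
  calc (h : ℝ) ^ 2 * (Bad N h (R * N + h) (Sum.elim (fun _ : Fin k => 0) (fun _ : Fin k => 1))).card ≤
      (h : ℝ) ^ 2 * (C₂ * (N : ℝ) ^ (-(κ / 4)) * (Real.sqrt h ^ (k + k) * ((N : ℝ) / h) ^ 2)) := by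
        apply mul_le_mul_of_nonneg_left _ (by positivity)
        refine h4.trans ?_
        apply mul_le_mul_of_nonneg_left _ (by positivity)
        apply mul_le_mul_of_nonneg_left _ (by positivity)
        exact pow_le_pow_right₀ hNh1 h5
    _ = C₂ * ((N : ℝ) ^ (-(κ / 4)) * (N : ℝ) ^ (2 : ℕ)) * (Real.sqrt h ^ k) ^ 2 := by
        rw [← pow_mul, mul_two, div_pow]
        field_simp
    _ = _ := by
        congr 2
        rw [← Real.rpow_natCast (N : ℝ) 2, ← Real.rpow_add hN0]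
        congr 1
        push_cast
        ring

theorem SE_eq (hF : Fam P χ M D δ) (g : ℕ → ℂ) (ω : Ω) (N R h k : ℕ) (e : Fin k → Bool) :
    SE (tc g χ ω) N R h k e = ∑ t ∈ OT N R h k, ((cw N R h t : ℝ) : ℂ) * ((∏ i, cj (e i) (g (t i))) *
      (χ ω (∏ i, if e i then 1 else t i) * starRingEnd ℂ (χ ω (∏ i, if e i then t i else 1)))) := by
  unfold SE
  apply sum_congr rfl
  intro t _
  rw [Complex.ofReal_natCast]
  congr 1
  rw [hF.prod, hF.prod, map_prod, ← prod_mul_distrib, ← prod_mul_distrib]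
  apply prod_congr rfl
  intro i _
  unfold tc
  rw [cj_mul]
  congr 1
  unfold cj
  split_ifs
  · rw [hF.one, one_mul]
  · rw [hF.one, map_one, mul_one]

theorem SE_avg [IsProbabilityMeasure P] (k R : ℕ) (hk : 1 ≤ k) (hR : 1 ≤ R) (hR8 : R ≤ 8) (κ : ℝ) (hκ : 0 < κ) (hκk : κ * (2 * k) ≤ 1) :
    ∃ C : ℝ, 0 ≤ C ∧ ∀ {Ω : Type} [MeasurableSpace Ω] {P : Measure Ω} [IsProbabilityMeasure P] {χ : Ω → ℕ → ℂ} {M D : ℕ} {δ : ℝ},
      Fam P χ M D δ → 0 ≤ δ → ∀ g : ℕ → ℂ, SFC g → ∀ N h : ℕ, 1 ≤ N → (N : ℝ) ^ κ ≤ h → (h : ℝ) * (N : ℝ) ^ κ ≤ N →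
      (9 * N) ^ (2 * k) ≤ D → δ * (9 * (N : ℝ)) ^ (2 * k + 2) ≤ 1 → ∀ e : Fin k → Bool,
      P.real {ω | ¬ ‖SE (tc g χ ω) N R h k e‖ ≤ (N : ℝ) ^ (1 - κ / 16) * Real.sqrt h ^ k} ≤ C * (N : ℝ) ^ (-(κ / 8)) := by
  classical
  obtain ⟨C, hC, h1⟩ := pairs_bound_OT k R hk hR κ hκ hκk
  refine ⟨C + 1, by linarith, ?_⟩
  intro Ω _ P _ χ M D δ hF hδ g hg N h hN hNh hhN hD hδN e
  have hNr : (1 : ℝ) ≤ N := by exact_mod_cast hN
  have hN0 : (0 : ℝ) < N := by linarith
  have hs1 : (1 : ℝ) ≤ (N : ℝ) ^ κ := Real.one_le_rpow hNr hκ.le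
  have hh1 : (1 : ℝ) ≤ h := hs1.trans hNh
  have hh1' : 1 ≤ h := by exact_mod_cast hh1
  have hh0 : (0 : ℝ) < h := by linarith
  have hhN' : h ≤ N := by
    have h2 : (h : ℝ) ≤ N := by nlinarith
    exact_mod_cast h2
  have hsq1 : (1 : ℝ) ≤ Real.sqrt h := Real.one_le_sqrt.2 hh1
  have hRN : R * N + h ≤ 9 * N := by
    have : R * N ≤ 8 * N := Nat.mul_le_mul_right _ hR8
    omega
  have hκ1 : κ ≤ 1 := by
    have hkr : (1 : ℝ) ≤ k := by exact_mod_cast hk
    nlinarith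
  obtain ⟨V, hV⟩ : ∃ V : ℝ, V = (N : ℝ) ^ (2 - κ / 4) * (Real.sqrt h ^ k) ^ 2 := ⟨_, rfl⟩
  have hV1 : 1 ≤ V := by
    rw [hV]
    have a1 : (1 : ℝ) ≤ (N : ℝ) ^ (2 - κ / 4) := Real.one_le_rpow hNr (by linarith)
    have a2 : (1 : ℝ) ≤ (Real.sqrt h ^ k) ^ 2 := one_le_pow₀ (one_le_pow₀ hsq1)
    nlinarith
  obtain ⟨T, hT⟩ : ∃ T : ℝ, T = (N : ℝ) ^ (1 - κ / 16) * Real.sqrt h ^ k := ⟨_, rfl⟩
  have hT0 : 0 < T := by rw [hT]; positivity
  -- the tuples
  have htb : ∀ t ∈ OT N R h k, ∀ i, 1 ≤ t i ∧ t i ≤ 9 * N := by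
    intro t ht i
    rw [mem_OT] at ht
    have := ht.1 i
    omega
  obtain ⟨x, hx⟩ : ∃ x : (Fin k → ℕ) → ℕ, x = fun t => ∏ i, if e i then 1 else t i := ⟨_, rfl⟩
  obtain ⟨y, hy⟩ : ∃ y : (Fin k → ℕ) → ℕ, y = fun t => ∏ i, if e i then t i else 1 := ⟨_, rfl⟩
  have hx1 : ∀ t ∈ OT N R h k, 1 ≤ x t ∧ x t ≤ (9 * N) ^ k := by
    intro t ht
    rw [hx]
    constructor
    · apply Finset.one_le_prod'
      intro i _
      split_ifs
      · exact le_rfl
      · exact (htb t ht i).1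
    · calc ∏ i, (if e i then 1 else t i) ≤ ∏ _i : Fin k, 9 * N := by
            apply prod_le_prod'
            intro i _
            split_ifs
            · omega
            · exact (htb t ht i).2
        _ = _ := by rw [prod_const, card_univ, Fintype.card_fin]
  have hy1 : ∀ t ∈ OT N R h k, 1 ≤ y t ∧ y t ≤ (9 * N) ^ k := by
    intro t ht
    rw [hy]
    constructor
    · apply Finset.one_le_prod'
      intro i _
      split_ifs
      · exact (htb t ht i).1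
      · exact le_rfl
    · calc ∏ i, (if e i then t i else 1) ≤ ∏ _i : Fin k, 9 * N := by
            apply prod_le_prod'
            intro i _
            split_ifs
            · exact (htb t ht i).2
            · omega
        _ = _ := by rw [prod_const, card_univ, Fintype.card_fin]
  have hxy : ∀ t, ∏ i, t i = x t * y t := by
    intro t
    rw [hx, hy]
    simp only
    rw [← prod_mul_distrib]
    apply prod_congr rfl
    intro i _
    split_ifs
    · rw [one_mul]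
    · rw [mul_one]
  have havg := avg_sq hF hδ (OT N R h k) (fun t => (cw N R h t : ℝ)) (fun t => Nat.cast_nonneg _)
    (fun t => ∏ i, cj (e i) (g (t i))) (fun t _ => by
      rw [norm_prod]
      apply prod_le_one (fun i _ => norm_nonneg _)
      intro i _
      rw [cj_norm]
      exact SFC_le hg _) x y (fun t ht => (hx1 t ht).1) (fun t ht => (hy1 t ht).1) (fun t ht t' ht' => by
        refine le_trans ?_ hD
        rw [two_mul, pow_add]
        exact Nat.mul_le_mul (hx1 t ht).2 (hy1 t' ht').2)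
  have heq : (fun ω => ‖∑ t ∈ OT N R h k, ((cw N R h t : ℝ) : ℂ) * ((∏ i, cj (e i) (g (t i))) *
      (χ ω (x t) * starRingEnd ℂ (χ ω (y t))))‖ ^ 2) = fun ω => ‖SE (tc g χ ω) N R h k e‖ ^ 2 := by
    funext ω
    rw [SE_eq hF g ω N R h k e, hx, hy]
  rw [heq] at havg
  -- the bound for the mean
  have hcard : ∑ t ∈ OT N R h k, (cw N R h t : ℝ) ≤ (9 * (N : ℝ)) ^ (k + 1) := by
    calc ∑ t ∈ OT N R h k, (cw N R h t : ℝ) ≤ ∑ _t ∈ OT N R h k, (h : ℝ) := by
          apply sum_le_sum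
          intro t _
          exact_mod_cast cw_le N R h hk t
      _ = ((OT N R h k).card : ℝ) * h := by rw [sum_const, nsmul_eq_mul]
      _ ≤ (9 * (N : ℝ)) ^ k * (9 * (N : ℝ)) := by
          apply mul_le_mul _ _ hh0.le (by positivity)
          · have h2 : (OT N R h k).card ≤ (9 * N) ^ k := by
              unfold OT
              refine (card_filter_le _ _).trans ?_
              rw [Fintype.card_piFinset]
              simp only [Nat.card_Ioc, prod_const, card_univ, Fintype.card_fin]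
              exact Nat.pow_le_pow_left (by omega) _
            exact_mod_cast h2
          · have : (h : ℝ) ≤ N := by exact_mod_cast hhN'
            linarith
      _ = _ := by rw [pow_succ]
  have hcard0 : 0 ≤ ∑ t ∈ OT N R h k, (cw N R h t : ℝ) := sum_nonneg fun _ _ => Nat.cast_nonneg _
  have hmean : ∫ ω, ‖SE (tc g χ ω) N R h k e‖ ^ 2 ∂P ≤ (C + 1) * V := by
    refine havg.2.trans ?_
    have h2 : ∑ t ∈ OT N R h k, ∑ t' ∈ OT N R h k, (cw N R h t : ℝ) * (cw N R h t' : ℝ) * ((if x t * y t' = y t * x t' then 1 else 0) + δ) ≤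
        ∑ t ∈ OT N R h k, ∑ t' ∈ OT N R h k, (if IsSquare ((∏ i, t i) * ∏ i, t' i) then (cw N R h t : ℝ) * cw N R h t' else 0) +
        δ * ((∑ t ∈ OT N R h k, (cw N R h t : ℝ)) * (∑ t ∈ OT N R h k, (cw N R h t : ℝ))) := by
      rw [sum_mul_sum, mul_sum, ← sum_add_distrib]
      apply sum_le_sum
      intro t _
      rw [mul_sum, ← sum_add_distrib]
      apply sum_le_sum
      intro t' _
      have hcc : (0 : ℝ) ≤ (cw N R h t : ℝ) * (cw N R h t' : ℝ) := mul_nonneg (Nat.cast_nonneg _) (Nat.cast_nonneg _)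
      by_cases hq : x t * y t' = y t * x t'
      · have hsq : IsSquare ((∏ i, t i) * ∏ i, t' i) := by
          refine ⟨x t * y t', ?_⟩
          rw [hxy, hxy]
          calc x t * y t * (x t' * y t') = (x t * y t') * (y t * x t') := by ring
            _ = _ := by rw [← hq]
        rw [if_pos hq, if_pos hsq]
        apply le_of_eq
        ring
      · rw [if_neg hq]
        split_ifs
        · nlinarith
        · apply le_of_eq
          ring
    refine h2.trans ?_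
    have h3 := h1 N h hN hNh hhN
    have h4 : δ * ((∑ t ∈ OT N R h k, (cw N R h t : ℝ)) * (∑ t ∈ OT N R h k, (cw N R h t : ℝ))) ≤ 1 := by
      calc δ * ((∑ t ∈ OT N R h k, (cw N R h t : ℝ)) * (∑ t ∈ OT N R h k, (cw N R h t : ℝ))) ≤
          δ * ((9 * (N : ℝ)) ^ (k + 1) * (9 * (N : ℝ)) ^ (k + 1)) := by
            apply mul_le_mul_of_nonneg_left _ hδ
            exact mul_le_mul hcard hcard hcard0 (by positivity)
        _ = δ * (9 * (N : ℝ)) ^ (2 * k + 2) := by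
            rw [← pow_add]
            congr 2
            ring
        _ ≤ 1 := hδN
    have h5 : C * (N : ℝ) ^ (2 - κ / 4) * (Real.sqrt h ^ k) ^ 2 = C * V := by rw [hV]; ring
    rw [h5] at h3
    have h6 : (C + 1) * V = C * V + V := by ring
    rw [h6]
    exact add_le_add h3 (h4.trans hV1)
  have hmk := markov (fun ω => ‖SE (tc g χ ω) N R h k e‖ ^ 2) (fun ω => by positivity) havg.1 (T ^ 2) ((C + 1) * V) (by positivity) hmean
  have hsub : {ω | ¬ ‖SE (tc g χ ω) N R h k e‖ ≤ (N : ℝ) ^ (1 - κ / 16) * Real.sqrt h ^ k} ⊆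
      {ω | ¬ ‖SE (tc g χ ω) N R h k e‖ ^ 2 ≤ T ^ 2} := by
    intro ω hω hcon
    apply hω
    rw [← hT]
    exact le_of_sq_le_sq hcon hT0.le
  refine (measureReal_mono hsub (measure_ne_top _ _)).trans (hmk.trans (le_of_eq ?_))
  have h6 : T ^ 2 = (N : ℝ) ^ (2 - κ / 8) * (Real.sqrt h ^ k) ^ 2 := by
    rw [hT, mul_pow, ← Real.rpow_natCast ((N : ℝ) ^ (1 - κ / 16)) 2, ← Real.rpow_mul hN0.le]
    congr 2
    push_cast
    ring
  have h8 : (N : ℝ) ^ (2 - κ / 4) = (N : ℝ) ^ (2 - κ / 8) * (N : ℝ) ^ (-(κ / 8)) := by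
    rw [← Real.rpow_add hN0]
    congr 1
    ring
  have hne : (N : ℝ) ^ (2 - κ / 8) ≠ 0 := by positivity
  have hne2 : (Real.sqrt h ^ k) ^ 2 ≠ 0 := by positivity
  rw [h6, hV, h8]
  field_simp

theorem QQ_avg {Ω : Type} [MeasurableSpace Ω] {P : Measure Ω} [IsProbabilityMeasure P] {χ : Ω → ℕ → ℂ} {M D : ℕ} {δ : ℝ}
    (hF : Fam P χ M D δ) (hδ : 0 ≤ δ) (g : ℕ → ℂ) (hg : SFC g) (R : ℕ) (hR8 : R ≤ 8) (κ : ℝ) (hκ : 0 < κ) (N h : ℕ)
    (hN : 1 ≤ N) (hNh : (N : ℝ) ^ κ ≤ h) (hhN : (h : ℝ) * (N : ℝ) ^ κ ≤ N) (hD : (9 * N) ^ 2 ≤ D) (hδN : δ * (9 * (N : ℝ)) ^ 2 ≤ 1) :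
    P.real {ω | ¬ ∑ n ∈ Ioc N (R * N), ‖QQc (tc g χ ω) h n‖ ^ 2 ≤ (h : ℝ) ^ 2 * (N : ℝ) ^ (1 - κ / 8)} ≤ 16 * (N : ℝ) ^ (-(κ / 8)) := by
  classical
  have hNr : (1 : ℝ) ≤ N := by exact_mod_cast hN
  have hN0 : (0 : ℝ) < N := by linarith
  have hs1 : (1 : ℝ) ≤ (N : ℝ) ^ κ := Real.one_le_rpow hNr hκ.le
  have hh1 : (1 : ℝ) ≤ h := hs1.trans hNh
  have hh0 : (0 : ℝ) < h := by linarith
  have hhNr : (h : ℝ) ≤ N := by nlinarith
  have hhN' : h ≤ N := by exact_mod_cast hhNr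
  have hone : ∀ n ∈ Ioc N (R * N), Integrable (fun ω => ‖QQc (tc g χ ω) h n‖ ^ 2) P ∧
      ∫ ω, ‖QQc (tc g χ ω) h n‖ ^ 2 ∂P ≤ 2 * h := by
    intro n hn
    rw [mem_Ioc] at hn
    have hn9 : ∀ m ∈ Ioc n (n + h), 1 ≤ m ∧ m ≤ 9 * N := by
      intro m hm
      rw [mem_Ioc] at hm
      have : R * N ≤ 8 * N := Nat.mul_le_mul_right _ hR8
      omega
    have havg := avg_sq hF hδ (Ioc n (n + h)) (fun _ => 1) (fun _ => zero_le_one) (fun m => g m ^ 2) (fun m _ => by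
      rw [norm_pow]
      exact pow_le_one₀ (norm_nonneg _) (SFC_le hg m)) (fun m => m ^ 2) (fun _ => 1) (fun m hm => Nat.one_le_pow _ _ (hn9 m hm).1)
      (fun _ _ => le_rfl) (fun m hm m' _ => by
        rw [mul_one]
        exact (Nat.pow_le_pow_left (hn9 m hm).2 2).trans hD)
    have heq : (fun ω => ‖∑ m ∈ Ioc n (n + h), ((1 : ℝ) : ℂ) * (g m ^ 2 * (χ ω (m ^ 2) * starRingEnd ℂ (χ ω 1)))‖ ^ 2) =
        fun ω => ‖QQc (tc g χ ω) h n‖ ^ 2 := by
      funext ω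
      congr 2
      unfold QQc tc
      apply sum_congr rfl
      intro m _
      rw [hF.one, map_one, sq m, hF.mul]
      push_cast
      ring
    rw [heq] at havg
    refine ⟨havg.1, havg.2.trans ?_⟩
    have h2 : ∀ m ∈ Ioc n (n + h), ∑ m' ∈ Ioc n (n + h), (1 : ℝ) * 1 * ((if m ^ 2 * 1 = 1 * m' ^ 2 then 1 else 0) + δ) ≤ 2 := by
      intro m hm
      have h3 : ∀ m' ∈ Ioc n (n + h), (1 : ℝ) * 1 * ((if m ^ 2 * 1 = 1 * m' ^ 2 then 1 else 0) + δ) ≤ (if m' = m then 1 else 0) + δ := by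
        intro m' _
        rw [one_mul, one_mul]
        apply add_le_add _ le_rfl
        by_cases hq : m ^ 2 * 1 = 1 * m' ^ 2
        · have hmm : m' = m := by
            rw [mul_one, one_mul] at hq
            exact ((Nat.pow_left_injective (n := 2) (by norm_num)) hq).symm
          rw [if_pos hq, if_pos hmm]
        · rw [if_neg hq]
          split_ifs <;> norm_num
      refine (sum_le_sum h3).trans ?_
      rw [sum_add_distrib, sum_ite_eq' (Ioc n (n + h)) m, if_pos hm, sum_const, Nat.card_Ioc, Nat.add_sub_cancel_left, nsmul_eq_mul]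
      have h4 : (h : ℝ) * δ ≤ 1 := by
        calc (h : ℝ) * δ ≤ (9 * (N : ℝ)) ^ 2 * δ := by
              apply mul_le_mul_of_nonneg_right _ hδ
              nlinarith
          _ = δ * (9 * (N : ℝ)) ^ 2 := mul_comm _ _
          _ ≤ 1 := hδN
      linarith
    refine (sum_le_sum h2).trans (le_of_eq ?_)
    rw [sum_const, Nat.card_Ioc, Nat.add_sub_cancel_left, nsmul_eq_mul]
    ring
  have hmean : ∫ ω, ∑ n ∈ Ioc N (R * N), ‖QQc (tc g χ ω) h n‖ ^ 2 ∂P ≤ 16 * N * h := by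
    rw [integral_finsetSum _ (fun n hn => (hone n hn).1)]
    refine (sum_le_sum fun n hn => (hone n hn).2).trans ?_
    rw [sum_const, Nat.card_Ioc, nsmul_eq_mul]
    have h4 : ((R * N - N : ℕ) : ℝ) ≤ 8 * N := by
      have h5 : R * N ≤ 8 * N := Nat.mul_le_mul_right _ hR8
      have h6 : R * N - N ≤ 8 * N := by omega
      exact_mod_cast h6
    nlinarith
  have hT0 : 0 < (h : ℝ) ^ 2 * (N : ℝ) ^ (1 - κ / 8) := by positivity
  have hmk := markov (fun ω => ∑ n ∈ Ioc N (R * N), ‖QQc (tc g χ ω) h n‖ ^ 2) (fun ω => sum_nonneg fun _ _ => sq_nonneg _)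
    (integrable_finsetSum _ fun n hn => (hone n hn).1) _ (16 * N * h) hT0 hmean
  refine hmk.trans ?_
  rw [div_le_iff₀ hT0]
  have e1 : (N : ℝ) ^ (-(κ / 8)) * (N : ℝ) ^ (1 - κ / 8) * h ≥ N := by
    calc (N : ℝ) = (N : ℝ) ^ (-(κ / 8)) * (N : ℝ) ^ (1 - κ / 8) * (N : ℝ) ^ (κ / 4) := by
          rw [← Real.rpow_add hN0, ← Real.rpow_add hN0]
          rw [show -(κ / 8) + (1 - κ / 8) + κ / 4 = (1 : ℝ) by ring, Real.rpow_one]
      _ ≤ (N : ℝ) ^ (-(κ / 8)) * (N : ℝ) ^ (1 - κ / 8) * h := by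
          apply mul_le_mul_of_nonneg_left _ (by positivity)
          refine le_trans ?_ hNh
          apply Real.rpow_le_rpow_of_exponent_le hNr
          linarith
  calc 16 * (N : ℝ) * h ≤ 16 * ((N : ℝ) ^ (-(κ / 8)) * (N : ℝ) ^ (1 - κ / 8) * h) * h := by
        apply mul_le_mul_of_nonneg_right _ hh0.le
        linarith
    _ = _ := by ring

end

end Pool.Agent.K4H49.GT
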