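import Pool.Agent.K4H14.GC.Mom2

/-!
# Weighted sums over the tuples in which every value occurs an even number of times
-/

set_option autoImplicit false

namespace Pool.Agent.K4H49.GT

open Finset
open Pool.Agent.K4H14.GC

/-- the moment of a weighted sum of random signs -/
noncomputable def SM (m : ℕ) (S : Finset ℕ) (F : ℕ → ℝ) : ℝ :=
  (∑ A ∈ S.powerset, (∑ v ∈ S, (if v ∈ A then (-1 : ℝ) else 1) * F v) ^ m) / 2 ^ S.card

theorem SM_zero (S : Finset ℕ) (F : ℕ → ℝ) : SM 0 S F = 1 := by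
  unfold SM
  simp only [pow_zero, sum_const, card_powerset, nsmul_eq_mul, mul_one]
  push_cast
  exact div_self (by positivity)

theorem SM_empty (m : ℕ) (hm : 1 ≤ m) (F : ℕ → ℝ) : SM m ∅ F = 0 := by
  unfold SM
  simp
  omega

theorem SM_insert (m : ℕ) (S : Finset ℕ) (F : ℕ → ℝ) (w : ℕ) (hw : w ∉ S) :
    SM m (insert w S) F = ∑ j ∈ range (m + 1), (m.choose j : ℝ) * ((1 + (-1) ^ j) / 2) * F w ^ j * SM (m - j) S F := by
  classical
  unfold SM
  rw [powerset_insert, sum_union]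
  · rw [sum_image]
    · have hA0 : ∀ A ∈ S.powerset, ∑ v ∈ insert w S, (if v ∈ A then (-1 : ℝ) else 1) * F v =
          F w + ∑ v ∈ S, (if v ∈ A then (-1 : ℝ) else 1) * F v := by
        intro A hA
        rw [mem_powerset] at hA
        rw [sum_insert hw, if_neg (fun h => hw (hA h)), one_mul]
      have hA1 : ∀ A ∈ S.powerset, ∑ v ∈ insert w S, (if v ∈ insert w A then (-1 : ℝ) else 1) * F v =
          (-1) * F w + ∑ v ∈ S, (if v ∈ A then (-1 : ℝ) else 1) * F v := by
        intro A hA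
        rw [sum_insert hw, if_pos (mem_insert_self _ _)]
        congr 1
        apply sum_congr rfl
        intro v hv
        have hvw : v ≠ w := fun h => hw (h ▸ hv)
        by_cases hvA : v ∈ A
        · rw [if_pos (mem_insert_of_mem hvA), if_pos hvA]
        · rw [if_neg (fun h => (mem_insert.1 h).elim hvw hvA), if_neg hvA]
      rw [← sum_add_distrib]
      have h3 : ∀ A ∈ S.powerset, (∑ v ∈ insert w S, (if v ∈ A then (-1 : ℝ) else 1) * F v) ^ m +
          (∑ v ∈ insert w S, (if v ∈ insert w A then (-1 : ℝ) else 1) * F v) ^ m =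
          ∑ j ∈ range (m + 1), (m.choose j : ℝ) * (1 + (-1) ^ j) * F w ^ j * (∑ v ∈ S, (if v ∈ A then (-1 : ℝ) else 1) * F v) ^ (m - j) := by
        intro A hA
        rw [hA0 A hA, hA1 A hA, add_pow, add_pow, ← sum_add_distrib]
        apply sum_congr rfl
        intro j _
        rw [mul_pow]
        ring
      rw [sum_congr rfl h3, sum_comm, sum_div]
      apply sum_congr rfl
      intro j _
      rw [← mul_sum, card_insert_of_notMem hw, pow_succ]
      field_simp
    · intro A hA B hB hAB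
      rw [mem_coe, mem_powerset] at hA hB
      have hA' : w ∉ A := fun h => hw (hA h)
      have hB' : w ∉ B := fun h => hw (hB h)
      have := congrArg (fun C => C.erase w) hAB
      simpa [erase_insert hA', erase_insert hB'] using this
  · rw [disjoint_left]
    intro A hA hA'
    rw [mem_powerset] at hA
    obtain ⟨B, _, rfl⟩ := mem_image.1 hA'
    exact hw (hA (mem_insert_self w B))

theorem pair_w (k : ℕ) (S : Finset ℕ) (F : ℕ → ℝ) [DecidablePred fun t : Fin k → ℕ => Prd t] :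
    ∑ t ∈ (Fintype.piFinset (fun _ : Fin k => S)).filter (fun t => Prd t), ∏ i, F (t i) = SM k S F := by
  classical
  unfold SM
  rw [eq_div_iff (by positivity), sum_filter]
  have h1 : ∀ A ∈ S.powerset, (∑ v ∈ S, (if v ∈ A then (-1 : ℝ) else 1) * F v) ^ k =
      ∑ t ∈ Fintype.piFinset (fun _ : Fin k => S), (∏ v ∈ A, (-1 : ℝ) ^ (univ.filter (fun i => t i = v)).card) * ∏ i, F (t i) := by
    intro A hA
    rw [mem_powerset] at hA
    have e5 : (∑ v ∈ S, (if v ∈ A then (-1 : ℝ) else 1) * F v) ^ k = ∏ _i : Fin k, ∑ v ∈ S, (if v ∈ A then (-1 : ℝ) else 1) * F v := by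
      rw [prod_const, card_univ, Fintype.card_fin]
    rw [e5, prod_univ_sum]
    apply sum_congr rfl
    intro t ht
    rw [Fintype.mem_piFinset] at ht
    rw [prod_mul_distrib]
    congr 1
    rw [← prod_fiberwise_of_maps_to (g := t) (t := S) (fun i _ => ht i)]
    rw [← prod_subset hA]
    · apply prod_congr rfl
      intro v hv
      rw [← prod_const]
      apply prod_congr rfl
      intro i hi
      rw [mem_filter] at hi
      rw [hi.2, if_pos hv]
    · intro v _ hv
      apply prod_eq_one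
      intro i hi
      rw [mem_filter] at hi
      rw [hi.2, if_neg hv]
  rw [sum_congr rfl h1, sum_comm, sum_mul]
  apply sum_congr rfl
  intro t ht
  rw [Fintype.mem_piFinset] at ht
  rw [← sum_mul, ← Finset.prod_one_add]
  split_ifs with hP
  · rw [prod_congr rfl (fun v _ => show (1 : ℝ) + (-1) ^ (univ.filter (fun i => t i = v)).card = 2 by
      rw [(hP v).neg_one_pow]; norm_num)]
    rw [prod_const]
    ring
  · rw [zero_mul]
    symm
    unfold Prd at hP
    push Not at hP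
    obtain ⟨v, hv⟩ := hP
    rw [Nat.not_even_iff_odd] at hv
    have hvS : v ∈ S := by
      obtain ⟨i, hi⟩ := card_pos.1 hv.pos
      rw [mem_filter] at hi
      rw [← hi.2]
      exact ht i
    have hz : ∏ v ∈ S, ((1 : ℝ) + (-1) ^ (univ.filter (fun i => t i = v)).card) = 0 := by
      apply prod_eq_zero hvS
      rw [hv.neg_one_pow]
      norm_num
    rw [hz, zero_mul]

theorem SM_odd (m : ℕ) (hm : Odd m) (F : ℕ → ℝ) (S : Finset ℕ) : SM m S F = 0 := by
  classical
  induction m using Nat.strong_induction_on generalizing S with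
  | _ m ih =>
    induction S using Finset.induction_on with
    | empty => exact SM_empty m hm.pos F
    | insert w S hw ihS =>
      rw [SM_insert m S F w hw]
      apply sum_eq_zero
      intro j hj
      rw [mem_range] at hj
      rcases Nat.even_or_odd j with he | ho
      · rcases Nat.eq_zero_or_pos j with rfl | hj0
        · rw [Nat.sub_zero, ihS, mul_zero]
        · rw [ih (m - j) (by have := hm.pos; omega) (Nat.Odd.sub_even (by omega) hm he), mul_zero]
      · rw [ho.neg_one_pow]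
        ring

theorem pow_second (p : ℕ) : ∃ C : ℝ, 0 ≤ C ∧ ∀ H V b : ℝ, 1 ≤ H → 0 ≤ V → V ≤ 4 * H → 0 ≤ b → b ≤ 4 →
    |(V + b) ^ p - V ^ p - p * b * V ^ (p - 1)| * H ^ 2 ≤ C * H ^ p := by
  induction p with
  | zero => exact ⟨0, le_rfl, fun H V b _ _ _ _ _ => by simp⟩
  | succ p ih =>
    obtain ⟨C, hC, h1⟩ := ih
    refine ⟨8 * C + 16 * p * 4 ^ (p - 1), by positivity, ?_⟩
    intro H V b hH hV hV4 hb hb4
    have h2 := h1 H V b hH hV hV4 hb hb4
    have hH0 : 0 < H := by linarith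
    have e : (V + b) ^ (p + 1) - V ^ (p + 1) - ((p + 1 : ℕ) : ℝ) * b * V ^ (p + 1 - 1) =
        (V + b) * ((V + b) ^ p - V ^ p - p * b * V ^ (p - 1)) + p * b ^ 2 * V ^ (p - 1) := by
      rcases Nat.eq_zero_or_pos p with rfl | hp
      · simp
      · obtain ⟨q, rfl⟩ : ∃ q, p = q + 1 := ⟨p - 1, by omega⟩
        simp only [Nat.add_sub_cancel]
        push_cast
        ring
    rw [e]
    have h3 : |(V + b) * ((V + b) ^ p - V ^ p - p * b * V ^ (p - 1))| * H ^ 2 ≤ 8 * C * H ^ (p + 1) := by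
      rw [abs_mul, abs_of_nonneg (by linarith : 0 ≤ V + b)]
      calc (V + b) * |(V + b) ^ p - V ^ p - p * b * V ^ (p - 1)| * H ^ 2 =
          (V + b) * (|(V + b) ^ p - V ^ p - p * b * V ^ (p - 1)| * H ^ 2) := by ring
        _ ≤ (8 * H) * (C * H ^ p) := by
            apply mul_le_mul _ h2 (by positivity) (by positivity)
            linarith
        _ = _ := by ring
    have h4 : |p * b ^ 2 * V ^ (p - 1)| * H ^ 2 ≤ 16 * p * 4 ^ (p - 1) * H ^ (p + 1) := by
      rcases Nat.eq_zero_or_pos p with rfl | hp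
      · simp
      rw [abs_of_nonneg (by positivity)]
      have h5 : V ^ (p - 1) ≤ (4 * H) ^ (p - 1) := pow_le_pow_left₀ hV hV4 _
      have h6 : b ^ 2 ≤ 16 := by nlinarith
      calc (p : ℝ) * b ^ 2 * V ^ (p - 1) * H ^ 2 ≤ p * 16 * (4 * H) ^ (p - 1) * H ^ 2 := by
            apply mul_le_mul_of_nonneg_right _ (by positivity)
            apply mul_le_mul _ h5 (by positivity) (by positivity)
            exact mul_le_mul_of_nonneg_left h6 (Nat.cast_nonneg _)
        _ = 16 * p * 4 ^ (p - 1) * H ^ ((p - 1) + 2) := by rw [mul_pow, pow_add]; ring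
        _ = _ := by
            congr 2
            omega
    calc |(V + b) * ((V + b) ^ p - V ^ p - p * b * V ^ (p - 1)) + p * b ^ 2 * V ^ (p - 1)| * H ^ 2 ≤
        (|(V + b) * ((V + b) ^ p - V ^ p - p * b * V ^ (p - 1))| + |p * b ^ 2 * V ^ (p - 1)|) * H ^ 2 :=
          mul_le_mul_of_nonneg_right (abs_add_le _ _) (by positivity)
      _ ≤ 8 * C * H ^ (p + 1) + 16 * p * 4 ^ (p - 1) * H ^ (p + 1) := by rw [add_mul]; exact add_le_add h3 h4
      _ = _ := by ring

theorem df_rel (p : ℕ) (hp : 1 ≤ p) : (Nat.doubleFactorial (2 * p - 1) : ℝ) * p =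
    ((2 * p).choose 2 : ℝ) * Nat.doubleFactorial (2 * (p - 1) - 1) := by
  have h1 : (((2 * p).choose 2 : ℕ) : ℝ) = p * (2 * p - 1) := by
    rw [Nat.cast_choose_two]
    push_cast
    ring
  rw [h1]
  rcases Nat.eq_or_lt_of_le hp with h2 | h2
  · rw [← h2]
    simp
    norm_num
  · obtain ⟨q, rfl⟩ : ∃ q, p = q + 2 := ⟨p - 2, by omega⟩
    rw [show 2 * (q + 2) - 1 = (2 * q + 1) + 2 by omega, Nat.doubleFactorial_add_two,
      show 2 * (q + 2 - 1) - 1 = 2 * q + 1 by omega]
    push_cast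
    ring

theorem even_main (p : ℕ) : ∃ C : ℝ, 0 ≤ C ∧ ∀ h : ℕ, 1 ≤ h → ∀ F : ℕ → ℝ, (∀ v, |F v| ≤ 2) →
    ∀ S : Finset ℕ, S.card ≤ h →
    |SM (2 * p) S F - (Nat.doubleFactorial (2 * p - 1) : ℝ) * (∑ v ∈ S, F v ^ 2) ^ p| ≤ C * (h : ℝ) ^ p / h := by
  classical
  induction p using Nat.strong_induction_on with
  | _ p ih =>
    rcases Nat.eq_zero_or_pos p with rfl | hp
    · refine ⟨0, le_rfl, fun h _ F _ S _ => ?_⟩
      rw [SM_zero]
      simp
    -- bounds for the sum of squares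
    have hV : ∀ h : ℕ, ∀ F : ℕ → ℝ, (∀ v, |F v| ≤ 2) → ∀ S : Finset ℕ, S.card ≤ h →
        0 ≤ ∑ v ∈ S, F v ^ 2 ∧ ∑ v ∈ S, F v ^ 2 ≤ 4 * (h : ℝ) := by
      intro h F hF S hS
      refine ⟨sum_nonneg fun v _ => sq_nonneg _, ?_⟩
      calc ∑ v ∈ S, F v ^ 2 ≤ ∑ _v ∈ S, (4 : ℝ) := by
            apply sum_le_sum
            intro v _
            rw [← sq_abs]
            have := hF v
            nlinarith [abs_nonneg (F v)]
        _ = 4 * (S.card : ℝ) := by rw [sum_const, nsmul_eq_mul, mul_comm]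
        _ ≤ 4 * (h : ℝ) := by
            apply mul_le_mul_of_nonneg_left _ (by norm_num)
            exact_mod_cast hS
    -- bounds for the lower moments
    have hB : ∀ q < p, ∃ B : ℝ, 0 ≤ B ∧ ∀ h : ℕ, 1 ≤ h → ∀ F : ℕ → ℝ, (∀ v, |F v| ≤ 2) →
        ∀ S : Finset ℕ, S.card ≤ h → |SM (2 * q) S F| ≤ B * (h : ℝ) ^ q := by
      intro q hq
      obtain ⟨C, hC, h1⟩ := ih q hq
      refine ⟨C + Nat.doubleFactorial (2 * q - 1) * 4 ^ q, by positivity, ?_⟩
      intro h hh F hF S hS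
      have h2 := h1 h hh F hF S hS
      have hh1 : (1 : ℝ) ≤ h := by exact_mod_cast hh
      obtain ⟨h3, h4⟩ := hV h F hF S hS
      have h5 : |(Nat.doubleFactorial (2 * q - 1) : ℝ) * (∑ v ∈ S, F v ^ 2) ^ q| ≤ Nat.doubleFactorial (2 * q - 1) * 4 ^ q * (h : ℝ) ^ q := by
        rw [abs_of_nonneg (by positivity), mul_assoc, ← mul_pow]
        apply mul_le_mul_of_nonneg_left _ (Nat.cast_nonneg _)
        exact pow_le_pow_left₀ h3 h4 q
      have h6 : C * (h : ℝ) ^ q / h ≤ C * (h : ℝ) ^ q := div_le_self (by positivity) hh1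
      have h7 := abs_sub_abs_le_abs_sub (SM (2 * q) S F) ((Nat.doubleFactorial (2 * q - 1) : ℝ) * (∑ v ∈ S, F v ^ 2) ^ q)
      calc |SM (2 * q) S F| ≤ C * (h : ℝ) ^ q + Nat.doubleFactorial (2 * q - 1) * 4 ^ q * (h : ℝ) ^ q := by linarith
        _ = _ := by ring
    -- the terms of the recursion
    have hT : ∀ j : ℕ, 1 ≤ j → j ≤ 2 * p → ∃ c : ℝ, 0 ≤ c ∧ ∀ h : ℕ, 1 ≤ h → ∀ F : ℕ → ℝ, (∀ v, |F v| ≤ 2) →
        ∀ S : Finset ℕ, S.card ≤ h → ∀ a : ℝ, |a| ≤ 2 →
        |((2 * p).choose j : ℝ) * ((1 + (-1) ^ j) / 2) * a ^ j * SM (2 * p - j) S F -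
          (if j = 2 then ((2 * p).choose 2 : ℝ) * Nat.doubleFactorial (2 * (p - 1) - 1) * a ^ 2 * (∑ v ∈ S, F v ^ 2) ^ (p - 1) else 0)| ≤
          c * (h : ℝ) ^ p / (h : ℝ) ^ 2 := by
      intro j hj1 hj2
      rcases Nat.even_or_odd j with he | ho
      · obtain ⟨i, hi⟩ := he
        have hi1 : 1 ≤ i := by omega
        rcases Nat.eq_or_lt_of_le hi1 with h2 | h2
        · -- j = 2
          have hj : j = 2 := by omega
          obtain ⟨C, hC, h1⟩ := ih (p - 1) (by omega)
          refine ⟨((2 * p).choose 2 : ℝ) * 4 * C, by positivity, ?_⟩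
          intro h hh F hF S hS a ha
          have hh1 : (1 : ℝ) ≤ h := by exact_mod_cast hh
          have hh0 : (0 : ℝ) < h := by linarith
          rw [if_pos hj, hj]
          have h3 := h1 h hh F hF S hS
          have e1 : ((2 * p).choose 2 : ℝ) * ((1 + (-1) ^ 2) / 2) * a ^ 2 * SM (2 * p - 2) S F -
              ((2 * p).choose 2 : ℝ) * Nat.doubleFactorial (2 * (p - 1) - 1) * a ^ 2 * (∑ v ∈ S, F v ^ 2) ^ (p - 1) =
              ((2 * p).choose 2 : ℝ) * a ^ 2 * (SM (2 * (p - 1)) S F - (Nat.doubleFactorial (2 * (p - 1) - 1) : ℝ) * (∑ v ∈ S, F v ^ 2) ^ (p - 1)) := by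
            rw [show 2 * p - 2 = 2 * (p - 1) by omega]
            ring
          rw [e1, abs_mul, abs_of_nonneg (by positivity : 0 ≤ ((2 * p).choose 2 : ℝ) * a ^ 2)]
          have h4 : a ^ 2 ≤ 4 := by
            rw [← sq_abs]
            nlinarith [abs_nonneg a]
          have h5 : C * (h : ℝ) ^ (p - 1) / h = C * (h : ℝ) ^ p / (h : ℝ) ^ 2 := by
            rw [div_eq_div_iff hh0.ne' (by positivity)]
            obtain ⟨q, rfl⟩ : ∃ q, p = q + 1 := ⟨p - 1, by omega⟩
            rw [Nat.add_sub_cancel, pow_succ]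
            ring
          calc ((2 * p).choose 2 : ℝ) * a ^ 2 * |SM (2 * (p - 1)) S F - (Nat.doubleFactorial (2 * (p - 1) - 1) : ℝ) * (∑ v ∈ S, F v ^ 2) ^ (p - 1)| ≤
              ((2 * p).choose 2 : ℝ) * 4 * (C * (h : ℝ) ^ (p - 1) / h) := by
                apply mul_le_mul _ h3 (abs_nonneg _) (by positivity)
                exact mul_le_mul_of_nonneg_left h4 (Nat.cast_nonneg _)
            _ = _ := by rw [h5]; ring
        · -- j = 2 i with i ≥ 2
          obtain ⟨B, hB0, h1⟩ := hB (p - i) (by omega)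
          refine ⟨((2 * p).choose j : ℝ) * 2 ^ j * B, by positivity, ?_⟩
          intro h hh F hF S hS a ha
          have hh1 : (1 : ℝ) ≤ h := by exact_mod_cast hh
          have hh0 : (0 : ℝ) < h := by linarith
          have h3 := h1 h hh F hF S hS
          rw [if_neg (by omega), sub_zero, show 2 * p - j = 2 * (p - i) by omega, abs_mul, abs_mul, abs_mul]
          have h4 : |(1 + (-1 : ℝ) ^ j) / 2| ≤ 1 := by
            rcases neg_one_pow_eq_or ℝ j with hj | hj <;> rw [hj] <;> norm_num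
          have h5 : |a ^ j| ≤ 2 ^ j := by
            rw [abs_pow]
            exact pow_le_pow_left₀ (abs_nonneg _) ha j
          have h6 : (h : ℝ) ^ (p - i) ≤ (h : ℝ) ^ p / (h : ℝ) ^ 2 := by
            rw [le_div_iff₀ (by positivity), ← pow_add]
            exact pow_le_pow_right₀ hh1 (by omega)
          calc |((2 * p).choose j : ℝ)| * |(1 + (-1 : ℝ) ^ j) / 2| * |a ^ j| * |SM (2 * (p - i)) S F| ≤
              ((2 * p).choose j : ℝ) * 1 * 2 ^ j * (B * ((h : ℝ) ^ p / (h : ℝ) ^ 2)) := by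
                apply mul_le_mul _ (h3.trans (mul_le_mul_of_nonneg_left h6 hB0)) (abs_nonneg _) (by positivity)
                apply mul_le_mul _ h5 (abs_nonneg _) (by positivity)
                apply mul_le_mul _ h4 (abs_nonneg _) (by positivity)
                rw [abs_of_nonneg (Nat.cast_nonneg _)]
            _ = _ := by ring
      · refine ⟨0, le_rfl, ?_⟩
        intro h _ F _ S _ a _
        rw [if_neg (by rintro rfl; exact absurd ho (by decide)), ho.neg_one_pow]
        simp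
    have hT' : ∀ j : ℕ, ∃ c : ℝ, 0 ≤ c ∧ (1 ≤ j → j ≤ 2 * p → ∀ h : ℕ, 1 ≤ h → ∀ F : ℕ → ℝ, (∀ v, |F v| ≤ 2) →
        ∀ S : Finset ℕ, S.card ≤ h → ∀ a : ℝ, |a| ≤ 2 →
        |((2 * p).choose j : ℝ) * ((1 + (-1) ^ j) / 2) * a ^ j * SM (2 * p - j) S F -
          (if j = 2 then ((2 * p).choose 2 : ℝ) * Nat.doubleFactorial (2 * (p - 1) - 1) * a ^ 2 * (∑ v ∈ S, F v ^ 2) ^ (p - 1) else 0)| ≤
          c * (h : ℝ) ^ p / (h : ℝ) ^ 2) := by
      intro j
      by_cases hj : 1 ≤ j ∧ j ≤ 2 * p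
      · obtain ⟨c, hc, h1⟩ := hT j hj.1 hj.2
        exact ⟨c, hc, fun _ _ => h1⟩
      · exact ⟨0, le_rfl, fun h1 h2 => absurd ⟨h1, h2⟩ hj⟩
    choose c hc0 hc using hT'
    obtain ⟨C₁, hC₁, hpow⟩ := pow_second p
    obtain ⟨D, hD⟩ : ∃ D : ℝ, D = (Nat.doubleFactorial (2 * p - 1) : ℝ) := ⟨_, rfl⟩
    have hD0 : 0 ≤ D := by rw [hD]; exact Nat.cast_nonneg _
    obtain ⟨Q, hQ⟩ : ∃ Q : ℝ, Q = ∑ j ∈ Ioc 0 (2 * p), c j + D * C₁ := ⟨_, rfl⟩
    have hQ0 : 0 ≤ Q := by
      rw [hQ]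
      have : 0 ≤ ∑ j ∈ Ioc 0 (2 * p), c j := sum_nonneg fun j _ => hc0 j
      positivity
    refine ⟨Q, hQ0, ?_⟩
    intro h hh F hF
    have hh1 : (1 : ℝ) ≤ h := by exact_mod_cast hh
    have hh0 : (0 : ℝ) < h := by linarith
    have key : ∀ S : Finset ℕ, S.card ≤ h →
        |SM (2 * p) S F - D * (∑ v ∈ S, F v ^ 2) ^ p| ≤ S.card * (Q * (h : ℝ) ^ p / (h : ℝ) ^ 2) := by
      intro S
      induction S using Finset.induction_on with
      | empty =>
        intro _
        rw [SM_empty _ (by omega), sum_empty, zero_pow (by omega)]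
        simp
      | insert w S hw ihS =>
        intro hS
        rw [card_insert_of_notMem hw] at hS ⊢
        have h1 := ihS (by omega)
        have hrec := SM_insert (2 * p) S F w hw
        have hsplit : ∑ j ∈ range (2 * p + 1), ((2 * p).choose j : ℝ) * ((1 + (-1) ^ j) / 2) * F w ^ j * SM (2 * p - j) S F =
            SM (2 * p) S F + ∑ j ∈ Ioc 0 (2 * p), ((2 * p).choose j : ℝ) * ((1 + (-1) ^ j) / 2) * F w ^ j * SM (2 * p - j) S F := by
          have hr : range (2 * p + 1) = insert 0 (Ioc 0 (2 * p)) := by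
            ext x
            simp only [mem_range, mem_insert, mem_Ioc]
            omega
          rw [hr, sum_insert (by simp)]
          congr 1
          simp
        obtain ⟨V, hVd⟩ : ∃ V, V = ∑ v ∈ S, F v ^ 2 := ⟨_, rfl⟩
        have hVV := hV h F hF S (by omega)
        rw [← hVd] at hVV h1
        have hb0 : 0 ≤ F w ^ 2 := sq_nonneg _
        have hb4 : F w ^ 2 ≤ 4 := by
          rw [← sq_abs]
          have := hF w
          nlinarith [abs_nonneg (F w)]
        have h2 := hpow h V (F w ^ 2) hh1 hVV.1 hVV.2 hb0 hb4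
        have h3 : |(V + F w ^ 2) ^ p - V ^ p - p * F w ^ 2 * V ^ (p - 1)| ≤ C₁ * (h : ℝ) ^ p / (h : ℝ) ^ 2 := by
          rw [le_div_iff₀ (by positivity)]
          exact h2
        have hsum2 : ∑ j ∈ Ioc 0 (2 * p), (if j = 2 then ((2 * p).choose 2 : ℝ) * Nat.doubleFactorial (2 * (p - 1) - 1) * F w ^ 2 * V ^ (p - 1) else 0) =
            D * (p * F w ^ 2 * V ^ (p - 1)) := by
          rw [sum_ite_eq', if_pos (mem_Ioc.2 ⟨by omega, by omega⟩), ← df_rel p hp, ← hD]
          ring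
        have h4 : |∑ j ∈ Ioc 0 (2 * p), ((2 * p).choose j : ℝ) * ((1 + (-1) ^ j) / 2) * F w ^ j * SM (2 * p - j) S F - D * (p * F w ^ 2 * V ^ (p - 1))| ≤
            (∑ j ∈ Ioc 0 (2 * p), c j) * (h : ℝ) ^ p / (h : ℝ) ^ 2 := by
          rw [← hsum2, ← sum_sub_distrib]
          refine (abs_sum_le_sum_abs _ _).trans ?_
          rw [sum_mul, sum_div]
          apply sum_le_sum
          intro j hj
          rw [mem_Ioc] at hj
          have := hc j (by omega) hj.2 h hh F hF S (by omega) (F w) (hF w)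
          rw [← hVd] at this
          exact this
        rw [hrec, hsplit, sum_insert hw, ← hVd]
        have e : SM (2 * p) S F + ∑ j ∈ Ioc 0 (2 * p), ((2 * p).choose j : ℝ) * ((1 + (-1) ^ j) / 2) * F w ^ j * SM (2 * p - j) S F - D * (F w ^ 2 + V) ^ p =
            (SM (2 * p) S F - D * V ^ p) + (∑ j ∈ Ioc 0 (2 * p), ((2 * p).choose j : ℝ) * ((1 + (-1) ^ j) / 2) * F w ^ j * SM (2 * p - j) S F - D * (p * F w ^ 2 * V ^ (p - 1))) -
            D * ((V + F w ^ 2) ^ p - V ^ p - p * F w ^ 2 * V ^ (p - 1)) := by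
          rw [add_comm (F w ^ 2) V]
          ring
        rw [e]
        have h5 : |D * ((V + F w ^ 2) ^ p - V ^ p - p * F w ^ 2 * V ^ (p - 1))| ≤ D * (C₁ * (h : ℝ) ^ p / (h : ℝ) ^ 2) := by
          rw [abs_mul, abs_of_nonneg hD0]
          exact mul_le_mul_of_nonneg_left h3 hD0
        have h6 := abs_sub ((SM (2 * p) S F - D * V ^ p) + (∑ j ∈ Ioc 0 (2 * p), ((2 * p).choose j : ℝ) * ((1 + (-1) ^ j) / 2) * F w ^ j * SM (2 * p - j) S F - D * (p * F w ^ 2 * V ^ (p - 1))))
            (D * ((V + F w ^ 2) ^ p - V ^ p - p * F w ^ 2 * V ^ (p - 1)))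
        have h7 := abs_add_le (SM (2 * p) S F - D * V ^ p) (∑ j ∈ Ioc 0 (2 * p), ((2 * p).choose j : ℝ) * ((1 + (-1) ^ j) / 2) * F w ^ j * SM (2 * p - j) S F - D * (p * F w ^ 2 * V ^ (p - 1)))
        have e2 : ((S.card + 1 : ℕ) : ℝ) * (Q * (h : ℝ) ^ p / (h : ℝ) ^ 2) =
            S.card * (Q * (h : ℝ) ^ p / (h : ℝ) ^ 2) + ((∑ j ∈ Ioc 0 (2 * p), c j) * (h : ℝ) ^ p / (h : ℝ) ^ 2 + D * (C₁ * (h : ℝ) ^ p / (h : ℝ) ^ 2)) := by
          rw [hQ]
          push_cast
          ring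
        rw [e2]
        linarith
    intro S hS
    have h1 := key S hS
    rw [hD] at h1
    refine h1.trans ?_
    calc (S.card : ℝ) * (Q * (h : ℝ) ^ p / (h : ℝ) ^ 2) ≤ h * (Q * (h : ℝ) ^ p / (h : ℝ) ^ 2) := by
          apply mul_le_mul_of_nonneg_right _ (by positivity)
          exact_mod_cast hS
      _ = Q * (h : ℝ) ^ p / h := by
          rw [mul_div_assoc', div_eq_div_iff (by positivity) hh0.ne']
          ring

end Pool.Agent.K4H49.GT
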