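import Pool.Agent.K4H49.GT.Union

/-!
# The functions `n^{it}` and the Dirichlet characters modulo a prime
-/

set_option autoImplicit false

namespace Pool.Agent.K4H49.GT

open Finset MeasureTheory
open Pool.Agent.K4H14.GC

/-- the uniform measure of `[0, T]` -/
noncomputable def UT (T : ℝ) : Measure ℝ := (ENNReal.ofReal T)⁻¹ • (volume.restrict (Set.Icc 0 T))

theorem UT_prob {T : ℝ} (hT : 0 < T) : IsProbabilityMeasure (UT T) := ⟨by
  unfold UT
  rw [Measure.smul_apply, Measure.restrict_apply_univ, Real.volume_Icc, sub_zero, smul_eq_mul]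
  exact ENNReal.inv_mul_cancel (by simp [hT]) ENNReal.ofReal_ne_top⟩

/-- the function `n^{it}` -/
noncomputable def xt (t : ℝ) (n : ℕ) : ℂ := (n : ℂ) ^ ((t : ℂ) * Complex.I)

theorem xt_pos (t : ℝ) (n : ℕ) (hn : 1 ≤ n) : xt t n = Complex.exp (((Real.log n : ℝ) : ℂ) * Complex.I * t) := by
  unfold xt
  rw [Complex.cpow_def_of_ne_zero (by exact_mod_cast (by omega : n ≠ 0)), Complex.natCast_log]
  congr 1
  ring

theorem xt_norm (t : ℝ) (n : ℕ) (hn : 1 ≤ n) : ‖xt t n‖ = 1 := by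
  unfold xt
  rw [Complex.norm_natCast_cpow_of_pos (by omega)]
  simp

theorem xt_mul (t : ℝ) (a b : ℕ) : xt t (a * b) = xt t a * xt t b := by
  unfold xt
  rw [Nat.cast_mul, Complex.natCast_mul_natCast_cpow]

theorem log_gap (x y D : ℕ) (hx : 1 ≤ x) (hy : 1 ≤ y) (hxD : x ≤ D) (hyD : y ≤ D) (hne : x ≠ y) :
    1 / (D : ℝ) ≤ |Real.log x - Real.log y| := by
  wlog h : y < x with H
  · rw [abs_sub_comm]
    exact H y x D hy hx hyD hxD hne.symm (by omega)
  have hx0 : (0 : ℝ) < x := by exact_mod_cast hx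
  have hy0 : (0 : ℝ) < y := by exact_mod_cast hy
  have h1 : (y : ℝ) + 1 ≤ x := by exact_mod_cast h
  have h2 : 1 - ((x : ℝ) / y)⁻¹ ≤ Real.log ((x : ℝ) / y) := Real.one_sub_inv_le_log_of_pos (by positivity)
  rw [Real.log_div hx0.ne' hy0.ne'] at h2
  have h3 : 1 / (x : ℝ) ≤ 1 - ((x : ℝ) / y)⁻¹ := by
    rw [inv_div, div_le_iff₀ hx0, sub_mul, div_mul_cancel₀ _ hx0.ne']
    linarith
  have h4 : 1 / (D : ℝ) ≤ 1 / x := by
    apply one_div_le_one_div_of_le hx0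
    exact_mod_cast hxD
  exact (h4.trans (h3.trans h2)).trans (le_abs_self _)

theorem xt_orth {T : ℝ} (hT : 0 < T) (D x y : ℕ) (hx : 1 ≤ x) (hy : 1 ≤ y) (hxD : x ≤ D) (hyD : y ≤ D) (hne : x ≠ y) :
    ‖∫ t, xt t x * starRingEnd ℂ (xt t y) ∂(UT T)‖ ≤ 2 * D / T := by
  obtain ⟨a, ha⟩ : ∃ a : ℝ, a = Real.log x - Real.log y := ⟨_, rfl⟩
  have hgap := log_gap x y D hx hy hxD hyD hne
  rw [← ha] at hgap
  have hD0 : (0 : ℝ) < D := by exact_mod_cast (by omega : 0 < D)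
  have ha0 : a ≠ 0 := by
    intro h0
    rw [h0, abs_zero] at hgap
    have : 0 < 1 / (D : ℝ) := by positivity
    linarith
  have h1 : ∀ t : ℝ, xt t x * starRingEnd ℂ (xt t y) = Complex.exp (((a : ℂ) * Complex.I) * t) := by
    intro t
    rw [xt_pos t x hx, xt_pos t y hy, ← Complex.exp_conj, ← Complex.exp_add]
    congr 1
    simp only [map_mul, Complex.conj_ofReal, Complex.conj_I]
    rw [ha]
    push_cast
    ring
  unfold UT
  rw [integral_smul_measure, integral_congr_ae (Filter.Eventually.of_forall h1), integral_Icc_eq_integral_Ioc,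
    ← intervalIntegral.integral_of_le hT.le, integral_exp_mul_complex (by
      simp only [ne_eq, mul_eq_zero, Complex.ofReal_eq_zero, Complex.I_ne_zero, or_false]
      exact ha0)]
  rw [norm_smul, norm_div, ENNReal.toReal_inv, ENNReal.toReal_ofReal hT.le]
  have h2 : ‖Complex.exp ((a : ℂ) * Complex.I * (T : ℝ)) - Complex.exp ((a : ℂ) * Complex.I * (0 : ℝ))‖ ≤ 2 := by
    refine (norm_sub_le _ _).trans ?_
    have e1 : (a : ℂ) * Complex.I * (T : ℝ) = ((a * T : ℝ) : ℂ) * Complex.I := by push_cast; ring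
    have e2 : (a : ℂ) * Complex.I * ((0 : ℝ) : ℂ) = ((0 : ℝ) : ℂ) * Complex.I := by push_cast; ring
    rw [e1, e2, Complex.norm_exp_ofReal_mul_I, Complex.norm_exp_ofReal_mul_I]
    norm_num
  have h3 : ‖(a : ℂ) * Complex.I‖ = |a| := by
    rw [norm_mul, Complex.norm_I, mul_one, Complex.norm_real, Real.norm_eq_abs]
  rw [h3, Real.norm_eq_abs, abs_of_nonneg (by positivity)]
  have ha1 : 0 < |a| := abs_pos.2 ha0
  have h4 : ‖Complex.exp ((a : ℂ) * Complex.I * (T : ℝ)) - Complex.exp ((a : ℂ) * Complex.I * (0 : ℝ))‖ / |a| ≤ 2 * D := by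
    rw [div_le_iff₀ ha1]
    rw [div_le_iff₀ hD0] at hgap
    nlinarith
  calc T⁻¹ * (‖Complex.exp ((a : ℂ) * Complex.I * (T : ℝ)) - Complex.exp ((a : ℂ) * Complex.I * (0 : ℝ))‖ / |a|) ≤ T⁻¹ * (2 * D) :=
        mul_le_mul_of_nonneg_left h4 (by positivity)
    _ = 2 * D / T := by ring

theorem fam_xt {T : ℝ} (hT : 0 < T) (M D : ℕ) : Fam (UT T) xt M D (2 * D / T) where
  meas n := by
    unfold xt
    exact measurable_const.pow (Complex.measurable_ofReal.mul_const _)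
  mul t a b := xt_mul t a b
  one t := by unfold xt; simp
  norm1 t n hn _ := xt_norm t n hn
  bd t n := by
    rcases Nat.eq_zero_or_pos n with rfl | hn
    · unfold xt
      by_cases ht : t = 0
      · rw [ht]; simp
      · rw [Nat.cast_zero, Complex.zero_cpow (by simp [ht]), norm_zero]
        exact zero_le_one
    · exact (xt_norm t n hn).le
  orth x y hx hy hxD hyD hne := xt_orth hT D x y hx hy hxD hyD hne

theorem UT_real {T : ℝ} (hT : 0 < T) (S : Set ℝ) (B : ℝ) (hB : 0 ≤ B) (h : (UT T).real S ≤ B) :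
    volume (S ∩ Set.Icc 0 T) ≤ ENNReal.ofReal (B * T) := by
  have hfin : volume (S ∩ Set.Icc 0 T) ≠ ⊤ := by
    refine ne_top_of_le_ne_top ?_ (measure_mono Set.inter_subset_right)
    rw [Real.volume_Icc]
    exact ENNReal.ofReal_ne_top
  rw [measureReal_def] at h
  unfold UT at h
  rw [Measure.smul_apply, Measure.restrict_apply' measurableSet_Icc, smul_eq_mul, ENNReal.toReal_mul, ENNReal.toReal_inv,
    ENNReal.toReal_ofReal hT.le] at h
  rw [← ENNReal.ofReal_toReal hfin]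
  apply ENNReal.ofReal_le_ofReal
  have h2 : (volume (S ∩ Set.Icc 0 T)).toReal = T * (T⁻¹ * (volume (S ∩ Set.Icc 0 T)).toReal) := by
    field_simp
  rw [h2]
  calc T * (T⁻¹ * (volume (S ∩ Set.Icc 0 T)).toReal) ≤ T * B := mul_le_mul_of_nonneg_left h hT.le
    _ = B * T := mul_comm _ _

section

variable (q : ℕ) [Fact q.Prime]

/-- all sets of characters are measurable -/
instance chMS : MeasurableSpace (DirichletCharacter ℂ q) := ⊤

/-- the uniform measure on the characters -/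
noncomputable def UQ : Measure (DirichletCharacter ℂ q) :=
  ((Fintype.card (DirichletCharacter ℂ q) : ENNReal))⁻¹ • Measure.count

theorem card_ch : Fintype.card (DirichletCharacter ℂ q) = q - 1 := by
  have : NeZero q := ⟨(Fact.out : q.Prime).ne_zero⟩
  rw [← Nat.card_eq_fintype_card, DirichletCharacter.card_eq_totient_of_hasEnoughRootsOfUnity ℂ q,
    Nat.totient_prime (Fact.out : q.Prime)]

theorem card_ch_pos : 0 < Fintype.card (DirichletCharacter ℂ q) := by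
  rw [card_ch]
  have := (Fact.out : q.Prime).two_le
  omega

theorem UQ_real (S : Set (DirichletCharacter ℂ q)) : (UQ q).real S = (Fintype.card (DirichletCharacter ℂ q) : ℝ)⁻¹ * S.ncard := by
  classical
  rw [measureReal_def]
  unfold UQ
  rw [Measure.smul_apply, smul_eq_mul, ENNReal.toReal_mul, ENNReal.toReal_inv, ENNReal.toReal_natCast]
  congr 1
  rw [Measure.count_apply (MeasurableSpace.measurableSet_top), ← (Set.toFinite S).cast_ncard_eq, ENat.toENNReal_coe,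
    ENNReal.toReal_natCast]

theorem UQ_prob : IsProbabilityMeasure (UQ q) := ⟨by
  have h1 : (Fintype.card (DirichletCharacter ℂ q) : ENNReal) ≠ 0 := by
    exact_mod_cast (card_ch_pos q).ne'
  unfold UQ
  rw [Measure.smul_apply, smul_eq_mul, Measure.count_apply (MeasurableSpace.measurableSet_top), Set.encard_univ,
    ENat.card_eq_coe_fintype_card, ENat.toENNReal_coe]
  exact ENNReal.inv_mul_cancel h1 (ENNReal.natCast_ne_top _)⟩

/-- the values of a character at the natural numbers -/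
noncomputable def xc (χ : DirichletCharacter ℂ q) (n : ℕ) : ℂ := χ ((n : ℕ) : ZMod q)

theorem unit_of_lt (n : ℕ) (h1 : 1 ≤ n) (h2 : n < q) : IsUnit ((n : ℕ) : ZMod q) := by
  rw [ZMod.isUnit_iff_coprime]
  apply Nat.Coprime.symm
  exact ((Fact.out : q.Prime).coprime_iff_not_dvd).2 (Nat.not_dvd_of_pos_of_lt (by omega) h2)

theorem xc_orth (x y : ℕ) (hx : 1 ≤ x) (hy : 1 ≤ y) (hxD : x < q) (hyD : y < q) (hne : x ≠ y) :
    ∫ χ, xc q χ x * starRingEnd ℂ (xc q χ y) ∂(UQ q) = 0 := by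
  have : NeZero q := ⟨(Fact.out : q.Prime).ne_zero⟩
  unfold UQ
  rw [integral_smul_measure, integral_count]
  have h1 : ∀ χ : DirichletCharacter ℂ q, xc q χ x * starRingEnd ℂ (xc q χ y) = χ ((y : ZMod q))⁻¹ * χ (x : ZMod q) := by
    intro χ
    unfold xc
    rw [starRingEnd_apply, MulChar.star_apply', MulChar.inv_apply', mul_comm]
  rw [Finset.sum_congr rfl (fun χ _ => h1 χ), DirichletCharacter.sum_char_inv_mul_char_eq ℂ (unit_of_lt q y hy hyD), if_neg, smul_zero]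
  intro h
  apply hne
  rw [ZMod.natCast_eq_natCast_iff'] at h
  rw [Nat.mod_eq_of_lt hxD, Nat.mod_eq_of_lt hyD] at h
  exact h.symm

theorem fam_xc (M D : ℕ) (hM : M < q) (hD : D < q) : Fam (UQ q) (xc q) M D 0 where
  meas n := measurable_from_top
  mul χ a b := by unfold xc; push_cast; exact map_mul _ _ _
  one χ := by unfold xc; simp
  norm1 χ n h1 h2 := DirichletCharacter.unit_norm_eq_one χ (unit_of_lt q n h1 (by omega)).unit
  bd χ n := DirichletCharacter.norm_le_one χ _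
  orth x y hx hy hxD hyD hne := by
    rw [xc_orth q x y hx hy (by omega) (by omega) hne, norm_zero]

end

/-- the size of the parameters -/
theorem largeT (K : ℕ) (hK : 1 ≤ K) : ∃ η T₀ : ℝ, 0 < η ∧ 1 ≤ T₀ ∧ ∀ T : ℝ, T₀ ≤ T →
    2 * (9 * ((⌊T ^ η⌋₊ : ℕ) : ℝ)) ^ (4 * K + 2) ≤ T := by
  have hKr : (1 : ℝ) ≤ K := by exact_mod_cast hK
  obtain ⟨η, hη⟩ : ∃ η : ℝ, η = 1 / (2 * (4 * K + 2)) := ⟨_, rfl⟩
  have hη0 : 0 < η := by rw [hη]; positivity
  have hηK : η * (2 * (4 * K + 2)) = 1 := by rw [hη]; field_simp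
  refine ⟨η, (2 * (9 : ℝ) ^ (4 * K + 2)) ^ 2, hη0, ?_, ?_⟩
  · apply one_le_pow₀
    have : (1 : ℝ) ≤ 9 ^ (4 * K + 2) := one_le_pow₀ (by norm_num)
    linarith
  · intro T hT
    obtain ⟨A, hA⟩ : ∃ A : ℝ, A = 2 * (9 : ℝ) ^ (4 * K + 2) := ⟨_, rfl⟩
    have hA0 : 0 < A := by rw [hA]; positivity
    rw [← hA] at hT
    have hT0 : 0 < T := lt_of_lt_of_le (by positivity) hT
    have hs : A ≤ Real.sqrt T := by
      apply Real.le_sqrt_of_sq_le
      exact hT
    have hZ : ((⌊T ^ η⌋₊ : ℕ) : ℝ) ≤ T ^ η := Nat.floor_le (by positivity)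
    have hZ0 : (0 : ℝ) ≤ ((⌊T ^ η⌋₊ : ℕ) : ℝ) := Nat.cast_nonneg _
    have h1 : ((⌊T ^ η⌋₊ : ℕ) : ℝ) ^ (4 * K + 2) ≤ Real.sqrt T := by
      calc ((⌊T ^ η⌋₊ : ℕ) : ℝ) ^ (4 * K + 2) ≤ (T ^ η) ^ (4 * K + 2) := pow_le_pow_left₀ hZ0 hZ _
        _ = T ^ ((1 : ℝ) / 2) := by
          rw [← Real.rpow_natCast, ← Real.rpow_mul hT0.le]
          congr 1
          push_cast
          linarith
        _ = Real.sqrt T := (Real.sqrt_eq_rpow T).symm
    calc 2 * (9 * ((⌊T ^ η⌋₊ : ℕ) : ℝ)) ^ (4 * K + 2) = A * ((⌊T ^ η⌋₊ : ℕ) : ℝ) ^ (4 * K + 2) := by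
          rw [hA, mul_pow]; ring
      _ ≤ Real.sqrt T * Real.sqrt T := mul_le_mul hs h1 (by positivity) (by positivity)
      _ = T := Real.mul_self_sqrt hT0.le

theorem twists_c (ε δ : ℝ) (hε : 0 < ε) (hδ : 0 < δ) : ∃ η c C : ℝ, 0 < η ∧ 0 < c ∧ 0 < C ∧ ∀ g : ℕ → ℂ, SFC g →
    (∀ T : ℝ, 1 ≤ T → ∀ Y : ℝ, 1 ≤ Y →
      volume ({t : ℝ | ExcC ε δ Y (T ^ η) (fun n => g n * xt t n)} ∩ Set.Icc 0 T) ≤ ENNReal.ofReal (C * Y ^ (-c) * T)) ∧
    (∀ (q : ℕ) [Fact q.Prime], ∀ Y : ℝ, 1 ≤ Y →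
      (({χ : DirichletCharacter ℂ q | ExcC ε δ Y ((q : ℝ) ^ η) (fun n => g n * xc q χ n)}.ncard : ℕ) : ℝ) ≤ C * Y ^ (-c) * q) := by
  obtain ⟨K, hK, c, C, hc, hC, hmain⟩ := fam_main ε δ hε hδ
  obtain ⟨η, T₀, hη, hT₀, hlarge⟩ := largeT K hK
  refine ⟨η, c, C + (T₀ ^ η) ^ c, hη, hc, by positivity, ?_⟩
  intro g hg
  have hsmall : ∀ T : ℝ, 1 ≤ T → T ≤ T₀ → ∀ Y : ℝ, 1 ≤ Y → Y ≤ T ^ η → 1 ≤ (C + (T₀ ^ η) ^ c) * Y ^ (-c) := by
    intro T hT1 hT2 Y hY hYT
    have hY0 : 0 < Y := by linarith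
    have h1 : Y ≤ T₀ ^ η := hYT.trans (Real.rpow_le_rpow (by linarith) hT2 hη.le)
    have h2 : Y ^ c ≤ (T₀ ^ η) ^ c := Real.rpow_le_rpow hY0.le h1 hc.le
    have h3 : Y ^ c * Y ^ (-c) = 1 := by
      rw [← Real.rpow_add hY0]; simp
    have h4 : 0 < Y ^ (-c) := by positivity
    nlinarith
  have hempty : ∀ (T Y : ℝ) (f : ℕ → ℂ), T ^ η < Y → ¬ ExcC ε δ Y (T ^ η) f := by
    rintro T Y f h ⟨X, h1, h2, _⟩
    linarith
  have hZc : ∀ T : ℝ, T₀ ≤ T → (9 * (⌊T ^ η⌋₊ : ℕ)) ^ (2 * K) * 2 ≤ ⌊T⌋₊ ∧ 9 * ⌊T ^ η⌋₊ * 2 ≤ ⌊T⌋₊ ∧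
      2 * (9 * ((⌊T ^ η⌋₊ : ℕ) : ℝ)) ^ (4 * K + 2) ≤ T ∧ 1 ≤ ⌊T ^ η⌋₊ := by
    intro T hT
    have h1 := hlarge T hT
    have hT1 : 1 ≤ T := hT₀.trans hT
    have hZ1 : 1 ≤ ⌊T ^ η⌋₊ := Nat.le_floor (by exact_mod_cast Real.one_le_rpow hT1 hη.le)
    have h2 : 2 * (9 * ⌊T ^ η⌋₊) ^ (4 * K + 2) ≤ ⌊T⌋₊ := by
      apply Nat.le_floor
      push_cast
      exact h1
    refine ⟨?_, ?_, h1, hZ1⟩
    · refine le_trans ?_ h2
      rw [mul_comm]
      exact Nat.mul_le_mul_left _ (Nat.pow_le_pow_right (by omega) (by omega))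
    · refine le_trans ?_ h2
      rw [mul_comm]
      apply Nat.mul_le_mul_left
      calc 9 * ⌊T ^ η⌋₊ = (9 * ⌊T ^ η⌋₊) ^ 1 := (pow_one _).symm
        _ ≤ _ := Nat.pow_le_pow_right (by omega) (by omega)
  constructor
  · intro T hT Y hY
    have hT0 : 0 < T := by linarith
    have hY0 : 0 < Y := by linarith
    have hYc : 0 < Y ^ (-c) := by positivity
    rcases lt_or_ge (T ^ η) Y with h | h
    · have : {t : ℝ | ExcC ε δ Y (T ^ η) (fun n => g n * xt t n)} = ∅ := by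
        rw [Set.eq_empty_iff_forall_notMem]
        intro t ht
        exact hempty T Y _ h ht
      rw [this, Set.empty_inter, measure_empty]
      exact zero_le
    rcases le_or_gt T T₀ with hTT | hTT
    · have h1 := hsmall T hT hTT Y hY h
      calc volume ({t : ℝ | ExcC ε δ Y (T ^ η) (fun n => g n * xt t n)} ∩ Set.Icc 0 T) ≤ volume (Set.Icc 0 T) :=
            measure_mono Set.inter_subset_right
        _ = ENNReal.ofReal T := by rw [Real.volume_Icc, sub_zero]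
        _ ≤ _ := ENNReal.ofReal_le_ofReal (by nlinarith)
    · obtain ⟨h1, h2, h3, h4⟩ := hZc T hTT.le
      have hP := UT_prob hT0
      have h5 := hmain (fam_xt hT0 (9 * ⌊T ^ η⌋₊) ((9 * ⌊T ^ η⌋₊) ^ (2 * K))) (by positivity) g hg (T ^ η) ⌊T ^ η⌋₊ le_rfl
        le_rfl le_rfl (by
          push_cast
          rw [div_mul_eq_mul_div, div_le_one hT0]
          refine le_trans (le_of_eq ?_) h3
          rw [mul_assoc, ← pow_add]
          congr 2
          ring) Y hY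
      refine (UT_real hT0 _ (C * Y ^ (-c)) (by positivity) h5).trans ?_
      apply ENNReal.ofReal_le_ofReal
      apply mul_le_mul_of_nonneg_right _ hT0.le
      apply mul_le_mul_of_nonneg_right _ hYc.le
      have : 0 < (T₀ ^ η) ^ c := by positivity
      linarith
  · intro q _ Y hY
    have hq := (Fact.out : q.Prime)
    have hq2 : (2 : ℝ) ≤ q := by exact_mod_cast hq.two_le
    have hq0 : (0 : ℝ) < q := by linarith
    have hY0 : 0 < Y := by linarith
    have hYc : 0 < Y ^ (-c) := by positivity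
    have hcard : (Fintype.card (DirichletCharacter ℂ q) : ℝ) ≤ q := by
      rw [card_ch]
      exact_mod_cast Nat.sub_le _ _
    rcases lt_or_ge ((q : ℝ) ^ η) Y with h | h
    · have : {χ : DirichletCharacter ℂ q | ExcC ε δ Y ((q : ℝ) ^ η) (fun n => g n * xc q χ n)} = ∅ := by
        rw [Set.eq_empty_iff_forall_notMem]
        intro t ht
        exact hempty q Y _ h ht
      rw [this, Set.ncard_empty, Nat.cast_zero]
      positivity
    rcases le_or_gt (q : ℝ) T₀ with hTT | hTT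
    · have h1 := hsmall q (by linarith) hTT Y hY h
      have h2 : (({χ : DirichletCharacter ℂ q | ExcC ε δ Y ((q : ℝ) ^ η) (fun n => g n * xc q χ n)}.ncard : ℕ) : ℝ) ≤
          (Fintype.card (DirichletCharacter ℂ q) : ℝ) := by
        have h3 := Set.ncard_le_ncard (Set.subset_univ {χ : DirichletCharacter ℂ q | ExcC ε δ Y ((q : ℝ) ^ η) (fun n => g n * xc q χ n)})
        rw [Set.ncard_univ, Nat.card_eq_fintype_card] at h3
        exact_mod_cast h3
      nlinarith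
    · obtain ⟨h1, h2, h3, h4⟩ := hZc q hTT.le
      rw [Nat.floor_natCast] at h1 h2
      have hP := UQ_prob q
      have hp1 : 1 ≤ (9 * ⌊(q : ℝ) ^ η⌋₊) ^ (2 * K) := Nat.one_le_pow _ _ (by omega)
      have h5 := hmain (fam_xc q (9 * ⌊(q : ℝ) ^ η⌋₊) ((9 * ⌊(q : ℝ) ^ η⌋₊) ^ (2 * K)) (by omega) (by omega)) le_rfl g hg
        ((q : ℝ) ^ η) ⌊(q : ℝ) ^ η⌋₊ le_rfl le_rfl le_rfl (by rw [zero_mul]; exact zero_le_one) Y hY
      rw [UQ_real] at h5
      have hpos : (0 : ℝ) < (Fintype.card (DirichletCharacter ℂ q) : ℝ) := by exact_mod_cast card_ch_pos q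
      rw [inv_mul_le_iff₀ hpos] at h5
      have h6 : (Fintype.card (DirichletCharacter ℂ q) : ℝ) * (C * Y ^ (-c)) ≤ q * (C * Y ^ (-c)) :=
        mul_le_mul_of_nonneg_right hcard (by positivity)
      have h7 : 0 ≤ q * ((T₀ ^ η) ^ c * Y ^ (-c)) := by positivity
      calc _ ≤ (Fintype.card (DirichletCharacter ℂ q) : ℝ) * (C * Y ^ (-c)) := h5
        _ ≤ q * (C * Y ^ (-c)) := h6
        _ ≤ q * (C * Y ^ (-c)) + q * ((T₀ ^ η) ^ c * Y ^ (-c)) := by linarith
        _ = _ := by ring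

end Pool.Agent.K4H49.GT
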