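import Pool.Agent.K4H49.GT.Abs
import Pool.Agent.K4H49.GT.Even

/-!
# The moments of the components of a complex valued function
-/

set_option autoImplicit false

namespace Pool.Agent.K4H49.GT

open Finset
open Pool.Agent.K4H14.GC

/-- unimodular on the squarefree numbers up to `M`, zero on the other ones -/
def CRad (f : ℕ → ℂ) (M : ℕ) : Prop :=
  ∀ m, 1 ≤ m → m ≤ M → (Squarefree m → ‖f m‖ = 1) ∧ (¬ Squarefree m → f m = 0)

/-- the component of `√2 f` in the direction `u` -/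
noncomputable def Fu (u : ℂ) (f : ℕ → ℂ) (n : ℕ) : ℝ := Real.sqrt 2 * (starRingEnd ℂ u * f n).re

/-- the sum of the squares over a window -/
noncomputable def QQc (f : ℕ → ℂ) (h n : ℕ) : ℂ := ∑ m ∈ Ioc n (n + h), f m ^ 2

/-- the number or its conjugate -/
noncomputable def cj (e : Bool) (z : ℂ) : ℂ := if e then starRingEnd ℂ z else z

theorem cj_mul (e : Bool) (z w : ℂ) : cj e (z * w) = cj e z * cj e w := by
  unfold cj
  split_ifs
  · exact map_mul _ _ _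
  · rfl

theorem cj_norm (e : Bool) (z : ℂ) : ‖cj e z‖ = ‖z‖ := by
  unfold cj
  split_ifs
  · exact RCLike.norm_conj z
  · rfl

/-- squarefree tuples of close numbers of `(N, R N + h]` in which some value occurs an odd number of times -/
noncomputable def OT (N R h k : ℕ) : Finset (Fin k → ℕ) :=
  open Classical in (Fintype.piFinset (fun _ : Fin k => Ioc N (R * N + h))).filter
    (fun t => (∀ i j, t i ≤ t j + h) ∧ (∀ i, Squarefree (t i)) ∧ ¬ Prd t)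

theorem mem_OT {N R h k : ℕ} {t : Fin k → ℕ} :
    t ∈ OT N R h k ↔ (∀ i, N < t i ∧ t i ≤ R * N + h) ∧ (∀ i j, t i ≤ t j + h) ∧ (∀ i, Squarefree (t i)) ∧ ¬ Prd t := by
  classical
  unfold OT
  simp only [mem_filter, Fintype.mem_piFinset, mem_Ioc]

/-- the sum over these tuples, with prescribed conjugations -/
noncomputable def SE (f : ℕ → ℂ) (N R h k : ℕ) (e : Fin k → Bool) : ℂ :=
  ∑ t ∈ OT N R h k, (cw N R h t : ℂ) * ∏ i, cj (e i) (f (t i))

/-- the part of the moment which comes from the tuples with a value which occurs an odd number of times -/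
noncomputable def BBo (F : ℕ → ℝ) (k h n : ℕ) : ℝ :=
  open Classical in ∑ t ∈ (TT k h n).filter (fun t => ¬ Prd t), ∏ i, F (t i)

theorem sum_BBo (F : ℕ → ℝ) (N R h k : ℕ) :
    ∑ n ∈ Ioc N (R * N), BBo F k h n = ∑ t ∈ OT N R h k, (cw N R h t : ℝ) * ∏ i, F (t i) := by
  classical
  have h1 : ∀ n ∈ Ioc N (R * N), BBo F k h n = ∑ t ∈ OT N R h k, if (∀ i, n < t i ∧ t i ≤ n + h) then ∏ i, F (t i) else 0 := by
    intro n hn
    rw [mem_Ioc] at hn
    unfold BBo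
    rw [← sum_filter]
    apply sum_congr _ (fun _ _ => rfl)
    ext t
    rw [mem_filter, mem_filter, mem_TT, mem_OT]
    constructor
    · rintro ⟨a, b⟩
      exact ⟨⟨fun i => ⟨by have := (a i).1; omega, by have := (a i).1; omega⟩, fun i j => by
        have c := (a i).1; have d := (a j).1; omega, fun i => (a i).2, b⟩, fun i => (a i).1⟩
    · rintro ⟨⟨a, b, c, d⟩, e⟩
      exact ⟨fun i => ⟨e i, c i⟩, d⟩
  rw [sum_congr rfl h1, sum_comm]
  apply sum_congr rfl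
  intro t _
  rw [← sum_filter, sum_const, nsmul_eq_mul]
  rfl

theorem sqrt2_le : Real.sqrt 2 ≤ 2 := by
  rw [Real.sqrt_le_left (by norm_num)]
  norm_num

theorem Fu_abs {u : ℂ} (hu : ‖u‖ = 1) {f : ℕ → ℂ} (hf : ∀ n, ‖f n‖ ≤ 1) (n : ℕ) : |Fu u f n| ≤ 2 := by
  unfold Fu
  rw [abs_mul, abs_of_nonneg (Real.sqrt_nonneg _)]
  have h1 : |(starRingEnd ℂ u * f n).re| ≤ 1 := by
    refine (Complex.abs_re_le_norm _).trans ?_
    rw [norm_mul, RCLike.norm_conj, hu, one_mul]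
    exact hf n
  calc Real.sqrt 2 * |(starRingEnd ℂ u * f n).re| ≤ 2 * 1 := mul_le_mul sqrt2_le h1 (abs_nonneg _) (by norm_num)
    _ = 2 := by norm_num

theorem Fu_cast (u : ℂ) (f : ℕ → ℂ) (n : ℕ) : ((Fu u f n : ℝ) : ℂ) =
    ((Real.sqrt 2 / 2 : ℝ) : ℂ) * ∑ b : Bool, cj b (starRingEnd ℂ u) * cj b (f n) := by
  have h1 : ∑ b : Bool, cj b (starRingEnd ℂ u) * cj b (f n) = 2 * ((starRingEnd ℂ u * f n).re : ℂ) := by
    rw [Fintype.sum_bool]
    rw [← cj_mul, ← cj_mul]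
    unfold cj
    simp only [if_true, Bool.false_eq_true, if_false]
    rw [add_comm, Complex.add_conj]
    push_cast
    ring
  rw [h1]
  unfold Fu
  push_cast
  ring

theorem prod_Fu (u : ℂ) (f : ℕ → ℂ) (k : ℕ) (t : Fin k → ℕ) : ((∏ i, Fu u f (t i) : ℝ) : ℂ) =
    ((Real.sqrt 2 / 2 : ℝ) : ℂ) ^ k * ∑ e : Fin k → Bool, (∏ i, cj (e i) (starRingEnd ℂ u)) * ∏ i, cj (e i) (f (t i)) := by
  classical
  rw [Complex.ofReal_prod]
  simp only [Fu_cast]
  rw [prod_mul_distrib, prod_const, card_univ, Fintype.card_fin, prod_univ_sum, Fintype.piFinset_univ]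
  congr 1
  apply sum_congr rfl
  intro e _
  rw [prod_mul_distrib]

theorem sum_BBo_le (f : ℕ → ℂ) (N R h k : ℕ) (u : ℂ) (hu : ‖u‖ = 1) (B : ℝ) (hB : 0 ≤ B)
    (hS : ∀ e : Fin k → Bool, ‖SE f N R h k e‖ ≤ B) :
    |∑ n ∈ Ioc N (R * N), BBo (Fu u f) k h n| ≤ 2 ^ k * B := by
  classical
  have h1 : ((∑ n ∈ Ioc N (R * N), BBo (Fu u f) k h n : ℝ) : ℂ) =
      ((Real.sqrt 2 / 2 : ℝ) : ℂ) ^ k * ∑ e : Fin k → Bool, (∏ i, cj (e i) (starRingEnd ℂ u)) * SE f N R h k e := by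
    rw [sum_BBo, Complex.ofReal_sum]
    have h2 : ∀ t ∈ OT N R h k, (((cw N R h t : ℝ) * ∏ i, Fu u f (t i) : ℝ) : ℂ) =
        ((Real.sqrt 2 / 2 : ℝ) : ℂ) ^ k * ∑ e : Fin k → Bool, (∏ i, cj (e i) (starRingEnd ℂ u)) * ((cw N R h t : ℂ) * ∏ i, cj (e i) (f (t i))) := by
      intro t _
      rw [Complex.ofReal_mul, prod_Fu, Complex.ofReal_natCast, mul_left_comm]
      congr 1
      rw [mul_sum]
      apply sum_congr rfl
      intro e _
      ring
    rw [sum_congr rfl h2, ← mul_sum, sum_comm]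
    congr 1
    apply sum_congr rfl
    intro e _
    unfold SE
    rw [mul_sum]
  have h2 : |∑ n ∈ Ioc N (R * N), BBo (Fu u f) k h n| = ‖((∑ n ∈ Ioc N (R * N), BBo (Fu u f) k h n : ℝ) : ℂ)‖ := by
    rw [Complex.norm_real, Real.norm_eq_abs]
  rw [h2, h1, norm_mul, norm_pow, Complex.norm_real, Real.norm_eq_abs, abs_of_nonneg (by positivity)]
  have h3 : ‖∑ e : Fin k → Bool, (∏ i, cj (e i) (starRingEnd ℂ u)) * SE f N R h k e‖ ≤ 2 ^ k * B := by
    refine (norm_sum_le _ _).trans ?_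
    calc ∑ e : Fin k → Bool, ‖(∏ i, cj (e i) (starRingEnd ℂ u)) * SE f N R h k e‖ ≤ ∑ _e : Fin k → Bool, B := by
          apply sum_le_sum
          intro e _
          rw [norm_mul, norm_prod]
          have : ∏ i, ‖cj (e i) (starRingEnd ℂ u)‖ = 1 := by
            apply prod_eq_one
            intro i _
            rw [cj_norm, RCLike.norm_conj, hu]
          rw [this, one_mul]
          exact hS e
      _ = 2 ^ k * B := by
          rw [sum_const, card_univ, Fintype.card_fun, Fintype.card_bool, Fintype.card_fin, nsmul_eq_mul]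
          push_cast
          ring
  have h4 : (Real.sqrt 2 / 2) ^ k ≤ 1 := by
    apply pow_le_one₀ (by positivity)
    have := sqrt2_le
    linarith
  calc (Real.sqrt 2 / 2) ^ k * ‖∑ e : Fin k → Bool, (∏ i, cj (e i) (starRingEnd ℂ u)) * SE f N R h k e‖ ≤
      1 * (2 ^ k * B) := mul_le_mul h4 h3 (norm_nonneg _) (by norm_num)
    _ = _ := one_mul _

/-- the squarefree numbers of a window -/
noncomputable def SS (h n : ℕ) : Finset ℕ := open Classical in (Ioc n (n + h)).filter (fun m => Squarefree m)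

theorem SS_card (h n : ℕ) : (SS h n).card = sf h n := rfl

theorem decomp_u {f : ℕ → ℂ} {M h n : ℕ} (hf : CRad f M) (hY : n + h ≤ M) (u : ℂ) (k : ℕ) :
    W (Fu u f) h n ^ k = SM k (SS h n) (Fu u f) + BBo (Fu u f) k h n := by
  classical
  have h0 : W (Fu u f) h n = ∑ m ∈ SS h n, Fu u f m := by
    unfold W SS
    rw [sum_filter]
    apply sum_congr rfl
    intro m hm
    rw [mem_Ioc] at hm
    split_ifs with hs
    · rfl
    · unfold Fu
      rw [(hf m (by omega) (by omega)).2 hs]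
      simp
  have h1 : W (Fu u f) h n ^ k = ∑ t ∈ TT k h n, ∏ i, Fu u f (t i) := by
    rw [h0]
    unfold TT SS
    rw [← prod_univ_sum]
    simp only [prod_const, card_univ, Fintype.card_fin]
  rw [h1, ← sum_filter_add_sum_filter_not (TT k h n) (fun t => Prd t)]
  congr 1
  · have := pair_w k (SS h n) (Fu u f)
    rw [← this]
    rfl

theorem Fu_sq {u : ℂ} (hu : ‖u‖ = 1) {f : ℕ → ℂ} {m : ℕ} (hm : ‖f m‖ = 1) :
    Fu u f m ^ 2 = 1 + (starRingEnd ℂ u ^ 2 * f m ^ 2).re := by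
  unfold Fu
  rw [mul_pow, Real.sq_sqrt (by norm_num)]
  obtain ⟨z, hz⟩ : ∃ z, z = starRingEnd ℂ u * f m := ⟨_, rfl⟩
  have h1 : ‖z‖ = 1 := by rw [hz, norm_mul, RCLike.norm_conj, hu, hm, one_mul]
  rw [← mul_pow, ← hz]
  have h2 : z.re ^ 2 + z.im ^ 2 = 1 := by
    have := Complex.sq_norm z
    rw [h1, Complex.normSq_apply] at this
    nlinarith
  rw [sq z, Complex.mul_re]
  nlinarith

theorem V_eq {f : ℕ → ℂ} {M h n : ℕ} (hf : CRad f M) (hY : n + h ≤ M) {u : ℂ} (hu : ‖u‖ = 1) :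
    ∑ v ∈ SS h n, Fu u f v ^ 2 = (sf h n : ℝ) + (starRingEnd ℂ u ^ 2 * QQc f h n).re := by
  classical
  have h1 : ∀ v ∈ SS h n, Fu u f v ^ 2 = 1 + (starRingEnd ℂ u ^ 2 * f v ^ 2).re := by
    intro v hv
    unfold SS at hv
    rw [mem_filter, mem_Ioc] at hv
    exact Fu_sq hu ((hf v (by omega) (by omega)).1 hv.2)
  rw [sum_congr rfl h1, sum_add_distrib, sum_const, SS_card, nsmul_eq_mul, mul_one]
  congr 1
  have h2 : QQc f h n = ∑ v ∈ SS h n, f v ^ 2 := by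
    unfold QQc SS
    rw [sum_filter]
    apply sum_congr rfl
    intro m hm
    rw [mem_Ioc] at hm
    split_ifs with hs
    · rfl
    · rw [(hf m (by omega) (by omega)).2 hs]
      simp
  rw [h2, mul_sum, Complex.re_sum]

theorem SM_close (k : ℕ) : ∃ C : ℝ, 0 ≤ C ∧ ∀ h : ℕ, 1 ≤ h → ∀ F : ℕ → ℝ, (∀ v, |F v| ≤ 2) →
    ∀ S : Finset ℕ, S.card ≤ h → |SM k S F - gk k * (∑ v ∈ S, F v ^ 2) ^ (k / 2)| ≤ C * Real.sqrt h ^ k / h := by
  rcases Nat.even_or_odd k with he | ho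
  · obtain ⟨p, hp⟩ := he
    have hp' : k = 2 * p := by omega
    obtain ⟨C, hC, h1⟩ := even_main p
    refine ⟨C, hC, ?_⟩
    intro h hh F hF S hS
    have h2 := h1 h hh F hF S hS
    have e1 : Real.sqrt h ^ k = (h : ℝ) ^ p := by
      rw [hp', pow_mul, Real.sq_sqrt (Nat.cast_nonneg _)]
    unfold gk
    rw [if_pos ⟨p, hp⟩, e1, hp', show 2 * p / 2 = p by omega]
    exact h2
  · refine ⟨0, le_rfl, ?_⟩
    intro h hh F hF S hS
    unfold gk
    rw [SM_odd k ho, if_neg (Nat.not_even_iff_odd.2 ho)]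
    simp

theorem mom_one (k R : ℕ) (hR : 1 ≤ R) (hR8 : R ≤ 8) :
    ∃ B : ℝ, 0 ≤ B ∧ ∀ κ : ℝ, 0 < κ → ∀ N h : ℕ, 1 ≤ N → (N : ℝ) ^ κ ≤ h → (h : ℝ) * (N : ℝ) ^ κ ≤ N →
      ∀ f : ℕ → ℂ, (∀ n, ‖f n‖ ≤ 1) → CRad f (9 * N) →
      ∑ n ∈ Ioc N (R * N), ‖QQc f h n‖ ^ 2 ≤ (h : ℝ) ^ 2 * (N : ℝ) ^ (1 - κ / 8) →
      (∀ e : Fin k → Bool, ‖SE f N R h k e‖ ≤ (N : ℝ) ^ (1 - κ / 16) * Real.sqrt h ^ k) →
      ∀ u : ℂ, ‖u‖ = 1 →
      |∑ n ∈ Ioc N (R * N), W (Fu u f) h n ^ k - ((R * N - N : ℕ) : ℝ) * (gk k * sg h ^ k)| ≤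
        B * (N : ℝ) ^ (1 - κ / 16) * Real.sqrt h ^ k := by
  obtain ⟨C, hC, hclose⟩ := SM_close k
  obtain ⟨D, hD⟩ : ∃ D : ℝ, D = gk k := ⟨_, rfl⟩
  have hD0 : 0 ≤ D := by
    rw [hD]; unfold gk
    split_ifs
    · exact Nat.cast_nonneg _
    · exact le_rfl
  refine ⟨R * C + D * ((k / 2 : ℕ) : ℝ) * 4 ^ (k / 2) * (9 * R) + 2 ^ k, by positivity, ?_⟩
  intro κ hκ N h hN hNh hhN f hfb hf hQ hS u hu
  have hNr : (1 : ℝ) ≤ N := by exact_mod_cast hN
  have hN0 : (0 : ℝ) < N := by linarith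
  have hs1 : (1 : ℝ) ≤ (N : ℝ) ^ κ := Real.one_le_rpow hNr hκ.le
  have hh1 : (1 : ℝ) ≤ h := hs1.trans hNh
  have hh1' : 1 ≤ h := by exact_mod_cast hh1
  have hh0 : (0 : ℝ) < h := by linarith
  have hhN' : h ≤ N := by
    have h2 : (h : ℝ) ≤ N := by nlinarith
    exact_mod_cast h2
  have hsq0 : (0 : ℝ) < Real.sqrt h := Real.sqrt_pos.2 hh0
  have hsq1 : (1 : ℝ) ≤ Real.sqrt h := Real.one_le_sqrt.2 hh1
  have hss : Real.sqrt h * Real.sqrt h = h := Real.mul_self_sqrt hh0.le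
  obtain ⟨E, hE⟩ : ∃ E : ℝ, E = (N : ℝ) ^ (1 - κ / 16) := ⟨_, rfl⟩
  have hE0 : 0 < E := by rw [hE]; positivity
  obtain ⟨G, hG⟩ : ∃ G : ℝ, G = Real.sqrt h ^ k := ⟨_, rfl⟩
  have hG0 : 0 < G := by rw [hG]; positivity
  -- `N ≤ E √h`
  have hNE : (N : ℝ) ≤ E * Real.sqrt h := by
    have h7 : (N : ℝ) ^ (κ / 2) ≤ Real.sqrt h := by
      apply Real.le_sqrt_of_sq_le
      rw [← Real.rpow_natCast, ← Real.rpow_mul hN0.le]
      refine le_trans (le_of_eq ?_) hNh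
      congr 1
      push_cast
      ring
    calc (N : ℝ) = (N : ℝ) ^ ((1 - κ / 16) + κ / 16) := by
          rw [show (1 - κ / 16) + κ / 16 = (1 : ℝ) by ring, Real.rpow_one]
      _ = E * (N : ℝ) ^ (κ / 16) := by rw [hE]; exact Real.rpow_add hN0 _ _
      _ ≤ E * (N : ℝ) ^ (κ / 2) := by
          apply mul_le_mul_of_nonneg_left _ hE0.le
          apply Real.rpow_le_rpow_of_exponent_le hNr
          linarith
      _ ≤ _ := mul_le_mul_of_nonneg_left h7 hE0.le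
  have hNE2 : (N : ℝ) ≤ E * h := by
    refine hNE.trans (mul_le_mul_of_nonneg_left ?_ hE0.le)
    calc Real.sqrt h = 1 * Real.sqrt h := (one_mul _).symm
      _ ≤ Real.sqrt h * Real.sqrt h := mul_le_mul_of_nonneg_right hsq1 hsq0.le
      _ = h := hss
  have hcard : ((Ioc N (R * N)).card : ℝ) ≤ R * N := by
    rw [Nat.card_Ioc]
    have : R * N - N ≤ R * N := Nat.sub_le _ _
    exact_mod_cast this
  -- the sum of the norms of `QQc`
  have hQ1 : ∑ n ∈ Ioc N (R * N), ‖QQc f h n‖ ≤ R * h * E := by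
    have h1 := sq_sum_le_card_mul_sum_sq (s := Ioc N (R * N)) (f := fun n => ‖QQc f h n‖)
    have h2 : (∑ n ∈ Ioc N (R * N), ‖QQc f h n‖) ^ 2 ≤ (R * N) * ((h : ℝ) ^ 2 * (N : ℝ) ^ (1 - κ / 8)) := by
      refine h1.trans ?_
      exact mul_le_mul hcard hQ (sum_nonneg fun _ _ => sq_nonneg _) (by positivity)
    have h3 : (N : ℝ) * (N : ℝ) ^ (1 - κ / 8) = E ^ 2 := by
      rw [hE, ← Real.rpow_natCast ((N : ℝ) ^ (1 - κ / 16)) 2, ← Real.rpow_mul hN0.le]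
      nth_rewrite 1 [← Real.rpow_one (N : ℝ)]
      rw [← Real.rpow_add hN0]
      congr 1
      push_cast
      ring
    have h4 : (R * N) * ((h : ℝ) ^ 2 * (N : ℝ) ^ (1 - κ / 8)) ≤ (R * h * E) ^ 2 := by
      have hR1 : (1 : ℝ) ≤ R := by exact_mod_cast hR
      calc (R * N) * ((h : ℝ) ^ 2 * (N : ℝ) ^ (1 - κ / 8)) = R * ((h : ℝ) ^ 2 * (N * (N : ℝ) ^ (1 - κ / 8))) := by ring
        _ = R * ((h : ℝ) ^ 2 * E ^ 2) := by rw [h3]
        _ ≤ (R * R) * ((h : ℝ) ^ 2 * E ^ 2) := by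
            apply mul_le_mul_of_nonneg_right _ (by positivity)
            nlinarith
        _ = _ := by ring
    exact abs_le_of_sq_le_sq' (h2.trans h4) (by positivity) |>.2
  -- pointwise
  have hpt : ∀ n ∈ Ioc N (R * N), |W (Fu u f) h n ^ k - gk k * sg h ^ k - BBo (Fu u f) k h n| ≤
      C * G / h + D * ((k / 2 : ℕ) : ℝ) * 4 ^ (k / 2) * G / h * (|(sf h n : ℝ) - 6 / Real.pi ^ 2 * h| + ‖QQc f h n‖) := by
    intro n hn
    rw [mem_Ioc] at hn
    have hnM : n + h ≤ 9 * N := by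
      have : R * N ≤ 8 * N := Nat.mul_le_mul_right _ hR8
      omega
    have h1 := decomp_u hf hnM u k
    have h2 := hclose h hh1' (Fu u f) (Fu_abs hu hfb) (SS h n) (by rw [SS_card]; exact sf_le h n)
    have h3 := V_eq hf hnM hu
    obtain ⟨V, hV⟩ : ∃ V, V = ∑ v ∈ SS h n, Fu u f v ^ 2 := ⟨_, rfl⟩
    rw [← hV] at h2 h3
    have hV0 : 0 ≤ V := by rw [hV]; exact sum_nonneg fun _ _ => sq_nonneg _
    have hV4 : V ≤ 4 * h := by
      rw [hV]
      calc ∑ v ∈ SS h n, Fu u f v ^ 2 ≤ ∑ _v ∈ SS h n, (4 : ℝ) := by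
            apply sum_le_sum
            intro v _
            rw [← sq_abs]
            have := Fu_abs hu hfb v
            nlinarith [abs_nonneg (Fu u f v)]
        _ = (sf h n : ℝ) * 4 := by rw [sum_const, nsmul_eq_mul, SS_card]
        _ ≤ h * 4 := by
            apply mul_le_mul_of_nonneg_right _ (by norm_num)
            exact_mod_cast sf_le h n
        _ = 4 * h := by ring
    have h4 : |V - 6 / Real.pi ^ 2 * h| ≤ |(sf h n : ℝ) - 6 / Real.pi ^ 2 * h| + ‖QQc f h n‖ := by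
      rw [h3]
      have e1 : (sf h n : ℝ) + (starRingEnd ℂ u ^ 2 * QQc f h n).re - 6 / Real.pi ^ 2 * h =
          ((sf h n : ℝ) - 6 / Real.pi ^ 2 * h) + (starRingEnd ℂ u ^ 2 * QQc f h n).re := by ring
      rw [e1]
      refine (abs_add_le _ _).trans (add_le_add le_rfl ?_)
      refine (Complex.abs_re_le_norm _).trans ?_
      rw [norm_mul, norm_pow, RCLike.norm_conj, hu, one_pow, one_mul]
    have h5 : |gk k * V ^ (k / 2) - gk k * sg h ^ k| ≤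
        D * ((k / 2 : ℕ) : ℝ) * 4 ^ (k / 2) * G / h * (|(sf h n : ℝ) - 6 / Real.pi ^ 2 * h| + ‖QQc f h n‖) := by
      rcases Nat.even_or_odd k with he | ho
      · obtain ⟨a, ha⟩ := he
        have ha2 : k / 2 = a := by omega
        have e1 : sg h ^ k = (6 / Real.pi ^ 2 * h) ^ a := by
          rw [← sg_sq, ← pow_mul]
          congr 1
          omega
        have e2 : G = (h : ℝ) ^ a := by
          rw [hG, show k = 2 * a by omega, pow_mul, Real.sq_sqrt hh0.le]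
        have h6 := pow_diff a V (6 / Real.pi ^ 2 * h) (4 * h) hV0 (by positivity) hV4 (by
          calc 6 / Real.pi ^ 2 * (h : ℝ) ≤ 1 * h := mul_le_mul_of_nonneg_right six_le hh0.le
            _ ≤ 4 * h := by linarith)
        rw [e1, ha2, ← hD, ← mul_sub, abs_mul, abs_of_nonneg hD0, e2]
        have h7 : |V ^ a - (6 / Real.pi ^ 2 * h) ^ a| ≤ a * 4 ^ a * (h : ℝ) ^ a / h * |V - 6 / Real.pi ^ 2 * h| := by
          have h8 : |V ^ a - (6 / Real.pi ^ 2 * h) ^ a| * (4 * h) ≤ (a * 4 ^ a * (h : ℝ) ^ a / h * |V - 6 / Real.pi ^ 2 * h|) * (4 * h) := by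
            refine h6.trans ?_
            rw [mul_pow]
            have e3 : (a * 4 ^ a * (h : ℝ) ^ a / h * |V - 6 / Real.pi ^ 2 * h|) * (4 * h) = 4 * (a * 4 ^ a * (h : ℝ) ^ a * |V - 6 / Real.pi ^ 2 * h|) := by
              field_simp
            rw [e3]
            have h9 : 0 ≤ a * 4 ^ a * (h : ℝ) ^ a * |V - 6 / Real.pi ^ 2 * h| := by positivity
            calc (a : ℝ) * (4 ^ a * (h : ℝ) ^ a) * |V - 6 / Real.pi ^ 2 * h| = a * 4 ^ a * (h : ℝ) ^ a * |V - 6 / Real.pi ^ 2 * h| := by ring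
              _ ≤ _ := by linarith
          exact le_of_mul_le_mul_right h8 (by positivity)
        calc D * |V ^ a - (6 / Real.pi ^ 2 * h) ^ a| ≤ D * (a * 4 ^ a * (h : ℝ) ^ a / h * |V - 6 / Real.pi ^ 2 * h|) :=
              mul_le_mul_of_nonneg_left h7 hD0
          _ ≤ D * (a * 4 ^ a * (h : ℝ) ^ a / h * (|(sf h n : ℝ) - 6 / Real.pi ^ 2 * h| + ‖QQc f h n‖)) := by
              apply mul_le_mul_of_nonneg_left _ hD0
              exact mul_le_mul_of_nonneg_left h4 (by positivity)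
          _ = _ := by ring
      · have e1 : gk k = 0 := by
          unfold gk
          rw [if_neg (Nat.not_even_iff_odd.2 ho)]
        rw [e1, zero_mul, zero_mul, sub_zero, abs_zero]
        positivity
    have e : W (Fu u f) h n ^ k - gk k * sg h ^ k - BBo (Fu u f) k h n =
        (SM k (SS h n) (Fu u f) - gk k * V ^ (k / 2)) + (gk k * V ^ (k / 2) - gk k * sg h ^ k) := by
      rw [h1]; ring
    rw [e]
    rw [← hG] at h2
    exact (abs_add_le _ _).trans (add_le_add h2 h5)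
  -- the sum
  have hsumA : ∑ n ∈ Ioc N (R * N), |W (Fu u f) h n ^ k - gk k * sg h ^ k - BBo (Fu u f) k h n| ≤
      (R * C + D * ((k / 2 : ℕ) : ℝ) * 4 ^ (k / 2) * (9 * R)) * E * G := by
    refine (sum_le_sum hpt).trans ?_
    rw [sum_add_distrib, sum_const, nsmul_eq_mul, ← mul_sum, sum_add_distrib]
    have h3 := sf_mean R hR N h hN hh1' hhN'
    have h4 : ((Ioc N (R * N)).card : ℝ) * (C * G / h) ≤ R * C * E * G := by
      calc ((Ioc N (R * N)).card : ℝ) * (C * G / h) ≤ (R * N) * (C * G / h) :=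
            mul_le_mul_of_nonneg_right hcard (by positivity)
        _ ≤ (R * (E * h)) * (C * G / h) := by
            apply mul_le_mul_of_nonneg_right _ (by positivity)
            exact mul_le_mul_of_nonneg_left hNE2 (Nat.cast_nonneg _)
        _ = _ := by field_simp
    have h5 : ∑ n ∈ Ioc N (R * N), |(sf h n : ℝ) - 6 / Real.pi ^ 2 * h| + ∑ n ∈ Ioc N (R * N), ‖QQc f h n‖ ≤ 9 * R * h * E := by
      have h6 : 8 * R * N * Real.sqrt h ≤ 8 * R * h * E := by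
        calc 8 * R * N * Real.sqrt h ≤ 8 * R * (E * Real.sqrt h) * Real.sqrt h := by
              apply mul_le_mul_of_nonneg_right _ hsq0.le
              exact mul_le_mul_of_nonneg_left hNE (by positivity)
          _ = 8 * R * (Real.sqrt h * Real.sqrt h) * E := by ring
          _ = _ := by rw [hss]
      linarith
    have h6 := mul_le_mul_of_nonneg_left h5 (show 0 ≤ D * ((k / 2 : ℕ) : ℝ) * 4 ^ (k / 2) * G / h by positivity)
    have h7 : D * ((k / 2 : ℕ) : ℝ) * 4 ^ (k / 2) * G / h * (9 * R * h * E) = D * ((k / 2 : ℕ) : ℝ) * 4 ^ (k / 2) * (9 * R) * E * G := by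
      field_simp
    rw [h7] at h6
    calc _ ≤ R * C * E * G + D * ((k / 2 : ℕ) : ℝ) * 4 ^ (k / 2) * (9 * R) * E * G := add_le_add h4 h6
      _ = _ := by ring
  have hsumB := sum_BBo_le f N R h k u hu (E * G) (by positivity) (by rw [hE, hG]; exact hS)
  have e : ∑ n ∈ Ioc N (R * N), W (Fu u f) h n ^ k - ((R * N - N : ℕ) : ℝ) * (gk k * sg h ^ k) =
      ∑ n ∈ Ioc N (R * N), (W (Fu u f) h n ^ k - gk k * sg h ^ k - BBo (Fu u f) k h n) + ∑ n ∈ Ioc N (R * N), BBo (Fu u f) k h n := by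
    have h7 : ((R * N - N : ℕ) : ℝ) * (gk k * sg h ^ k) = ∑ _n ∈ Ioc N (R * N), gk k * sg h ^ k := by
      rw [sum_const, Nat.card_Ioc, nsmul_eq_mul]
    rw [h7, ← sum_sub_distrib, ← sum_add_distrib]
    apply sum_congr rfl
    intro n _
    ring
  rw [e, ← hE, ← hG]
  refine (abs_add_le _ _).trans ?_
  have h8 := (abs_sum_le_sum_abs (fun n => W (Fu u f) h n ^ k - gk k * sg h ^ k - BBo (Fu u f) k h n) (Ioc N (R * N))).trans hsumA
  calc _ ≤ (R * C + D * ((k / 2 : ℕ) : ℝ) * 4 ^ (k / 2) * (9 * R)) * E * G + 2 ^ k * (E * G) := add_le_add h8 hsumB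
    _ = _ := by ring

/-- the sums over the exceptional tuples and the sums of squares are small -/
def GoodC (K J : ℕ) (κ : ℝ) (f : ℕ → ℂ) (N : ℕ) : Prop :=
  ∀ R, (R = 2 ∨ R = 8) → ∀ j s : ℕ, j < 2 * J → (N : ℝ) ^ κ ≤ ((j * 2 ^ s : ℕ) : ℝ) →
    ((j * 2 ^ s : ℕ) : ℝ) * (N : ℝ) ^ κ ≤ N →
    ∑ n ∈ Ioc N (R * N), ‖QQc f (j * 2 ^ s) n‖ ^ 2 ≤ ((j * 2 ^ s : ℕ) : ℝ) ^ 2 * (N : ℝ) ^ (1 - κ / 8) ∧
    ∀ k, 1 ≤ k → k ≤ K → ∀ e : Fin k → Bool,
      ‖SE f N R (j * 2 ^ s) k e‖ ≤ (N : ℝ) ^ (1 - κ / 16) * Real.sqrt ((j * 2 ^ s : ℕ) : ℝ) ^ k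

theorem mom_u (K : ℕ) : ∃ B : ℝ, 0 ≤ B ∧ ∀ (J : ℕ) (κ : ℝ), 0 < κ → ∀ N : ℕ, 1 ≤ N → ∀ f : ℕ → ℂ, (∀ n, ‖f n‖ ≤ 1) →
    CRad f (9 * N) → GoodC K J κ f N → ∀ u : ℂ, ‖u‖ = 1 → MomC B K J κ (Fu u f) N := by
  classical
  have h1 : ∀ k R : ℕ, ∃ B : ℝ, 0 ≤ B ∧ (1 ≤ R → R ≤ 8 → ∀ κ : ℝ, 0 < κ → ∀ N h : ℕ, 1 ≤ N → (N : ℝ) ^ κ ≤ h → (h : ℝ) * (N : ℝ) ^ κ ≤ N →
      ∀ f : ℕ → ℂ, (∀ n, ‖f n‖ ≤ 1) → CRad f (9 * N) →
      ∑ n ∈ Ioc N (R * N), ‖QQc f h n‖ ^ 2 ≤ (h : ℝ) ^ 2 * (N : ℝ) ^ (1 - κ / 8) →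
      (∀ e : Fin k → Bool, ‖SE f N R h k e‖ ≤ (N : ℝ) ^ (1 - κ / 16) * Real.sqrt h ^ k) →
      ∀ u : ℂ, ‖u‖ = 1 →
      |∑ n ∈ Ioc N (R * N), W (Fu u f) h n ^ k - ((R * N - N : ℕ) : ℝ) * (gk k * sg h ^ k)| ≤
        B * (N : ℝ) ^ (1 - κ / 16) * Real.sqrt h ^ k) := by
    intro k R
    by_cases hR : 1 ≤ R ∧ R ≤ 8
    · obtain ⟨B, hB, h2⟩ := mom_one k R hR.1 hR.2
      exact ⟨B, hB, fun _ _ => h2⟩
    · exact ⟨0, le_rfl, fun h1 h2 => absurd ⟨h1, h2⟩ hR⟩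
  choose B hB0 hB using h1
  obtain ⟨E, hE⟩ : ∃ E : ℝ, E = ∑ k ∈ range (K + 1), (B k 2 + B k 8) := ⟨_, rfl⟩
  have hE0 : 0 ≤ E := by rw [hE]; exact sum_nonneg fun u _ => add_nonneg (hB0 u 2) (hB0 u 8)
  have hBE : ∀ k ≤ K, ∀ R, (R = 2 ∨ R = 8) → B k R ≤ E := fun k hk R hR => by
    have h1 : B k 2 + B k 8 ≤ E := by
      rw [hE]
      exact single_le_sum (f := fun k => B k 2 + B k 8) (fun v _ => add_nonneg (hB0 v 2) (hB0 v 8)) (mem_range.2 (by omega))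
    have h2 := hB0 k 2
    have h3 := hB0 k 8
    rcases hR with rfl | rfl <;> linarith
  refine ⟨E, hE0, ?_⟩
  intro J κ hκ N hN f hf1 hf2 hgood u hu k hk1 hk2 R hR j s hj hc1 hc2
  obtain ⟨g1, g2⟩ := hgood R hR j s hj hc1 hc2
  have hR18 : 1 ≤ R ∧ R ≤ 8 := by rcases hR with rfl | rfl <;> omega
  refine (hB k R hR18.1 hR18.2 κ hκ N (j * 2 ^ s) hN hc1 hc2 f hf1 hf2 g1 (g2 k hk1 hk2) u hu).trans ?_
  apply mul_le_mul_of_nonneg_right _ (by positivity)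
  apply mul_le_mul_of_nonneg_right (hBE k hk2 R hR) (by positivity)

end Pool.Agent.K4H49.GT
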