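import Pool.Agent.K4H49.GT.Avg
import Pool.Agent.K4H49.GT.Real
import Pool.Agent.K4H14.GQ.Final

/-!
# The normal law for almost all members of a family
-/

set_option autoImplicit false

namespace Pool.Agent.K4H49.GT

open Finset MeasureTheory
open Pool.Agent.K4H14.GC

theorem good_prob (K b : ℕ) (hK : 1 ≤ K) (κ : ℝ) (hκ : 0 < κ) (hκK : κ * (2 * K) ≤ 1) :
    ∃ A : ℝ, 0 ≤ A ∧ ∀ {Ω : Type} [MeasurableSpace Ω] {P : Measure Ω} [IsProbabilityMeasure P] {χ : Ω → ℕ → ℂ} {M D : ℕ} {δ : ℝ},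
      Fam P χ M D δ → 0 ≤ δ → ∀ g : ℕ → ℂ, SFC g → ∀ v i : ℕ, 2 ^ b ≤ i → i < 2 ^ (b + 1) →
      (9 * (i * 2 ^ v)) ^ (2 * K) ≤ D → δ * (9 * ((i * 2 ^ v : ℕ) : ℝ)) ^ (2 * K + 2) ≤ 1 →
      P.real {ω | ¬ GoodC K (2 ^ b) κ (tc g χ ω) (i * 2 ^ v)} ≤
        A * (((v : ℝ) + (b + 1)) * ((2 : ℝ) ^ v) ^ (-(κ / 8))) := by
  classical
  -- constants
  have hC : ∀ k R : ℕ, ∃ C : ℝ, 0 ≤ C ∧ (1 ≤ k → k ≤ K → 1 ≤ R → R ≤ 8 → ∀ {Ω : Type} [MeasurableSpace Ω] {P : Measure Ω} [IsProbabilityMeasure P] {χ : Ω → ℕ → ℂ} {M D : ℕ} {δ : ℝ},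
      Fam P χ M D δ → 0 ≤ δ → ∀ g : ℕ → ℂ, SFC g → ∀ N h : ℕ, 1 ≤ N → (N : ℝ) ^ κ ≤ h → (h : ℝ) * (N : ℝ) ^ κ ≤ N →
      (9 * N) ^ (2 * k) ≤ D → δ * (9 * (N : ℝ)) ^ (2 * k + 2) ≤ 1 → ∀ e : Fin k → Bool,
      P.real {ω | ¬ ‖SE (tc g χ ω) N R h k e‖ ≤ (N : ℝ) ^ (1 - κ / 16) * Real.sqrt h ^ k} ≤ C * (N : ℝ) ^ (-(κ / 8))) := by
    intro k R
    by_cases hk : 1 ≤ k ∧ k ≤ K ∧ 1 ≤ R ∧ R ≤ 8
    · obtain ⟨C, hC, h1⟩ := SE_avg (P := (Measure.dirac () : Measure Unit)) k R hk.1 hk.2.2.1 hk.2.2.2 κ hκ (by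
        refine le_trans (mul_le_mul_of_nonneg_left ?_ hκ.le) hκK
        have : (k : ℝ) ≤ K := by exact_mod_cast hk.2.1
        linarith)
      exact ⟨C, hC, fun _ _ _ _ => h1⟩
    · exact ⟨0, le_rfl, fun h1 h2 h3 h4 => absurd ⟨h1, h2, h3, h4⟩ hk⟩
  choose C hC0 hprob using hC
  obtain ⟨E, hE⟩ : ∃ E : ℝ, E = ∑ k ∈ range (K + 1), (C k 2 + C k 8) := ⟨_, rfl⟩
  have hE0 : 0 ≤ E := by rw [hE]; exact sum_nonneg fun u _ => add_nonneg (hC0 u 2) (hC0 u 8)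
  have hCE : ∀ k ≤ K, ∀ R, (R = 2 ∨ R = 8) → C k R ≤ E := fun k hk R hR => by
    have h1 : C k 2 + C k 8 ≤ E := by
      rw [hE]
      exact single_le_sum (f := fun k => C k 2 + C k 8) (fun v _ => add_nonneg (hC0 v 2) (hC0 v 8)) (mem_range.2 (by omega))
    have h2 := hC0 k 2
    have h3 := hC0 k 8
    rcases hR with rfl | rfl <;> linarith
  refine ⟨((K : ℝ) + 1) * 2 * (2 * 2 ^ b) * (16 + 2 ^ K * E), by positivity, ?_⟩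
  intro Ω _ P _ χ M D δ hF hδ g hg v i hi1 hi2 hD hδN
  obtain ⟨N, hN⟩ : ∃ N, N = i * 2 ^ v := ⟨_, rfl⟩
  rw [← hN] at hD hδN ⊢
  have hvN : 2 ^ v ≤ N := by rw [hN]; exact Nat.le_mul_of_pos_left _ (lt_of_lt_of_le (by positivity) hi1)
  have hN1 : 1 ≤ N := le_trans Nat.one_le_two_pow hvN
  have hNr : (1 : ℝ) ≤ N := by exact_mod_cast hN1
  have hvNr : (2 : ℝ) ^ v ≤ N := by exact_mod_cast hvN
  obtain ⟨I, hI⟩ : ∃ I : Finset (ℕ × ℕ × ℕ × ℕ), I = (range (K + 1)) ×ˢ ({2, 8} : Finset ℕ) ×ˢ (range (2 * 2 ^ b)) ×ˢ (range (v + b + 1)) := ⟨_, rfl⟩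
  obtain ⟨bad, hbad⟩ : ∃ bad : (ℕ × ℕ × ℕ × ℕ) → Set Ω, bad = fun x : ℕ × ℕ × ℕ × ℕ =>
    if x.1 ≤ K ∧ (x.2.1 = 2 ∨ x.2.1 = 8) ∧ (N : ℝ) ^ κ ≤ ((x.2.2.1 * 2 ^ x.2.2.2 : ℕ) : ℝ) ∧
        ((x.2.2.1 * 2 ^ x.2.2.2 : ℕ) : ℝ) * (N : ℝ) ^ κ ≤ N
      then (if x.1 = 0 then {ω | ¬ ∑ n ∈ Ioc N (x.2.1 * N), ‖QQc (tc g χ ω) (x.2.2.1 * 2 ^ x.2.2.2) n‖ ^ 2 ≤ (((x.2.2.1 * 2 ^ x.2.2.2 : ℕ) : ℝ)) ^ 2 * (N : ℝ) ^ (1 - κ / 8)}
        else ⋃ e ∈ (univ : Finset (Fin x.1 → Bool)), {ω | ¬ ‖SE (tc g χ ω) N x.2.1 (x.2.2.1 * 2 ^ x.2.2.2) x.1 e‖ ≤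
        (N : ℝ) ^ (1 - κ / 16) * Real.sqrt ((x.2.2.1 * 2 ^ x.2.2.2 : ℕ) : ℝ) ^ x.1})
      else ∅ := ⟨_, rfl⟩
  have hsub : {ω | ¬ GoodC K (2 ^ b) κ (tc g χ ω) N} ⊆ ⋃ x ∈ I, bad x := by
    intro ω hω
    by_contra hcon
    apply hω
    intro R hR j s hj hc1 hc2
    have hs : s < v + b + 1 := by
      have hk1' : (1 : ℝ) ≤ (N : ℝ) ^ κ := Real.one_le_rpow hNr hκ.le
      have hj1 : 1 ≤ j := by
        rcases Nat.eq_zero_or_pos j with h0 | h0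
        · rw [h0, zero_mul, Nat.cast_zero] at hc1
          linarith
        · exact h0
      have h1 : ((j * 2 ^ s : ℕ) : ℝ) ≤ N := le_trans (le_mul_of_one_le_right (Nat.cast_nonneg _) hk1') hc2
      have h2 : j * 2 ^ s ≤ N := by exact_mod_cast h1
      have h3 : 2 ^ s < 2 ^ (v + b + 1) := by
        calc 2 ^ s ≤ j * 2 ^ s := Nat.le_mul_of_pos_left _ hj1
          _ ≤ i * 2 ^ v := by rw [← hN]; exact h2
          _ < 2 ^ (b + 1) * 2 ^ v := Nat.mul_lt_mul_of_pos_right hi2 (by positivity)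
          _ = 2 ^ (v + b + 1) := by rw [← pow_add]; congr 1; ring
      exact (Nat.pow_lt_pow_iff_right (by norm_num : 1 < 2)).1 h3
    constructor
    · by_contra hcon2
      apply hcon
      rw [Set.mem_iUnion₂]
      refine ⟨(0, R, j, s), ?_, ?_⟩
      · rw [hI]
        simp only [mem_product, mem_range, mem_insert, mem_singleton]
        exact ⟨by omega, hR, hj, hs⟩
      · rw [hbad]
        simp only
        rw [if_pos ⟨by omega, hR, hc1, hc2⟩]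
        simp only [if_true]
        exact hcon2
    · intro k hk1 hk2 e
      by_contra hcon2
      apply hcon
      rw [Set.mem_iUnion₂]
      refine ⟨(k, R, j, s), ?_, ?_⟩
      · rw [hI]
        simp only [mem_product, mem_range, mem_insert, mem_singleton]
        exact ⟨by omega, hR, hj, hs⟩
      · rw [hbad]
        simp only
        rw [if_pos ⟨hk2, hR, hc1, hc2⟩, if_neg (by omega), Set.mem_iUnion₂]
        exact ⟨e, mem_univ _, hcon2⟩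
  have hone : ∀ x ∈ I, P.real (bad x) ≤ (16 + 2 ^ K * E) * ((2 : ℝ) ^ v) ^ (-(κ / 8)) := by
    intro x _
    have hpv : (N : ℝ) ^ (-(κ / 8)) ≤ ((2 : ℝ) ^ v) ^ (-(κ / 8)) := Real.rpow_le_rpow_of_nonpos (by positivity) hvNr (by linarith)
    have hpv0 : 0 ≤ ((2 : ℝ) ^ v) ^ (-(κ / 8)) := by positivity
    have hNp0 : 0 ≤ (N : ℝ) ^ (-(κ / 8)) := by positivity
    have h9N : (1 : ℝ) ≤ 9 * N := by linarith
    have h9N' : 1 ≤ 9 * N := by omega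
    rw [hbad]
    simp only
    split_ifs with hc hx0
    · obtain ⟨c2, c3, c4, c5⟩ := hc
      have hD2 : (9 * N) ^ 2 ≤ D := (Nat.pow_le_pow_right h9N' (by omega)).trans hD
      have hδ2 : δ * (9 * (N : ℝ)) ^ 2 ≤ 1 := by
        refine le_trans (mul_le_mul_of_nonneg_left ?_ hδ) hδN
        exact pow_le_pow_right₀ h9N (by omega)
      refine (QQ_avg hF hδ g hg x.2.1 (by omega) κ hκ N _ hN1 c4 c5 hD2 hδ2).trans ?_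
      have h1 : 16 * (N : ℝ) ^ (-(κ / 8)) ≤ 16 * ((2 : ℝ) ^ v) ^ (-(κ / 8)) := by linarith
      have h2 : 0 ≤ 2 ^ K * E * ((2 : ℝ) ^ v) ^ (-(κ / 8)) := by positivity
      linarith
    · obtain ⟨c2, c3, c4, c5⟩ := hc
      have hx1 : 1 ≤ x.1 := by omega
      have hDk : (9 * N) ^ (2 * x.1) ≤ D := (Nat.pow_le_pow_right h9N' (by omega)).trans hD
      have hδk : δ * (9 * (N : ℝ)) ^ (2 * x.1 + 2) ≤ 1 := by
        refine le_trans (mul_le_mul_of_nonneg_left ?_ hδ) hδN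
        exact pow_le_pow_right₀ h9N (by omega)
      refine (measureReal_biUnion_finset_le _ _).trans ?_
      have h1 : ∀ e ∈ (univ : Finset (Fin x.1 → Bool)), P.real {ω | ¬ ‖SE (tc g χ ω) N x.2.1 (x.2.2.1 * 2 ^ x.2.2.2) x.1 e‖ ≤
        (N : ℝ) ^ (1 - κ / 16) * Real.sqrt ((x.2.2.1 * 2 ^ x.2.2.2 : ℕ) : ℝ) ^ x.1} ≤ E * ((2 : ℝ) ^ v) ^ (-(κ / 8)) := by
        intro e _
        refine (hprob x.1 x.2.1 hx1 c2 (by omega) (by omega) hF hδ g hg N _ hN1 c4 c5 hDk hδk e).trans ?_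
        exact mul_le_mul (hCE _ c2 _ c3) hpv hNp0 hE0
      refine (sum_le_sum h1).trans ?_
      rw [sum_const, card_univ, Fintype.card_fun, Fintype.card_bool, Fintype.card_fin, nsmul_eq_mul]
      push_cast
      have h2 : (2 : ℝ) ^ x.1 ≤ 2 ^ K := pow_le_pow_right₀ (by norm_num) c2
      have h3 : 0 ≤ E * ((2 : ℝ) ^ v) ^ (-(κ / 8)) := by positivity
      calc (2 : ℝ) ^ x.1 * (E * ((2 : ℝ) ^ v) ^ (-(κ / 8))) ≤ 2 ^ K * (E * ((2 : ℝ) ^ v) ^ (-(κ / 8))) :=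
            mul_le_mul_of_nonneg_right h2 h3
        _ = 2 ^ K * E * ((2 : ℝ) ^ v) ^ (-(κ / 8)) := by ring
        _ ≤ _ := by
            apply mul_le_mul_of_nonneg_right _ hpv0
            linarith
    · rw [measureReal_empty]
      positivity
  have hcard : (I.card : ℝ) = ((K : ℝ) + 1) * 2 * (2 * 2 ^ b) * ((v : ℝ) + (b + 1)) := by
    have h2 : I.card = (K + 1) * (2 * (2 * 2 ^ b * (v + b + 1))) := by
      rw [hI]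
      simp only [card_product, card_range]
      rfl
    rw [h2]
    push_cast
    ring
  calc P.real {ω | ¬ GoodC K (2 ^ b) κ (tc g χ ω) N} ≤ P.real (⋃ x ∈ I, bad x) := measureReal_mono hsub (measure_ne_top _ _)
    _ ≤ ∑ x ∈ I, P.real (bad x) := measureReal_biUnion_finset_le _ _
    _ ≤ ∑ _x ∈ I, (16 + 2 ^ K * E) * ((2 : ℝ) ^ v) ^ (-(κ / 8)) := sum_le_sum hone
    _ = (I.card : ℝ) * ((16 + 2 ^ K * E) * ((2 : ℝ) ^ v) ^ (-(κ / 8))) := by rw [sum_const, nsmul_eq_mul]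
    _ = _ := by rw [hcard]; ring

theorem all_prob (K b : ℕ) (hK : 1 ≤ K) (κ : ℝ) (hκ : 0 < κ) (hκK : κ * (2 * K) ≤ 1) :
    ∃ A : ℝ, 0 ≤ A ∧ ∀ {Ω : Type} [MeasurableSpace Ω] {P : Measure Ω} [IsProbabilityMeasure P] {χ : Ω → ℕ → ℂ} {M D : ℕ} {δ : ℝ},
      Fam P χ M D δ → 0 ≤ δ → ∀ g : ℕ → ℂ, SFC g → ∀ (Y : ℝ) (Z : ℕ), 0 < Y →
      (9 * Z) ^ (2 * K) ≤ D → δ * (9 * (Z : ℝ)) ^ (2 * K + 2) ≤ 1 →
      P.real {ω | ∃ v i : ℕ, 2 ^ b ≤ i ∧ i < 2 ^ (b + 1) ∧ Y ≤ ((i * 2 ^ v : ℕ) : ℝ) ∧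
        i * 2 ^ v ≤ Z ∧ ¬ GoodC K (2 ^ b) κ (tc g χ ω) (i * 2 ^ v)} ≤ A * Y ^ (-(κ / 16)) := by
  classical
  obtain ⟨A, hA, h1⟩ := good_prob K b hK κ hκ hκK
  have hsum := summable_aux (κ / 16) (b + 1) 1 (by positivity)
  obtain ⟨S, hS⟩ : ∃ S : ℝ, S = ∑' v : ℕ, 1 * ((v : ℝ) + (b + 1)) * ((2 : ℝ) ^ (v : ℕ)) ^ (-(κ / 16)) := ⟨_, rfl⟩
  have hS0 : 0 ≤ S := by rw [hS]; exact tsum_nonneg fun v => by positivity
  have hfin : ∀ T : ℕ, ∑ v ∈ range T, ((v : ℝ) + (b + 1)) * ((2 : ℝ) ^ (v : ℕ)) ^ (-(κ / 16)) ≤ S := by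
    intro T
    rw [hS]
    refine le_trans (le_of_eq ?_) (hsum.sum_le_tsum (range T) (fun v _ => by positivity))
    apply sum_congr rfl
    intro v _
    ring
  refine ⟨A * 2 ^ (b + 1) * ((2 : ℝ) ^ (b + 1)) ^ (κ / 16) * S, by positivity, ?_⟩
  intro Ω _ P _ χ M D δ hF hδ g hg Y Z hY hD hδZ
  obtain ⟨I, hI⟩ : ∃ I : Finset (ℕ × ℕ), I = ((range (Z + 1)) ×ˢ (range (2 ^ (b + 1)))).filter
    (fun x => 2 ^ b ≤ x.2 ∧ Y ≤ ((x.2 * 2 ^ x.1 : ℕ) : ℝ) ∧ x.2 * 2 ^ x.1 ≤ Z) := ⟨_, rfl⟩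
  obtain ⟨bad, hbad⟩ : ∃ bad : ℕ × ℕ → Set Ω, bad = fun x => {ω | ¬ GoodC K (2 ^ b) κ (tc g χ ω) (x.2 * 2 ^ x.1)} :=
    ⟨_, rfl⟩
  have hsub : {ω | ∃ v i : ℕ, 2 ^ b ≤ i ∧ i < 2 ^ (b + 1) ∧ Y ≤ ((i * 2 ^ v : ℕ) : ℝ) ∧
        i * 2 ^ v ≤ Z ∧ ¬ GoodC K (2 ^ b) κ (tc g χ ω) (i * 2 ^ v)} ⊆ ⋃ x ∈ I, bad x := by
    rintro ω ⟨v, i, a1, a2, a3, a4, a5⟩
    rw [Set.mem_iUnion₂]
    refine ⟨(v, i), ?_, ?_⟩
    · rw [hI, mem_filter, mem_product, mem_range, mem_range]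
      refine ⟨⟨?_, a2⟩, a1, a3, a4⟩
      have b1 : 2 ^ v ≤ i * 2 ^ v := Nat.le_mul_of_pos_left _ (lt_of_lt_of_le (by positivity) a1)
      have b2 : v < 2 ^ v := Nat.lt_two_pow_self
      simp only
      omega
    · rw [hbad]
      exact a5
  have hone : ∀ x ∈ I, P.real (bad x) ≤ (A * (((2 : ℝ) ^ (b + 1)) ^ (κ / 16) * Y ^ (-(κ / 16)))) *
      (((x.1 : ℝ) + (b + 1)) * ((2 : ℝ) ^ x.1) ^ (-(κ / 16))) := by
    intro x hx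
    rw [hI, mem_filter, mem_product, mem_range, mem_range] at hx
    obtain ⟨⟨_, a2⟩, a1, a3, a4⟩ := hx
    have hN1 : 1 ≤ x.2 * 2 ^ x.1 := Nat.mul_pos (lt_of_lt_of_le (by positivity) a1) (by positivity)
    have hD' : (9 * (x.2 * 2 ^ x.1)) ^ (2 * K) ≤ D := (Nat.pow_le_pow_left (by omega) _).trans hD
    have hδ' : δ * (9 * ((x.2 * 2 ^ x.1 : ℕ) : ℝ)) ^ (2 * K + 2) ≤ 1 := by
      refine le_trans (mul_le_mul_of_nonneg_left ?_ hδ) hδZ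
      apply pow_le_pow_left₀ (by positivity)
      have : ((x.2 * 2 ^ x.1 : ℕ) : ℝ) ≤ Z := by exact_mod_cast a4
      linarith
    rw [hbad]
    refine (h1 hF hδ g hg x.1 x.2 a1 a2 hD' hδ').trans ?_
    -- (2^v)^(-κ/8) ≤ (Y / 2^(b+1))^(-κ/16) (2^v)^(-κ/16)
    have hv0 : (0 : ℝ) < (2 : ℝ) ^ x.1 := by positivity
    have hb0 : (0 : ℝ) < (2 : ℝ) ^ (b + 1) := by positivity
    have e1 : ((2 : ℝ) ^ x.1) ^ (-(κ / 8)) = ((2 : ℝ) ^ x.1) ^ (-(κ / 16)) * ((2 : ℝ) ^ x.1) ^ (-(κ / 16)) := by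
      rw [← Real.rpow_add hv0]
      congr 1
      ring
    have e2 : ((2 : ℝ) ^ x.1) ^ (-(κ / 16)) ≤ ((2 : ℝ) ^ (b + 1)) ^ (κ / 16) * Y ^ (-(κ / 16)) := by
      have e3 : Y ≤ (2 : ℝ) ^ (b + 1) * 2 ^ x.1 := by
        refine a3.trans ?_
        have : x.2 * 2 ^ x.1 ≤ 2 ^ (b + 1) * 2 ^ x.1 := Nat.mul_le_mul_right _ a2.le
        exact_mod_cast this
      have e4 : ((2 : ℝ) ^ (b + 1) * 2 ^ x.1) ^ (-(κ / 16)) ≤ Y ^ (-(κ / 16)) := Real.rpow_le_rpow_of_nonpos hY e3 (by linarith)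
      rw [Real.mul_rpow hb0.le hv0.le] at e4
      have e5 := mul_le_mul_of_nonneg_left e4 (by positivity : (0 : ℝ) ≤ ((2 : ℝ) ^ (b + 1)) ^ (κ / 16))
      refine le_trans (le_of_eq ?_) e5
      rw [← mul_assoc, ← Real.rpow_add hb0]
      simp
    rw [e1]
    have e7 : 0 ≤ ((x.1 : ℝ) + (b + 1)) * ((2 : ℝ) ^ x.1) ^ (-(κ / 16)) := by positivity
    have e8 := mul_le_mul_of_nonneg_left e2 (mul_nonneg hA e7)
    refine le_trans (le_of_eq ?_) (e8.trans (le_of_eq ?_))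
    · ring
    · ring
  have hsumI : ∑ x ∈ I, (((x.1 : ℝ) + (b + 1)) * ((2 : ℝ) ^ x.1) ^ (-(κ / 16))) ≤ 2 ^ (b + 1) * S := by
    calc ∑ x ∈ I, (((x.1 : ℝ) + (b + 1)) * ((2 : ℝ) ^ x.1) ^ (-(κ / 16)))
        ≤ ∑ x ∈ (range (Z + 1)) ×ˢ (range (2 ^ (b + 1))), (((x.1 : ℝ) + (b + 1)) * ((2 : ℝ) ^ x.1) ^ (-(κ / 16))) := by
          apply sum_le_sum_of_subset_of_nonneg
          · rw [hI]; exact filter_subset _ _
          · intro x _ _; positivity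
      _ = (2 : ℝ) ^ (b + 1) * ∑ v ∈ range (Z + 1), (((v : ℝ) + (b + 1)) * ((2 : ℝ) ^ v) ^ (-(κ / 16))) := by
          rw [sum_product, mul_sum]
          apply sum_congr rfl
          intro v _
          change ∑ _y ∈ range (2 ^ (b + 1)), (((v : ℝ) + (b + 1)) * ((2 : ℝ) ^ v) ^ (-(κ / 16))) = _
          rw [sum_const, card_range, nsmul_eq_mul]
          push_cast
          rfl
      _ ≤ _ := mul_le_mul_of_nonneg_left (hfin _) (by positivity)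
  calc _ ≤ P.real (⋃ x ∈ I, bad x) := measureReal_mono hsub (measure_ne_top _ _)
    _ ≤ ∑ x ∈ I, P.real (bad x) := measureReal_biUnion_finset_le _ _
    _ ≤ ∑ x ∈ I, (A * (((2 : ℝ) ^ (b + 1)) ^ (κ / 16) * Y ^ (-(κ / 16)))) *
      (((x.1 : ℝ) + (b + 1)) * ((2 : ℝ) ^ x.1) ^ (-(κ / 16))) := sum_le_sum hone
    _ = (A * (((2 : ℝ) ^ (b + 1)) ^ (κ / 16) * Y ^ (-(κ / 16)))) *
      ∑ x ∈ I, (((x.1 : ℝ) + (b + 1)) * ((2 : ℝ) ^ x.1) ^ (-(κ / 16))) := by rw [mul_sum]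
    _ ≤ (A * (((2 : ℝ) ^ (b + 1)) ^ (κ / 16) * Y ^ (-(κ / 16)))) * (2 ^ (b + 1) * S) := by
        apply mul_le_mul_of_nonneg_left hsumI
        positivity
    _ = _ := by ring

/-- the law fails for `f` at some scale between `Y` and `Z` -/
def ExcC (ε δ Y Z : ℝ) (f : ℕ → ℂ) : Prop :=
  ∃ X : ℝ, Y ≤ X ∧ X ≤ Z ∧ ∃ H : ℝ, X ^ ε ≤ H ∧ H ≤ X ^ (1 - ε) ∧ ∃ u : ℂ, ‖u‖ = 1 ∧ ∃ t : ℝ,
    δ < |(volume (VV (Fu u f) X H t)).toReal / X - Ph t|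

theorem fam_main (ε δ : ℝ) (hε : 0 < ε) (hδ : 0 < δ) : ∃ K : ℕ, 1 ≤ K ∧ ∃ c C : ℝ, 0 < c ∧ 0 < C ∧
    ∀ {Ω : Type} [MeasurableSpace Ω] {P : Measure Ω} [IsProbabilityMeasure P] {χ : Ω → ℕ → ℂ} {M D : ℕ} {δ' : ℝ},
      Fam P χ M D δ' → 0 ≤ δ' → ∀ g : ℕ → ℂ, SFC g → ∀ (Z' : ℝ) (Z : ℕ), ⌊Z'⌋₊ ≤ Z → 9 * Z ≤ M →
      (9 * Z) ^ (2 * K) ≤ D → δ' * (9 * (Z : ℝ)) ^ (2 * K + 2) ≤ 1 → ∀ Y : ℝ, 1 ≤ Y →
      P.real {ω | ExcC ε δ Y Z' (tc g χ ω)} ≤ C * Y ^ (-c) := by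
  classical
  choose Bf hBf hmom using mom_u
  obtain ⟨K, b, hK, κ, hκ, hκK, _, _, N₁, hN₁, hdet⟩ := det_abs Bf hBf (δ / 48) (ε / 2) (by positivity) (by positivity)
  obtain ⟨A, hA, hbad⟩ := all_prob K b (by omega) κ hκ hκK
  obtain ⟨X₀, hX₀2, hstep⟩ := real_step_abs ε δ hε hδ
  obtain ⟨c, hc⟩ : ∃ c : ℝ, c = κ / 16 := ⟨_, rfl⟩
  have hc0 : 0 < c := by rw [hc]; positivity
  obtain ⟨X₁, hX₁⟩ : ∃ X₁ : ℝ, X₁ = max X₀ (4 * (N₁ + 2) + 2 ^ (b + 1)) := ⟨_, rfl⟩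
  have hX₁0 : X₀ ≤ X₁ := by rw [hX₁]; exact le_max_left _ _
  have hX₁1 : 4 * (N₁ + 2) + 2 ^ (b + 1) ≤ X₁ := by rw [hX₁]; exact le_max_right _ _
  have hX₁p : 2 ≤ X₁ := hX₀2.trans hX₁0
  refine ⟨K, by omega, c, X₁ ^ c + A * 4 ^ c, hc0, by positivity, ?_⟩
  intro Ω _ P _ χ M D δ' hF hδ' g hg Z' Z hZ hM hD hδZ Y hY
  have hY0 : 0 < Y := by linarith
  have hYc : 0 < Y ^ (-c) := by positivity
  by_cases hYX : X₁ ≤ Y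
  swap
  · -- small Y
    have h5 : P.real {ω | ExcC ε δ Y Z' (tc g χ ω)} ≤ 1 := measureReal_le_one
    have h6 : 1 ≤ X₁ ^ c * Y ^ (-c) := by
      have h7 : X₁ ^ (-c) ≤ Y ^ (-c) := Real.rpow_le_rpow_of_nonpos hY0 (not_le.1 hYX).le (by linarith)
      have h8 : X₁ ^ c * X₁ ^ (-c) = 1 := by
        rw [← Real.rpow_add (by linarith)]; simp
      calc (1 : ℝ) = X₁ ^ c * X₁ ^ (-c) := h8.symm
        _ ≤ _ := mul_le_mul_of_nonneg_left h7 (by positivity)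
    have h7 : 0 ≤ A * 4 ^ c * Y ^ (-c) := by positivity
    linarith
  -- the main case
  have hb := hbad hF hδ' g hg (Y / 4) Z (by positivity) hD hδZ
  have hsub : {ω | ExcC ε δ Y Z' (tc g χ ω)} ⊆ {ω | ∃ v i : ℕ, 2 ^ b ≤ i ∧ i < 2 ^ (b + 1) ∧ Y / 4 ≤ ((i * 2 ^ v : ℕ) : ℝ) ∧
        i * 2 ^ v ≤ Z ∧ ¬ GoodC K (2 ^ b) κ (tc g χ ω) (i * 2 ^ v)} := by
    rintro ω ⟨X, hX1, hX2, H, hH1, hH2, u, hu, t, ht⟩
    by_contra hcon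
    have hXX : X₁ ≤ X := hYX.trans hX1
    have hXp : 0 < X := by linarith
    obtain ⟨N', hN'⟩ : ∃ N', N' = ⌊X⌋₊ := ⟨_, rfl⟩
    have hN'1 : (N' : ℝ) ≤ X := by rw [hN']; exact Nat.floor_le hXp.le
    have hN'2 : X < N' + 1 := by rw [hN']; exact Nat.lt_floor_add_one _
    have hN₁0 : (0 : ℝ) ≤ N₁ := Nat.cast_nonneg _
    have hb0 : (0 : ℝ) < 2 ^ (b + 1) := by positivity
    have hN'3 : 2 ^ b ≤ N' := by
      have : (2 : ℝ) ^ b ≤ N' := by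
        have : (2 : ℝ) ^ (b + 1) = 2 * 2 ^ b := by ring
        have : (0 : ℝ) < 2 ^ b := by positivity
        linarith
      exact_mod_cast this
    obtain ⟨i, v, g', e1, hg', hi1, hi2⟩ := digits b N' hN'3
    have hNN : i * 2 ^ v ≤ N' := by omega
    have hhalf : N' ≤ 2 * (i * 2 ^ v) := by
      have : 2 ^ v ≤ i * 2 ^ v := Nat.le_mul_of_pos_left _ (lt_of_lt_of_le (by positivity) hi1)
      omega
    have hhalfr : (N' : ℝ) ≤ 2 * ((i * 2 ^ v : ℕ) : ℝ) := by exact_mod_cast hhalf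
    have hNZ : i * 2 ^ v ≤ Z := by
      have : N' ≤ Z := by
        rw [hN']
        exact (Nat.floor_le_floor hX2).trans hZ
      omega
    have hgood : GoodC K (2 ^ b) κ (tc g χ ω) (i * 2 ^ v) := by
      by_contra hng
      exact hcon ⟨v, i, hi1, hi2, by linarith, hNZ, hng⟩
    have hN1 : N₁ ≤ i * 2 ^ v := by
      have : (N₁ : ℝ) ≤ ((i * 2 ^ v : ℕ) : ℝ) := by linarith
      exact_mod_cast this
    have hm := hmom K (2 ^ b) κ hκ (i * 2 ^ v) (hN₁.trans hN1) (tc g χ ω) (tc_le hF hg ω)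
      (tc_crad hF hg ω _ (by omega)) hgood u hu
    have hd := hdet (i * 2 ^ v) hN1 (Fu u (tc g χ ω)) (Fu_abs hu (tc_le hF hg ω)) hm N' hNN (by
      have h6 : N' - i * 2 ^ v = g' := by omega
      rw [h6]
      calc 2 ^ b * g' ≤ 2 ^ b * 2 ^ v := Nat.mul_le_mul_left _ hg'.le
        _ ≤ i * 2 ^ v := Nat.mul_le_mul_right _ hi1)
    rw [hN'] at hd
    have hfin := hstep X (hX₁0.trans hXX) (Fu u (tc g χ ω)) (Fu_abs hu (tc_le hF hg ω)) (fun h hh1 hh2 x => by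
      refine (hd h hh1 hh2 x).trans (le_of_eq ?_)
      ring) H hH1 hH2 t
    linarith
  refine (measureReal_mono hsub (measure_ne_top _ _)).trans (hb.trans ?_)
  rw [← hc, Real.div_rpow hY0.le (by norm_num), Real.rpow_neg (by norm_num : (0 : ℝ) ≤ 4), div_inv_eq_mul]
  have h7 : 0 ≤ X₁ ^ c * Y ^ (-c) := by positivity
  calc A * (Y ^ (-c) * 4 ^ c) = A * 4 ^ c * Y ^ (-c) := by ring
    _ ≤ (X₁ ^ c + A * 4 ^ c) * Y ^ (-c) := by linarith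

end Pool.Agent.K4H49.GT
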